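import Pool.Agent.CompToeplitz.Parseval

/-!
# Basic facts on `H²` functions
-/

open Complex MeasureTheory Metric Set Real Filter Topology
open scoped ENNReal ComplexConjugate

namespace Pool.Agent.CompToeplitz

lemma H2.coeff_le (f : H2) (n : ℕ) : ‖f n‖ ≤ ‖f‖ := by
  have h1 : ‖f n‖ ^ 2 ≤ ‖f‖ ^ 2 := by
    rw [H2.norm_sq]
    exact (H2.summable f).le_tsum n (fun j _ => by positivity)
  exact (sq_le_sq₀ (norm_nonneg _) (norm_nonneg _)).1 h1

lemma ev_term_le (f : H2) (z : ℂ) (n : ℕ) : ‖f n * z ^ n‖ ≤ ‖f‖ * ‖z‖ ^ n := by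
  rw [norm_mul, norm_pow]
  gcongr
  exact H2.coeff_le f n

lemma ev_summable_norm (f : H2) {z : ℂ} (hz : ‖z‖ < 1) : Summable (fun n => ‖f n * z ^ n‖) :=
  Summable.of_nonneg_of_le (fun n => norm_nonneg _) (ev_term_le f z)
    ((summable_geometric_of_lt_one (norm_nonneg z) hz).mul_left _)

lemma ev_summable (f : H2) {z : ℂ} (hz : ‖z‖ < 1) : Summable (fun n => f n * z ^ n) :=
  (ev_summable_norm f hz).of_norm

lemma norm_ev_le (f : H2) {z : ℂ} (hz : ‖z‖ < 1) : ‖ev f z‖ ≤ ‖f‖ * (1 - ‖z‖)⁻¹ := by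
  unfold ev
  rw [← tsum_geometric_of_lt_one (norm_nonneg z) hz, ← tsum_mul_left]
  refine (norm_tsum_le_tsum_norm (ev_summable_norm f hz)).trans ?_
  exact (ev_summable_norm f hz).tsum_le_tsum (ev_term_le f z)
    ((summable_geometric_of_lt_one (norm_nonneg z) hz).mul_left _)

lemma ev_add (f g : H2) {z : ℂ} (hz : ‖z‖ < 1) : ev (f + g) z = ev f z + ev g z := by
  unfold ev
  rw [← (ev_summable f hz).tsum_add (ev_summable g hz)]
  apply tsum_congr
  intro n
  rw [lp.coeFn_add, Pi.add_apply, add_mul]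

lemma ev_smul (c : ℂ) (f : H2) (z : ℂ) : ev (c • f) z = c * ev f z := by
  unfold ev
  rw [← tsum_mul_left]
  apply tsum_congr
  intro n
  rw [lp.coeFn_smul, Pi.smul_apply, smul_eq_mul, mul_assoc]

lemma ev_sub (f g : H2) {z : ℂ} (hz : ‖z‖ < 1) : ev (f - g) z = ev f z - ev g z := by
  have h1 : f - g = f + (-1 : ℂ) • g := by simp [sub_eq_add_neg]
  rw [h1, ev_add _ _ hz, ev_smul]
  ring

lemma ev_Mz (f : H2) {z : ℂ} (hz : ‖z‖ < 1) : ev (Mz f) z = z * ev f z := by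
  unfold ev
  rw [(ev_summable (Mz f) hz).tsum_eq_zero_add]
  have h0 : (Mz f) 0 = 0 := rfl
  have h1 : ∀ n, (Mz f) (n + 1) = f n := fun n => rfl
  rw [h0, zero_mul, zero_add, ← tsum_mul_left]
  apply tsum_congr
  intro n
  rw [h1, pow_succ]
  ring

lemma ev_Mz_pow (f : H2) {z : ℂ} (hz : ‖z‖ < 1) (n : ℕ) :
    ev ((Mz ^ n) f) z = z ^ n * ev f z := by
  induction n with
  | zero => simp
  | succ n ih =>
    rw [pow_succ']
    change ev (Mz ((Mz ^ n) f)) z = _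
    rw [ev_Mz _ hz, ih, pow_succ]
    ring

lemma differentiableOn_ev (f : H2) : DifferentiableOn ℂ (ev f) (ball 0 1) := by
  intro z hz
  rw [mem_ball_zero_iff] at hz
  obtain ⟨ρ, hρ1, hρ2⟩ := exists_between hz
  have hρ0 : 0 ≤ ρ := (norm_nonneg z).trans hρ1.le
  have h1 : DifferentiableOn ℂ (fun w => ∑' n : ℕ, f n * w ^ n) (ball 0 ρ) := by
    apply Complex.differentiableOn_tsum_of_summable_norm (u := fun n => ‖f‖ * ρ ^ n)
    · exact (summable_geometric_of_lt_one hρ0 hρ2).mul_left _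
    · intro n
      fun_prop
    · exact isOpen_ball
    · intro n w hw
      rw [mem_ball_zero_iff] at hw
      refine (ev_term_le f w n).trans ?_
      gcongr
  have h2 : DifferentiableAt ℂ (ev f) z :=
    (h1 z (by rwa [mem_ball_zero_iff])).differentiableAt (isOpen_ball.mem_nhds
      (by rwa [mem_ball_zero_iff]))
  exact h2.differentiableWithinAt

lemma norm_r_ee {r : ℝ} (hr : 0 ≤ r) (t : ℝ) : ‖(r : ℂ) * ee t‖ = r := by
  rw [norm_mul, norm_ee, mul_one, Complex.norm_real, Real.norm_of_nonneg hr]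

lemma hasSum_circle (f : H2) {r : ℝ} (hr : 0 ≤ r) (hr1 : r < 1) :
    HasSum (fun n => ‖f n‖ ^ 2 * (r ^ n) ^ 2) (∫ t in (0 : ℝ)..1, ‖ev f (r * ee t)‖ ^ 2) := by
  have hb : Summable (fun n => ‖f n * (r : ℂ) ^ n‖) := by
    have := ev_summable_norm f (z := (r : ℂ)) (by
      rwa [Complex.norm_real, Real.norm_of_nonneg hr])
    exact this
  have hp := parseval_abs hb
  have e1 : (fun t : ℝ => ‖∑' n, f n * (r : ℂ) ^ n * ee t ^ n‖ ^ 2)
      = fun t : ℝ => ‖ev f (r * ee t)‖ ^ 2 := by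
    ext t
    unfold ev
    congr 2
    apply tsum_congr
    intro n
    rw [mul_pow]; ring
  have e2 : (fun n => ‖f n * (r : ℂ) ^ n‖ ^ 2) = fun n => ‖f n‖ ^ 2 * (r ^ n) ^ 2 := by
    ext n
    rw [norm_mul, mul_pow, norm_pow, Complex.norm_real, Real.norm_of_nonneg hr]
  rw [e1, e2] at hp
  exact hp

lemma circle_le (f : H2) {r : ℝ} (hr : 0 ≤ r) (hr1 : r < 1) :
    ∫ t in (0 : ℝ)..1, ‖ev f (r * ee t)‖ ^ 2 ≤ ‖f‖ ^ 2 := by
  have h := hasSum_circle f hr hr1
  rw [H2.norm_sq, ← h.tsum_eq]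
  apply h.summable.tsum_le_tsum _ (H2.summable f)
  intro n
  have h1 : (r ^ n) ^ 2 ≤ 1 := by
    rw [← pow_mul]
    exact pow_le_one₀ hr hr1.le
  nlinarith [sq_nonneg ‖f n‖]

lemma ev_injective {f g : H2} (h : ∀ z ∈ ball (0 : ℂ) 1, ev f z = ev g z) : f = g := by
  rw [← sub_eq_zero]
  have h0 : ∀ t : ℝ, ev (f - g) ((1 / 2 : ℝ) * ee t) = 0 := by
    intro t
    have hz : ‖((1 / 2 : ℝ) : ℂ) * ee t‖ < 1 := by
      rw [norm_r_ee (by norm_num)]; norm_num
    rw [ev_sub _ _ hz, h _ (by rwa [mem_ball_zero_iff]), sub_self]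
  have h1 := hasSum_circle (f - g) (r := 1 / 2) (by norm_num) (by norm_num)
  simp only [h0] at h1
  simp only [norm_zero, ne_eq, OfNat.ofNat_ne_zero, not_false_eq_true, zero_pow,
    intervalIntegral.integral_zero] at h1
  have h2 := (hasSum_zero_iff_of_nonneg (fun n => by positivity)).1 h1
  apply lp.ext
  funext n
  have h3 := congrFun h2 n
  simp only [Pi.zero_apply, mul_eq_zero, ne_eq, OfNat.ofNat_ne_zero, not_false_eq_true,
    pow_eq_zero_iff, norm_eq_zero] at h3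
  rcases h3 with h3 | h3
  · exact h3
  · exact absurd h3 (by positivity)

/-- An analytic function with bounded circular mean squares comes from `H²`. -/
lemma exists_H2_of_bound {F : ℂ → ℂ} (hF : DifferentiableOn ℂ F (ball 0 1)) {K : ℝ}
    (hK : ∀ r : ℝ, 0 ≤ r → r < 1 → ∫ t in (0 : ℝ)..1, ‖F (r * ee t)‖ ^ 2 ≤ K) :
    ∃ f : H2, (∀ z ∈ ball (0 : ℂ) 1, ev f z = F z) ∧ ‖f‖ ^ 2 ≤ K := by
  set a : ℕ → ℂ := fun n => (n.factorial : ℂ)⁻¹ * iteratedDeriv n F 0 with ha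
  have hsum : ∀ z ∈ ball (0 : ℂ) 1, HasSum (fun n => a n * z ^ n) (F z) := by
    intro z hz
    have h1 := Complex.hasSum_taylorSeries_on_ball hF hz
    have e : (fun n : ℕ => a n * z ^ n)
        = fun n : ℕ => (n.factorial : ℂ)⁻¹ • (z - 0) ^ n • iteratedDeriv n F 0 := by
      funext n
      simp only [ha, sub_zero, smul_eq_mul]
      ring
    rw [e]
    exact h1
  have hnorm : ∀ r : ℝ, 0 ≤ r → r < 1 → Summable (fun n => ‖a n‖ * r ^ n) := by
    intro r hr hr1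
    obtain ⟨s, hs1, hs2⟩ := exists_between hr1
    have hs0 : 0 < s := hr.trans_lt hs1
    have h1 := (hsum (s : ℂ) (by
      rw [mem_ball_zero_iff, Complex.norm_real, Real.norm_of_nonneg hs0.le]; exact hs2)).summable
    have h2 := h1.tendsto_atTop_zero
    have h3 : ∃ M, ∀ n, ‖a n * (s : ℂ) ^ n‖ ≤ M := by
      obtain ⟨M, hM⟩ := (h2.norm).bddAbove_range
      exact ⟨M, fun n => hM ⟨n, rfl⟩⟩
    obtain ⟨M, hM⟩ := h3
    apply Summable.of_nonneg_of_le (fun n => by positivity) (fun n => ?_)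
      ((summable_geometric_of_lt_one (r := r / s) (by positivity)
        ((div_lt_one hs0).2 hs1)).mul_left M)
    have h4 := hM n
    rw [norm_mul, norm_pow, Complex.norm_real, Real.norm_of_nonneg hs0.le] at h4
    calc ‖a n‖ * r ^ n = (‖a n‖ * s ^ n) * (r / s) ^ n := by
          rw [div_pow]; field_simp
      _ ≤ M * (r / s) ^ n := by gcongr
  have hball : ∀ r : ℝ, 0 ≤ r → r < 1 → ∀ t : ℝ, (r : ℂ) * ee t ∈ ball (0 : ℂ) 1 := by
    intro r hr hr1 t
    rw [mem_ball_zero_iff, norm_r_ee hr]; exact hr1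
  have h1 := summable_of_circle_bound (a := a) (K := K) (fun r hr hr1 => ⟨hnorm r hr hr1, by
    have e1 : (fun t : ℝ => ‖∑' n, a n * (r * ee t) ^ n‖ ^ 2) = fun t => ‖F (r * ee t)‖ ^ 2 := by
      ext t
      rw [(hsum _ (hball r hr hr1 t)).tsum_eq]
    rw [e1]
    exact hK r hr hr1⟩)
  refine ⟨H2.mk a h1.1, fun z hz => ?_, ?_⟩
  · unfold ev
    simp only [H2.mk_apply]
    exact (hsum z hz).tsum_eq
  · rw [H2.norm_sq]
    simp only [H2.mk_apply]
    exact h1.2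

end Pool.Agent.CompToeplitz
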