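import Pool.Agent.CompToeplitz.Fatou

/-!
# Radial boundary values of a self-map of the disc and the norm formula
-/

open Complex MeasureTheory Metric Set Real Filter Topology
open scoped ENNReal ComplexConjugate

namespace Pool.Agent.CompToeplitz

lemma ee_injOn : Set.InjOn ee (Set.Ioc 0 1) := by
  intro s hs t ht h
  have h1 := (Complex.exp_eq_exp_iff_exists_int.1 h)
  obtain ⟨n, hn⟩ := h1
  have h2 : (s : ℂ) = t + n := by
    have hpi : (2 * (π : ℂ) * Complex.I) ≠ 0 := Complex.two_pi_I_ne_zero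
    have h3 : (2 * (π : ℂ) * Complex.I) * s = (2 * (π : ℂ) * Complex.I) * (t + n) := by
      calc (2 * (π : ℂ) * Complex.I) * s = 2 * π * s * Complex.I := by ring
        _ = 2 * π * t * Complex.I + n * (2 * π * Complex.I) := hn
        _ = _ := by ring
    exact mul_left_cancel₀ hpi h3
  have h3 : s = t + n := by exact_mod_cast h2
  have h4 : (n : ℝ) < 1 := by linarith [hs.2, ht.1]
  have h5 : (-1 : ℝ) < n := by linarith [hs.1, ht.2]
  have h6 : n < 1 := by exact_mod_cast h4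
  have h7 : -1 < n := by exact_mod_cast h5
  have h8 : n = 0 := by omega
  rw [h3, h8]; simp

/-- `m(s)` is the length of `{t ∈ (0,1] : e^{2πit} ∈ s}`, for every set `s`. -/
lemma circleMeasure_apply (s : Set ℂ) :
    circleMeasure s = volume (Set.Ioc (0 : ℝ) 1 ∩ ee ⁻¹' s) := by
  have hdef : circleMeasure = Measure.map ee (volume.restrict (Set.Ioc 0 1)) := rfl
  rw [hdef]
  apply le_antisymm
  · set M : Set ℝ := Set.Ioc 0 1 ∩ toMeasurable volume (Set.Ioc (0 : ℝ) 1 ∩ ee ⁻¹' s) with hM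
    have hMm : MeasurableSet M := measurableSet_Ioc.inter (measurableSet_toMeasurable _ _)
    have hMsub : Set.Ioc (0 : ℝ) 1 ∩ ee ⁻¹' s ⊆ M := fun t ht =>
      ⟨ht.1, subset_toMeasurable _ _ ht⟩
    have hMinj : Set.InjOn ee M := ee_injOn.mono Set.inter_subset_left
    have him : MeasurableSet (ee '' M) := hMm.image_of_measurable_injOn measurable_ee hMinj
    have hsub : s ⊆ ee '' M ∪ (ee '' (Set.Ioc 0 1))ᶜ := by
      intro ζ hζ
      by_cases h : ζ ∈ ee '' (Set.Ioc 0 1)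
      · left
        obtain ⟨t, ht, rfl⟩ := h
        exact ⟨t, hMsub ⟨ht, hζ⟩, rfl⟩
      · right; exact h
    have hIm : MeasurableSet (ee '' (Set.Ioc 0 1)) :=
      measurableSet_Ioc.image_of_measurable_injOn measurable_ee ee_injOn
    calc Measure.map ee (volume.restrict (Set.Ioc 0 1)) s
        ≤ Measure.map ee (volume.restrict (Set.Ioc 0 1)) (ee '' M ∪ (ee '' (Set.Ioc 0 1))ᶜ) :=
          measure_mono hsub
      _ = volume (ee ⁻¹' (ee '' M ∪ (ee '' (Set.Ioc 0 1))ᶜ) ∩ Set.Ioc 0 1) := by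
          rw [Measure.map_apply measurable_ee (him.union hIm.compl),
            Measure.restrict_apply (measurable_ee (him.union hIm.compl))]
      _ ≤ volume M := by
          apply measure_mono
          rintro t ⟨ht1, ht2⟩
          rcases ht1 with ht1 | ht1
          · obtain ⟨u, hu, hut⟩ := ht1
            have := ee_injOn (Set.inter_subset_left hu) ht2 hut
            rwa [← this]
          · exact absurd ⟨t, ht2, rfl⟩ ht1
      _ ≤ volume (toMeasurable volume (Set.Ioc (0 : ℝ) 1 ∩ ee ⁻¹' s)) :=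
          measure_mono Set.inter_subset_right
      _ = _ := measure_toMeasurable _
  · have h1 := Measure.le_map_apply (μ := volume.restrict (Set.Ioc (0 : ℝ) 1))
      measurable_ee.aemeasurable s
    refine le_trans (le_of_eq ?_) h1
    rw [Measure.restrict_apply' measurableSet_Ioc, Set.inter_comm]

/-- The boundary function in the angular variable. -/
noncomputable def bdry (φ : ℂ → ℂ) (t : ℝ) : ℂ := radialLimit φ (ee t)

lemma eventually_r : ∀ᶠ r : ℝ in 𝓝[<] 1, 0 ≤ r ∧ r < 1 := by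
  have h1 : ∀ᶠ r : ℝ in 𝓝[<] 1, 0 ≤ r := by
    have : ∀ᶠ r : ℝ in 𝓝 1, 0 ≤ r := by
      filter_upwards [lt_mem_nhds (zero_lt_one : (0 : ℝ) < 1)] with r hr using hr.le
    exact this.filter_mono nhdsWithin_le_nhds
  filter_upwards [h1, self_mem_nhdsWithin] with r hr hr1 using ⟨hr, hr1⟩

variable {φ : ℂ → ℂ}

lemma ae_tendsto_bdry (hφ : DifferentiableOn ℂ φ (ball 0 1))
    (hmap : MapsTo φ (ball 0 1) (ball 0 1)) :
    ∀ᵐ t : ℝ, Tendsto (fun r : ℝ => φ (r * ee t)) (𝓝[<] 1) (𝓝 (bdry φ t)) := by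
  have hmem : ∀ r : ℝ, 0 ≤ r → r < 1 → ∀ t : ℝ, (r : ℂ) * ee t ∈ ball (0 : ℂ) 1 := by
    intro r hr hr1 t
    rw [mem_ball_zero_iff, norm_r_ee hr]; exact hr1
  obtain ⟨c, hc, -⟩ := exists_H2_of_bound (K := 1) hφ (by
    intro r hr hr1
    have hcont : Continuous (fun t : ℝ => φ (r * ee t)) :=
      hφ.continuousOn.comp_continuous (continuous_const.mul continuous_ee) (hmem r hr hr1)
    have h1 : ∫ t in (0 : ℝ)..1, ‖φ (r * ee t)‖ ^ 2 ≤ ∫ t in (0 : ℝ)..1, (1 : ℝ) := by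
      apply intervalIntegral.integral_mono_on zero_le_one
      · exact (hcont.norm.pow 2).intervalIntegrable _ _
      · exact intervalIntegrable_const
      · intro t _
        have := hmap (hmem r hr hr1 t)
        rw [mem_ball_zero_iff] at this
        exact pow_le_one₀ (norm_nonneg _) this.le
    simpa using h1)
  obtain ⟨g, hg⟩ := fatou c
  filter_upwards [hg] with t ht
  have h1 : Tendsto (fun r : ℝ => φ (r * ee t)) (𝓝[<] 1) (𝓝 (g t)) := by
    apply ht.congr'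
    filter_upwards [eventually_r] with r hr
    exact hc _ (hmem r hr.1 hr.2 t)
  have h2 : bdry φ t = g t := h1.limUnder_eq
  rw [h2]
  exact h1

lemma ae_norm_bdry_le_one (hφ : DifferentiableOn ℂ φ (ball 0 1))
    (hmap : MapsTo φ (ball 0 1) (ball 0 1)) : ∀ᵐ t : ℝ, ‖bdry φ t‖ ≤ 1 := by
  filter_upwards [ae_tendsto_bdry hφ hmap] with t ht
  apply le_of_tendsto ht.norm
  filter_upwards [eventually_r] with r hr
  have := hmap (show (r : ℂ) * ee t ∈ ball (0 : ℂ) 1 by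
    rw [mem_ball_zero_iff, norm_r_ee hr.1]; exact hr.2)
  rw [mem_ball_zero_iff] at this
  exact this.le

lemma radius_seq (n : ℕ) : 0 ≤ 1 - 1 / ((n : ℝ) + 1) ∧ 1 - 1 / ((n : ℝ) + 1) < 1 := by
  have h0 : (0 : ℝ) < (n : ℝ) + 1 := by positivity
  have h1 : 1 / ((n : ℝ) + 1) ≤ 1 := by
    rw [div_le_one h0]
    linarith [(Nat.cast_nonneg n : (0 : ℝ) ≤ n)]
  have h2 : 0 < 1 / ((n : ℝ) + 1) := by positivity
  exact ⟨by linarith, by linarith⟩

lemma tendsto_radius_seq : Tendsto (fun n : ℕ => 1 - 1 / ((n : ℝ) + 1)) atTop (𝓝[<] 1) := by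
  rw [tendsto_nhdsWithin_iff]
  refine ⟨?_, Filter.Eventually.of_forall (fun n => (radius_seq n).2)⟩
  have h2 : Tendsto (fun n : ℕ => (1 - 1 / ((n : ℝ) + 1) : ℝ)) atTop (𝓝 (1 - 0)) :=
    tendsto_const_nhds.sub tendsto_one_div_add_atTop_nhds_zero_nat
  rwa [sub_zero] at h2

lemma aemeasurable_bdry (hφ : DifferentiableOn ℂ φ (ball 0 1))
    (hmap : MapsTo φ (ball 0 1) (ball 0 1)) : AEMeasurable (bdry φ) volume := by
  apply aemeasurable_of_tendsto_metrizable_ae (f := fun (n : ℕ) (t : ℝ) =>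
    φ ((1 - 1 / ((n : ℝ) + 1) : ℝ) * ee t)) atTop
  · intro n
    apply Continuous.aemeasurable
    apply hφ.continuousOn.comp_continuous (continuous_const.mul continuous_ee)
    intro t
    change ((1 - 1 / ((n : ℝ) + 1) : ℝ) : ℂ) * ee t ∈ ball (0 : ℂ) 1
    rw [mem_ball_zero_iff, norm_r_ee (radius_seq n).1]; exact (radius_seq n).2
  · filter_upwards [ae_tendsto_bdry hφ hmap] with t ht
    exact ht.comp tendsto_radius_seq

/-- A function of `H²` with absolutely summable coefficients is continuous on the closed disc. -/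
lemma diffContOnCl_ev {f : H2} (hf : Summable (fun n => ‖f n‖)) :
    DiffContOnCl ℂ (ev f) (ball 0 1) := by
  refine ⟨differentiableOn_ev f, ?_⟩
  rw [closure_ball (0 : ℂ) one_ne_zero]
  apply continuousOn_tsum (u := fun n => ‖f n‖)
  · intro n
    fun_prop
  · exact hf
  · intro n z hz
    rw [mem_closedBall_zero_iff] at hz
    rw [norm_mul, norm_pow]
    have : ‖z‖ ^ n ≤ 1 := pow_le_one₀ (norm_nonneg _) hz
    nlinarith [norm_nonneg (f n)]

lemma norm_ev_le_of_summable {f : H2} (hf : Summable (fun n => ‖f n‖)) {z : ℂ} (hz : ‖z‖ ≤ 1) :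
    ‖ev f z‖ ≤ ∑' n, ‖f n‖ := by
  have hle : ∀ n, ‖f n * z ^ n‖ ≤ ‖f n‖ := by
    intro n
    rw [norm_mul, norm_pow]
    have : ‖z‖ ^ n ≤ 1 := pow_le_one₀ (norm_nonneg _) hz
    nlinarith [norm_nonneg (f n)]
  have hs : Summable (fun n => ‖f n * z ^ n‖) :=
    Summable.of_nonneg_of_le (fun _ => norm_nonneg _) hle hf
  exact (norm_tsum_le_tsum_norm hs).trans (hs.tsum_le_tsum hle hf)

lemma circle_eq_of_summable {f : H2} (hf : Summable (fun n => ‖f n‖)) :
    ∫ t in (0 : ℝ)..1, ‖ev f (ee t)‖ ^ 2 = ‖f‖ ^ 2 := by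
  rw [H2.norm_sq]
  exact (parseval_abs hf).tsum_eq.symm

/-- Circular means of squares converge to the norm squared. -/
lemma tendsto_circle (f : H2) :
    Tendsto (fun r : ℝ => ∫ t in (0 : ℝ)..1, ‖ev f (r * ee t)‖ ^ 2) (𝓝[<] 1) (𝓝 (‖f‖ ^ 2)) := by
  have h1 : ∀ᶠ r : ℝ in 𝓝[<] 1, ∫ t in (0 : ℝ)..1, ‖ev f (r * ee t)‖ ^ 2
      = ∑' n, ‖f n‖ ^ 2 * (r ^ n) ^ 2 := by
    filter_upwards [eventually_r] with r hr
    exact (hasSum_circle f hr.1 hr.2).tsum_eq.symm
  rw [tendsto_congr' h1, H2.norm_sq]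
  apply tendsto_tsum_of_dominated_convergence (bound := fun n => ‖f n‖ ^ 2) (H2.summable f)
  · intro n
    have hc : Continuous (fun r : ℝ => ‖f n‖ ^ 2 * (r ^ n) ^ 2) := by fun_prop
    have := hc.tendsto 1
    simp only [one_pow, mul_one] at this
    exact this.mono_left nhdsWithin_le_nhds
  · filter_upwards [eventually_r] with r hr n
    rw [Real.norm_of_nonneg (by positivity)]
    have h1 : (r ^ n) ^ 2 ≤ 1 := by
      rw [← pow_mul]
      exact pow_le_one₀ hr.1 hr.2.le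
    nlinarith [sq_nonneg ‖f n‖]

/-- The norm formula. -/
lemma norm_comp_sq (hφ : DifferentiableOn ℂ φ (ball 0 1))
    (hmap : MapsTo φ (ball 0 1) (ball 0 1)) {C : OpH2} (hC : IsCompOp φ C)
    {f : H2} (hf : Summable (fun n => ‖f n‖)) (n : ℕ) :
    ‖C ((Mz ^ n) f)‖ ^ 2 = ∫ t in (0 : ℝ)..1, ‖bdry φ t‖ ^ (2 * n) * ‖ev f (bdry φ t)‖ ^ 2 := by
  have h1 := (tendsto_circle (C ((Mz ^ n) f))).comp tendsto_radius_seq
  refine tendsto_nhds_unique h1 ?_
  have hmem : ∀ (k : ℕ) (t : ℝ), (((1 - 1 / ((k : ℝ) + 1) : ℝ) : ℂ)) * ee t ∈ ball (0 : ℂ) 1 := by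
    intro k t
    rw [mem_ball_zero_iff, norm_r_ee (radius_seq k).1]; exact (radius_seq k).2
  have hφm : ∀ (k : ℕ) (t : ℝ), ‖φ ((((1 - 1 / ((k : ℝ) + 1) : ℝ) : ℂ)) * ee t)‖ < 1 := by
    intro k t
    have := hmap (hmem k t)
    rwa [mem_ball_zero_iff] at this
  have hev : ∀ (k : ℕ) (t : ℝ),
      ‖ev (C ((Mz ^ n) f)) ((((1 - 1 / ((k : ℝ) + 1) : ℝ) : ℂ)) * ee t)‖ ^ 2
        = ‖φ ((((1 - 1 / ((k : ℝ) + 1) : ℝ) : ℂ)) * ee t)‖ ^ (2 * n)
          * ‖ev f (φ ((((1 - 1 / ((k : ℝ) + 1) : ℝ) : ℂ)) * ee t))‖ ^ 2 := by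
    intro k t
    rw [hC _ _ (hmem k t), ev_Mz_pow _ (hφm k t), norm_mul, mul_pow, norm_pow, ← pow_mul,
      mul_comm n 2]
  change Tendsto (fun k : ℕ => ∫ t in (0 : ℝ)..1,
    ‖ev (C ((Mz ^ n) f)) ((((1 - 1 / ((k : ℝ) + 1) : ℝ) : ℂ)) * ee t)‖ ^ 2) atTop _
  simp only [hev]
  have hcont : ContinuousOn (ev f) (closedBall 0 1) := by
    have := (diffContOnCl_ev hf).continuousOn
    rwa [closure_ball (0 : ℂ) one_ne_zero] at this
  apply intervalIntegral.tendsto_integral_filter_of_dominated_convergence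
    (fun _ => (∑' n, ‖f n‖) ^ 2)
  · refine Filter.Eventually.of_forall (fun k => Continuous.aestronglyMeasurable ?_)
    have hc1 : Continuous (fun t : ℝ => φ ((((1 - 1 / ((k : ℝ) + 1) : ℝ) : ℂ)) * ee t)) :=
      hφ.continuousOn.comp_continuous (continuous_const.mul continuous_ee) (hmem k)
    have hc2 : Continuous (fun t : ℝ => ev f (φ ((((1 - 1 / ((k : ℝ) + 1) : ℝ) : ℂ)) * ee t))) := by
      apply hcont.comp_continuous hc1
      intro t
      rw [mem_closedBall_zero_iff]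
      exact (hφm k t).le
    exact (hc1.norm.pow _).mul (hc2.norm.pow _)
  · refine Filter.Eventually.of_forall (fun k => Filter.Eventually.of_forall (fun t _ => ?_))
    rw [Real.norm_of_nonneg (by positivity)]
    have e1 := norm_ev_le_of_summable hf (hφm k t).le
    have e2 : ‖φ ((((1 - 1 / ((k : ℝ) + 1) : ℝ) : ℂ)) * ee t)‖ ^ (2 * n) ≤ 1 :=
      pow_le_one₀ (norm_nonneg _) (hφm k t).le
    calc ‖φ ((((1 - 1 / ((k : ℝ) + 1) : ℝ) : ℂ)) * ee t)‖ ^ (2 * n)
          * ‖ev f (φ ((((1 - 1 / ((k : ℝ) + 1) : ℝ) : ℂ)) * ee t))‖ ^ 2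
        ≤ 1 * (∑' n, ‖f n‖) ^ 2 := by gcongr
      _ = _ := one_mul _
  · exact intervalIntegrable_const
  · filter_upwards [ae_tendsto_bdry hφ hmap, ae_norm_bdry_le_one hφ hmap] with t ht hle _
    have h2 := ht.comp tendsto_radius_seq
    have h3 : Tendsto (fun k : ℕ => ev f (φ ((((1 - 1 / ((k : ℝ) + 1) : ℝ) : ℂ)) * ee t))) atTop
        (𝓝 (ev f (bdry φ t))) := by
      have h4 : ContinuousWithinAt (ev f) (closedBall 0 1) (bdry φ t) :=
        hcont _ (by rwa [mem_closedBall_zero_iff])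
      apply h4.tendsto.comp
      rw [tendsto_nhdsWithin_iff]
      refine ⟨h2, Filter.Eventually.of_forall (fun k => ?_)⟩
      rw [mem_closedBall_zero_iff]
      exact (hφm k t).le
    exact (h2.norm.pow _).mul (h3.norm.pow _)

end Pool.Agent.CompToeplitz
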