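import Pool.Agent.CompToeplitz.Embedding2

/-!
# Smallness of a measure on small Carleson boxes gives smallness near the circle
-/

open Complex MeasureTheory Metric Set Real Filter Topology

namespace Pool.Agent.CompToeplitz

lemma ee_add (s t : ℝ) : ee (s + t) = ee s * ee t := by
  unfold ee
  rw [← Complex.exp_add]
  congr 1
  push_cast
  ring

lemma norm_ee_sub_one_ge {t : ℝ} (ht : |t| ≤ 1 / 2) : 4 * |t| ≤ ‖ee t - 1‖ := by
  have h1 := normSq_ee_sub 1 t 0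
  have he : ee 0 = 1 := by unfold ee; simp
  simp only [Complex.ofReal_one, sub_self, mul_one, he, sub_zero] at h1
  have h2 : 2 * |t| ≤ Real.sin (π * |t|) := by
    have h2 := Real.mul_le_sin (x := π * |t|) (by positivity) (by nlinarith [Real.pi_pos])
    have h3 : 2 / π * (π * |t|) = 2 * |t| := by
      field_simp
    rwa [h3] at h2
  have h4 : Real.sin (π * |t|) ^ 2 = Real.sin (π * t) ^ 2 := by
    rcases abs_choice t with h | h
    · rw [h]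
    · rw [h, mul_neg, Real.sin_neg, neg_sq]
  have h5 : (2 * |t|) ^ 2 ≤ Real.sin (π * t) ^ 2 := by
    rw [← h4]
    gcongr
  have h6 : (4 * |t|) ^ 2 ≤ ‖ee t - 1‖ ^ 2 := by
    rw [h1]
    nlinarith
  exact (sq_le_sq₀ (by positivity) (norm_nonneg _)).1 h6

lemma box_cover {ξ w : ℂ} (hξ : ‖ξ‖ = 1) {δ h : ℝ} (hδ : 0 < δ) (hδh : δ ≤ h) (hδ1 : δ ≤ 1)
    (hw1 : ‖w‖ < 1) (hwδ : 1 - δ / 4 < ‖w‖) (hwξ : ‖w - ξ‖ < h) :
    ∃ k : ℤ, k ∈ Finset.Icc (-⌊8 * h / δ + 1 / 2⌋) ⌊8 * h / δ + 1 / 2⌋ ∧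
      ‖w - ξ * ee (k * (δ / 16))‖ < δ / 2 := by
  have hw0 : 0 < ‖w‖ := by linarith
  have hwne : w ≠ 0 := norm_pos_iff.1 hw0
  have hξ0 : ξ ≠ 0 := by
    rw [← norm_pos_iff, hξ]; exact one_pos
  set t0 : ℝ := ang (w / ξ) with ht0
  have hnorm : ‖w / ξ‖ = ‖w‖ := by rw [norm_div, hξ, div_one]
  have hpolar : (‖w‖ : ℂ) * ee t0 * ξ = w := by
    have h1 := polar_ang (w / ξ)
    rw [hnorm] at h1
    rw [ht0, h1, div_mul_cancel₀ _ hξ0]
  have habs : |t0| ≤ 1 / 2 := by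
    have := ang_mem (w / ξ)
    rw [abs_le]
    exact ⟨by linarith [this.1], this.2⟩
  have hdist : ‖w - ξ * ee t0‖ = 1 - ‖w‖ := by
    have h1 : w - ξ * ee t0 = ((‖w‖ - 1 : ℝ) : ℂ) * (ξ * ee t0) := by
      conv_lhs => rw [← hpolar]
      push_cast
      ring
    rw [h1, norm_mul, norm_mul, norm_ee, hξ, mul_one, mul_one, Complex.norm_real,
      Real.norm_eq_abs, abs_of_neg (by linarith)]
    ring
  have h2 : ‖ee t0 - 1‖ < 2 * h := by
    have h3 : ‖ee t0 - 1‖ = ‖ξ * ee t0 - ξ‖ := by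
      rw [show ξ * ee t0 - ξ = ξ * (ee t0 - 1) by ring, norm_mul, hξ, one_mul]
    rw [h3]
    calc ‖ξ * ee t0 - ξ‖ = ‖(w - ξ) - (w - ξ * ee t0)‖ := by congr 1; ring
      _ ≤ ‖w - ξ‖ + ‖w - ξ * ee t0‖ := norm_sub_le _ _
      _ < 2 * h := by rw [hdist]; linarith
  have h3 : |t0| ≤ h / 2 := by
    have := norm_ee_sub_one_ge habs
    linarith
  set k : ℤ := round (t0 / (δ / 16)) with hk
  have h4 : |t0 / (δ / 16) - k| ≤ 1 / 2 := abs_sub_round _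
  have h5 : |t0 - k * (δ / 16)| ≤ δ / 32 := by
    have e : t0 - k * (δ / 16) = (t0 / (δ / 16) - k) * (δ / 16) := by
      rw [sub_mul, div_mul_cancel₀ _ (by positivity)]
    rw [e, abs_mul, abs_of_pos (by positivity : 0 < δ / 16)]
    nlinarith
  have h6 : |(k : ℝ)| ≤ 8 * h / δ + 1 / 2 := by
    have h7 : |(k : ℝ)| ≤ |t0 / (δ / 16)| + 1 / 2 := by
      have h8 : (k : ℝ) = t0 / (δ / 16) - (t0 / (δ / 16) - k) := by ring
      rw [h8]
      exact (abs_sub _ _).trans (by linarith)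
    have h9 : |t0 / (δ / 16)| ≤ 8 * h / δ := by
      rw [abs_div, abs_of_pos (by positivity : 0 < δ / 16), div_div_eq_mul_div]
      rw [div_le_div_iff_of_pos_right hδ]
      linarith
    linarith
  refine ⟨k, ?_, ?_⟩
  · rw [Finset.mem_Icc]
    rw [abs_le] at h6
    constructor
    · have : -k ≤ ⌊8 * h / δ + 1 / 2⌋ := by
        rw [Int.le_floor]
        push_cast
        linarith [h6.1]
      linarith
    · rw [Int.le_floor]
      exact h6.2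
  · have h7 := norm_ee_sub_le t0 (k * (δ / 16))
    have hpi := Real.pi_lt_four
    have hpi0 := Real.pi_pos
    calc ‖w - ξ * ee (k * (δ / 16))‖
        = ‖(w - ξ * ee t0) + ξ * (ee t0 - ee (k * (δ / 16)))‖ := by congr 1; ring
      _ ≤ ‖w - ξ * ee t0‖ + ‖ξ * (ee t0 - ee (k * (δ / 16)))‖ := norm_add_le _ _
      _ = (1 - ‖w‖) + ‖ee t0 - ee (k * (δ / 16))‖ := by rw [hdist, norm_mul, hξ, one_mul]
      _ < δ / 4 + δ / 4 := by
          have h8 : 2 * π * |t0 - k * (δ / 16)| ≤ 2 * π * (δ / 32) := by gcongr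
          have h9 : 2 * π * (δ / 32) ≤ δ / 4 := by nlinarith
          linarith
      _ = δ / 2 := by ring

/-- From small boxes to all boxes, near the circle. -/
lemma box_all_scales {μ : Measure ℂ} [IsFiniteMeasure μ] {ε δ : ℝ} (hε : 0 < ε) (hδ : 0 < δ)
    (hδ1 : δ ≤ 1)
    (hsmall : ∀ h : ℝ, 0 < h → h < δ → ∀ ξ : ℂ, ‖ξ‖ = 1 →
      μ.real {w | ‖w‖ < 1 ∧ ‖w - ξ‖ < h} ≤ ε * h) (ξ : ℂ) (hξ : ‖ξ‖ = 1) (h : ℝ) (hh : 0 < h) :
    (μ.restrict {w | 1 - δ / 4 < ‖w‖}).real {w | ‖w‖ < 1 ∧ ‖w - ξ‖ < h} ≤ 9 * ε * h := by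
  rcases lt_or_ge h δ with hlt | hge
  · calc (μ.restrict {w | 1 - δ / 4 < ‖w‖}).real {w | ‖w‖ < 1 ∧ ‖w - ξ‖ < h}
        ≤ μ.real {w | ‖w‖ < 1 ∧ ‖w - ξ‖ < h} := by
          apply ENNReal.toReal_mono (measure_ne_top _ _)
          exact Measure.restrict_apply_le _ _
      _ ≤ ε * h := hsmall h hh hlt ξ hξ
      _ ≤ 9 * ε * h := by nlinarith [mul_pos hε hh]
  · set K : ℤ := ⌊8 * h / δ + 1 / 2⌋ with hK
    have hKle : (K : ℝ) ≤ 8 * h / δ + 1 / 2 := Int.floor_le _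
    have hK0 : 0 ≤ K := by
      rw [hK]
      apply Int.floor_nonneg.2
      positivity
    have hmeas : MeasurableSet {w : ℂ | 1 - δ / 4 < ‖w‖} :=
      measurableSet_lt measurable_const measurable_norm
    have hsub : {w : ℂ | ‖w‖ < 1 ∧ ‖w - ξ‖ < h} ∩ {w | 1 - δ / 4 < ‖w‖} ⊆
        ⋃ k ∈ Finset.Icc (-K) K, {w : ℂ | ‖w‖ < 1 ∧ ‖w - ξ * ee (k * (δ / 16))‖ < δ / 2} := by
      rintro w ⟨⟨hw1, hw2⟩, hw3⟩
      obtain ⟨k, hk1, hk2⟩ := box_cover hξ hδ hge hδ1 hw1 hw3 hw2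
      simp only [Set.mem_iUnion]
      exact ⟨k, hk1, hw1, hk2⟩
    calc (μ.restrict {w | 1 - δ / 4 < ‖w‖}).real {w | ‖w‖ < 1 ∧ ‖w - ξ‖ < h}
        = μ.real ({w | ‖w‖ < 1 ∧ ‖w - ξ‖ < h} ∩ {w | 1 - δ / 4 < ‖w‖}) := by
          rw [measureReal_def, measureReal_def, Measure.restrict_apply' hmeas]
      _ ≤ μ.real (⋃ k ∈ Finset.Icc (-K) K,
            {w : ℂ | ‖w‖ < 1 ∧ ‖w - ξ * ee (k * (δ / 16))‖ < δ / 2}) :=
          measureReal_mono hsub (measure_ne_top _ _)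
      _ ≤ ∑ k ∈ Finset.Icc (-K) K,
            μ.real {w : ℂ | ‖w‖ < 1 ∧ ‖w - ξ * ee (k * (δ / 16))‖ < δ / 2} :=
          measureReal_biUnion_finset_le _ _
      _ ≤ ∑ k ∈ Finset.Icc (-K) K, ε * (δ / 2) := by
          apply Finset.sum_le_sum
          intro k _
          apply hsmall (δ / 2) (by positivity) (by linarith)
          rw [norm_mul, norm_ee, hξ, mul_one]
      _ = (2 * K + 1) * (ε * (δ / 2)) := by
          rw [Finset.sum_const, Int.card_Icc, nsmul_eq_mul]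
          congr 1
          have h1 : ((K + 1 - -K).toNat : ℤ) = 2 * K + 1 := by
            rw [Int.toNat_of_nonneg (by linarith)]; ring
          have h2 : (((K + 1 - -K).toNat : ℤ) : ℝ) = ((2 * K + 1 : ℤ) : ℝ) := by rw [h1]
          push_cast at h2
          exact h2
      _ ≤ (2 * (8 * h / δ + 1 / 2) + 1) * (ε * (δ / 2)) := by gcongr
      _ = 8 * ε * h + ε * δ := by field_simp; ring
      _ ≤ 9 * ε * h := by nlinarith

end Pool.Agent.CompToeplitz
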