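import Mathlib

/-!
# Hardy space `H²`, the operator `M_z`, composition operators, asymptotic Toeplitzness
-/

open Complex MeasureTheory Metric Set Real Filter Topology
open scoped ENNReal

namespace Pool.Agent.CompToeplitz

/-- The Hardy space `H²` of the unit disc: a function `f(z) = ∑ aₙ zⁿ` of `H²` is represented by its
square-summable sequence of Taylor coefficients, and the norm is the `ℓ²` norm. -/
abbrev H2 : Type := lp (fun _ : ℕ => ℂ) 2

/-- The value at `z` of the function of `H²` with Taylor coefficients `f`. -/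
noncomputable def ev (f : H2) (z : ℂ) : ℂ := ∑' n : ℕ, f n * z ^ n

lemma H2.summable (f : H2) : Summable (fun n => ‖f n‖ ^ 2) := by
  have h := lp.memℓp f
  have h2 := (memℓp_gen_iff (p := 2) (by norm_num)).1 h
  simpa using h2

lemma H2.norm_sq (f : H2) : ‖f‖ ^ 2 = ∑' n, ‖f n‖ ^ 2 := by
  have h := lp.norm_rpow_eq_tsum (p := 2) (by norm_num) f
  simpa using h

/-- Build an element of `H²` from square-summable coefficients. -/
noncomputable def H2.mk (a : ℕ → ℂ) (h : Summable (fun n => ‖a n‖ ^ 2)) : H2 :=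
  ⟨a, memℓp_gen (by simpa using h)⟩

@[simp] lemma H2.mk_apply (a : ℕ → ℂ) (h : Summable (fun n => ‖a n‖ ^ 2)) (n : ℕ) :
    H2.mk a h n = a n := rfl

/-- The coefficients of `z f(z)`. -/
def shiftSeq (a : ℕ → ℂ) : ℕ → ℂ
  | 0 => 0
  | n + 1 => a n

lemma shiftSeq_summable {a : ℕ → ℂ} (h : Summable (fun n => ‖a n‖ ^ 2)) :
    Summable (fun n => ‖shiftSeq a n‖ ^ 2) := by
  rw [← summable_nat_add_iff 1]
  exact h

lemma shiftSeq_tsum (f : H2) : ∑' n, ‖shiftSeq f n‖ ^ 2 = ‖f‖ ^ 2 := by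
  rw [(shiftSeq_summable (H2.summable f)).tsum_eq_zero_add, H2.norm_sq]
  simp [shiftSeq]

/-- The shift as a function: `(a₀, a₁, …) ↦ (0, a₀, a₁, …)`. -/
noncomputable def shiftFun (f : H2) : H2 := H2.mk (shiftSeq f) (shiftSeq_summable (H2.summable f))

lemma shiftFun_add (f g : H2) : shiftFun (f + g) = shiftFun f + shiftFun g := by
  apply lp.ext
  funext n
  cases n <;> simp [shiftFun, shiftSeq]

lemma shiftFun_smul (c : ℂ) (f : H2) : shiftFun (c • f) = c • shiftFun f := by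
  apply lp.ext
  funext n
  cases n <;> simp [shiftFun, shiftSeq]

lemma norm_shiftFun_le (f : H2) : ‖shiftFun f‖ ≤ 1 * ‖f‖ := by
  rw [one_mul]
  apply le_of_eq
  rw [← sq_eq_sq₀ (norm_nonneg _) (norm_nonneg _), H2.norm_sq]
  exact shiftSeq_tsum f

/-- The shift as a linear map. -/
noncomputable def shiftLin : H2 →ₗ[ℂ] H2 where
  toFun := shiftFun
  map_add' := shiftFun_add
  map_smul' := shiftFun_smul

/-- Bounded operators on `H²`. -/
abbrev OpH2 : Type := H2 →L[ℂ] H2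

/-- Multiplication by `z` on `H²`, i.e. the unilateral shift `(a₀, a₁, …) ↦ (0, a₀, a₁, …)`. -/
noncomputable def Mz : OpH2 := shiftLin.mkContinuous 1 norm_shiftFun_le

/-- `C` is the composition operator `f ↦ f ∘ φ` on `H²`. -/
def IsCompOp (φ : ℂ → ℂ) (C : OpH2) : Prop :=
  ∀ f : H2, ∀ z ∈ ball (0 : ℂ) 1, ev (C f) z = ev f (φ z)

/-- The operator `C* C` (`star` is the Hilbert space adjoint). -/
noncomputable def gram (C : OpH2) : OpH2 := star C * C

/-- The operator `M_z*ⁿ T M_zⁿ` (`star` is the Hilbert space adjoint). -/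
noncomputable def compress (T : OpH2) (n : ℕ) : OpH2 := star Mz ^ n * T * Mz ^ n

/-- `T` is uniformly asymptotically Toeplitz: `M_z*ⁿ T M_zⁿ` converges in operator norm. -/
def IsUAT (T : OpH2) : Prop :=
  ∃ L : OpH2, Tendsto (compress T) atTop (𝓝 L)

/-- Normalised Lebesgue measure `m` on the unit circle, as a measure on `ℂ`. -/
noncomputable def circleMeasure : Measure ℂ :=
  Measure.map (fun t : ℝ => Complex.exp (2 * π * t * Complex.I)) (volume.restrict (Set.Ioc 0 1))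

/-- The radial boundary function `ζ ↦ lim_{r → 1⁻} φ (r ζ)`. -/
noncomputable def radialLimit (φ : ℂ → ℂ) (ζ : ℂ) : ℂ :=
  limUnder (𝓝[<] (1 : ℝ)) (fun r : ℝ => φ (r * ζ))

/-- The part of `m φ⁻¹` carried by the *open* disc is a vanishing Carleson measure:
`m {ζ : |φ(ζ)| < 1, |φ(ζ) - ξ| < h} = o(h)` as `h → 0⁺`, uniformly in `ξ` on the unit circle. -/
def VanishingCarleson (φ : ℂ → ℂ) : Prop :=
  ∀ ε : ℝ, 0 < ε → ∃ δ : ℝ, 0 < δ ∧ ∀ h : ℝ, 0 < h → h < δ → ∀ ξ : ℂ, ‖ξ‖ = 1 →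
    circleMeasure {ζ | ‖radialLimit φ ζ‖ < 1 ∧ ‖radialLimit φ ζ - ξ‖ < h} ≤ ENNReal.ofReal (ε * h)

/-- Reproducing-kernel form of the condition: the integral of `(1 - |a|²) / |1 - ā φ(ζ)|²` over the
set `{ζ : |φ(ζ)| < 1}` tends to `0` as `|a| → 1⁻`, uniformly. -/
def VanishingKernel (φ : ℂ → ℂ) : Prop :=
  ∀ ε : ℝ, 0 < ε → ∃ r : ℝ, r < 1 ∧ ∀ a : ℂ, r < ‖a‖ → ‖a‖ < 1 →
    ∫⁻ ζ in {ζ | ‖radialLimit φ ζ‖ < 1},
      ENNReal.ofReal ((1 - ‖a‖ ^ 2) / ‖1 - starRingEnd ℂ a * radialLimit φ ζ‖ ^ 2) ∂circleMeasure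
      ≤ ENNReal.ofReal ε

end Pool.Agent.CompToeplitz
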