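import Pool.Agent.CompToeplitz.Push

/-!
# Norm convergence implies the vanishing Carleson condition
-/

open Complex MeasureTheory Metric Set Real Filter Topology
open scoped ENNReal ComplexConjugate

namespace Pool.Agent.CompToeplitz

/-- Reproducing kernel coefficients. -/
lemma kernel_summable {a : ℂ} (ha : ‖a‖ < 1) : Summable (fun n : ℕ => ‖(conj a) ^ n‖) := by
  simp only [norm_pow, RCLike.norm_conj]
  exact summable_geometric_of_lt_one (norm_nonneg _) ha

lemma kernel_sq_summable {a : ℂ} (ha : ‖a‖ < 1) :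
    Summable (fun n : ℕ => ‖(conj a) ^ n‖ ^ 2) := by
  have : (fun n : ℕ => ‖(conj a) ^ n‖ ^ 2) = fun n : ℕ => (‖a‖ ^ 2) ^ n := by
    ext n
    rw [norm_pow, RCLike.norm_conj, ← pow_mul, ← pow_mul, mul_comm]
  rw [this]
  apply summable_geometric_of_lt_one (by positivity)
  exact pow_lt_one₀ (norm_nonneg _) ha two_ne_zero

/-- The reproducing kernel. -/
noncomputable def kern (a : ℂ) (ha : ‖a‖ < 1) : H2 :=
  H2.mk (fun n => (conj a) ^ n) (kernel_sq_summable ha)

lemma kern_summable (a : ℂ) (ha : ‖a‖ < 1) : Summable (fun n => ‖kern a ha n‖) :=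
  kernel_summable ha

lemma kern_norm_sq (a : ℂ) (ha : ‖a‖ < 1) : ‖kern a ha‖ ^ 2 = (1 - ‖a‖ ^ 2)⁻¹ := by
  rw [H2.norm_sq]
  have : (fun n : ℕ => ‖kern a ha n‖ ^ 2) = fun n : ℕ => (‖a‖ ^ 2) ^ n := by
    ext n
    change ‖(conj a) ^ n‖ ^ 2 = _
    rw [norm_pow, RCLike.norm_conj, ← pow_mul, ← pow_mul, mul_comm]
  rw [this]
  apply tsum_geometric_of_lt_one (by positivity)
  exact pow_lt_one₀ (norm_nonneg _) ha two_ne_zero

lemma ev_kern (a : ℂ) (ha : ‖a‖ < 1) {w : ℂ} (hw : ‖w‖ ≤ 1) :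
    ev (kern a ha) w = (1 - conj a * w)⁻¹ := by
  unfold ev
  have : (fun n : ℕ => kern a ha n * w ^ n) = fun n : ℕ => (conj a * w) ^ n := by
    ext n
    change (conj a) ^ n * w ^ n = _
    rw [mul_pow]
  rw [this]
  apply tsum_geometric_of_norm_lt_one
  rw [norm_mul, RCLike.norm_conj]
  nlinarith [norm_nonneg a, norm_nonneg w]

variable {φ : ℂ → ℂ}

/-- From a uniform estimate of the differences to the estimate on the open disc. -/
lemma limit_form (hφ : DifferentiableOn ℂ φ (ball 0 1))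
    (hmap : MapsTo φ (ball 0 1) (ball 0 1)) {f : H2} (hf : Summable (fun n => ‖f n‖))
    {N : ℕ} {B : Set ℂ} (hB : MeasurableSet B) (hB1 : ∀ w ∈ B, ‖w‖ < 1) {c : ℝ}
    (h : ∀ m, N ≤ m → (∫ w, gf f N w ∂(nu φ)) - ∫ w, gf f m w ∂(nu φ) ≤ c) :
    ∫ w in B, gf f N w ∂(nu φ) ≤ c := by
  have h1 : ∀ m, N ≤ m → (∫ w in B, gf f N w ∂(nu φ)) - ∫ w in B, gf f m w ∂(nu φ) ≤ c := by
    intro m hm
    refine le_trans ?_ (h m hm)
    rw [← integral_sub (integrable_gf hφ hmap hf N) (integrable_gf hφ hmap hf m),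
      ← integral_sub (integrable_gf hφ hmap hf N).integrableOn
        (integrable_gf hφ hmap hf m).integrableOn]
    apply setIntegral_le_integral
      ((integrable_gf hφ hmap hf N).sub (integrable_gf hφ hmap hf m))
    filter_upwards [ae_nu_norm_le hφ hmap] with w hw
    rw [mem_closedBall_zero_iff] at hw
    change 0 ≤ gf f N w - gf f m w
    unfold gf
    have h2 : ‖w‖ ^ (2 * m) ≤ ‖w‖ ^ (2 * N) :=
      pow_le_pow_of_le_one (norm_nonneg _) hw (by omega)
    have h3 := mul_le_mul_of_nonneg_right h2 (sq_nonneg ‖ev f w‖)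
    linarith
  have h2 : Tendsto (fun m : ℕ => ∫ w in B, gf f m w ∂(nu φ)) atTop (𝓝 (∫ w in B, 0 ∂(nu φ))) := by
    apply tendsto_integral_of_dominated_convergence (fun _ => (∑' n, ‖f n‖) ^ 2)
    · intro m
      exact (integrable_gf hφ hmap hf m).integrableOn.aestronglyMeasurable
    · exact integrable_const _
    · intro m
      rw [ae_restrict_iff' hB]
      refine Filter.Eventually.of_forall (fun w hw => ?_)
      have hw1 := hB1 w hw
      rw [Real.norm_of_nonneg (gf_nonneg f m w)]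
      unfold gf
      have e1 := norm_ev_le_of_summable hf hw1.le
      have e2 : ‖w‖ ^ (2 * m) ≤ 1 := pow_le_one₀ (norm_nonneg _) hw1.le
      calc ‖w‖ ^ (2 * m) * ‖ev f w‖ ^ 2 ≤ 1 * (∑' n, ‖f n‖) ^ 2 := by gcongr
        _ = _ := one_mul _
    · rw [ae_restrict_iff' hB]
      refine Filter.Eventually.of_forall (fun w hw => ?_)
      have hw1 := hB1 w hw
      have e1 : Tendsto (fun m : ℕ => ‖w‖ ^ (2 * m) * ‖ev f w‖ ^ 2) atTop
          (𝓝 (0 * ‖ev f w‖ ^ 2)) := by
        apply Tendsto.mul_const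
        simp only [pow_mul]
        apply tendsto_pow_atTop_nhds_zero_of_lt_one (by positivity)
        exact pow_lt_one₀ (norm_nonneg _) hw1 two_ne_zero
      rwa [zero_mul] at e1
  rw [integral_zero] at h2
  have h3 : Tendsto (fun m : ℕ => (∫ w in B, gf f N w ∂(nu φ)) - ∫ w in B, gf f m w ∂(nu φ)) atTop
      (𝓝 ((∫ w in B, gf f N w ∂(nu φ)) - 0)) := tendsto_const_nhds.sub h2
  rw [sub_zero] at h3
  apply le_of_tendsto h3
  filter_upwards [eventually_ge_atTop N] with m hm using h1 m hm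

theorem vanishing_of_isUAT (hφ : DifferentiableOn ℂ φ (ball 0 1))
    (hmap : MapsTo φ (ball 0 1) (ball 0 1)) {C : OpH2} (hC : IsCompOp φ C)
    (hU : IsUAT (gram C)) : VanishingCarleson φ := by
  obtain ⟨L, hL⟩ := hU
  intro ε hε
  have hcau := hL.cauchySeq
  rw [Metric.cauchySeq_iff] at hcau
  obtain ⟨N, hN⟩ := hcau (ε / 8) (by positivity)
  have hdiff : ∀ f : H2, Summable (fun n => ‖f n‖) → ∀ m, N ≤ m →
      (∫ w, gf f N w ∂(nu φ)) - ∫ w, gf f m w ∂(nu φ) ≤ ε / 8 * ‖f‖ ^ 2 := by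
    intro f hf m hm
    rw [← norm_comp_sq_nu hφ hmap hC hf N, ← norm_comp_sq_nu hφ hmap hC hf m]
    have h1 := sub_le_norm (C * Mz ^ N) (C * Mz ^ m) f
    rw [← compress_eq, ← compress_eq] at h1
    have h2 := hN N le_rfl m hm
    rw [dist_eq_norm] at h2
    refine h1.trans ?_
    gcongr
  refine ⟨1 / (4 * (N + 1)), by positivity, fun h hh hhδ ξ hξ => ?_⟩
  have hN1 : (1 : ℝ) ≤ N + 1 := by linarith [(Nat.cast_nonneg N : (0 : ℝ) ≤ N)]
  have hh4 : h * (4 * (N + 1)) < 1 := by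
    rwa [lt_div_iff₀ (by positivity)] at hhδ
  have hh1 : h < 1 / 4 := by nlinarith
  have hpow : (1 / 2 : ℝ) ≤ (1 - h) ^ (2 * N) := by
    have h1 := one_add_mul_le_pow (a := -h) (by linarith) (2 * N)
    push_cast at h1
    have h2 : (1 : ℝ) + 2 * N * -h ≥ 1 / 2 := by nlinarith
    calc (1 / 2 : ℝ) ≤ 1 + 2 * N * -h := h2
      _ ≤ (1 + -h) ^ (2 * N) := h1
      _ = _ := by ring_nf
  rw [nu_box hφ hmap]
  set B : Set ℂ := {w | ‖w‖ < 1 ∧ ‖w - ξ‖ < h} with hB
  set a : ℂ := ((1 - h : ℝ) : ℂ) * ξ with ha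
  have hnorma : ‖a‖ = 1 - h := by
    rw [ha, norm_mul, hξ, mul_one, Complex.norm_real, Real.norm_of_nonneg (by linarith)]
  have ha1 : ‖a‖ < 1 := by rw [hnorma]; linarith
  have h1 := limit_form hφ hmap (kern_summable a ha1) (N := N) (measurableSet_box ξ h)
    (fun w hw => hw.1) (hdiff _ (kern_summable a ha1))
  have hk : ‖kern a ha1‖ ^ 2 ≤ 1 / h := by
    rw [kern_norm_sq, hnorma, one_div]
    apply inv_anti₀ hh
    nlinarith
  -- lower bound on the box
  have hlow : ∀ w ∈ B, 1 / (8 * h ^ 2) ≤ gf (kern a ha1) N w := by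
    rintro w ⟨hw1, hw2⟩
    have hwn : 1 - h ≤ ‖w‖ := by
      have := norm_sub_norm_le ξ w
      rw [hξ, norm_sub_rev] at this
      linarith
    have hden : ‖1 - conj a * w‖ ≤ 2 * h := by
      have e1 : 1 - conj a * w = conj ξ * (ξ - ((1 - h : ℝ) : ℂ) * w) := by
        have e2 : conj ξ * ξ = 1 := by
          rw [mul_comm, Complex.mul_conj, Complex.normSq_eq_norm_sq, hξ]; simp
        rw [ha, map_mul, Complex.conj_ofReal, mul_sub, e2]
        ring
      rw [e1, norm_mul, RCLike.norm_conj, hξ, one_mul]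
      calc ‖ξ - ((1 - h : ℝ) : ℂ) * w‖ = ‖-(w - ξ) + (h : ℂ) * w‖ := by
            congr 1
            push_cast
            ring
        _ ≤ ‖-(w - ξ)‖ + ‖(h : ℂ) * w‖ := norm_add_le _ _
        _ ≤ h + h * 1 := by
            rw [norm_neg, norm_mul, Complex.norm_real, Real.norm_of_nonneg hh.le]
            gcongr
        _ = 2 * h := by ring
    have hne : 0 < ‖1 - conj a * w‖ := by
      rw [norm_pos_iff]
      intro h0
      have h2 : ‖conj a * w‖ = 1 := by
        rw [sub_eq_zero] at h0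
        rw [← h0, norm_one]
      rw [norm_mul, RCLike.norm_conj] at h2
      nlinarith [norm_nonneg a, norm_nonneg w]
    unfold gf
    rw [ev_kern a ha1 hw1.le, norm_inv, inv_pow]
    have h3 : (1 / (4 * h ^ 2)) ≤ (‖1 - conj a * w‖ ^ 2)⁻¹ := by
      rw [one_div]
      apply inv_anti₀ (by positivity)
      nlinarith
    have h4 : (1 / 2 : ℝ) ≤ ‖w‖ ^ (2 * N) :=
      hpow.trans (pow_le_pow_left₀ (by linarith) hwn _)
    calc 1 / (8 * h ^ 2) = (1 / 2) * (1 / (4 * h ^ 2)) := by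
          rw [one_div_mul_one_div]; ring_nf
      _ ≤ ‖w‖ ^ (2 * N) * (‖1 - conj a * w‖ ^ 2)⁻¹ := by gcongr
  have h2 : 1 / (8 * h ^ 2) * (nu φ).real B ≤ ∫ w in B, gf (kern a ha1) N w ∂(nu φ) := by
    have h3 : ∫ w in B, (1 / (8 * h ^ 2) : ℝ) ∂(nu φ) ≤ ∫ w in B, gf (kern a ha1) N w ∂(nu φ) := by
      apply setIntegral_mono_on (integrable_const _).integrableOn
        (integrable_gf hφ hmap (kern_summable a ha1) N).integrableOn (measurableSet_box ξ h) hlow
    rw [setIntegral_const, smul_eq_mul, mul_comm] at h3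
    exact h3
  have h3 : (nu φ).real B ≤ ε * h := by
    have h4 : 1 / (8 * h ^ 2) * (nu φ).real B ≤ ε / 8 * (1 / h) := by
      refine h2.trans (h1.trans ?_)
      gcongr
    have h5 := mul_le_mul_of_nonneg_left h4 (by positivity : 0 ≤ 8 * h ^ 2)
    have e1 : 8 * h ^ 2 * (1 / (8 * h ^ 2) * (nu φ).real B) = (nu φ).real B := by
      field_simp
    have e2 : 8 * h ^ 2 * (ε / 8 * (1 / h)) = ε * h := by
      field_simp
    rwa [e1, e2] at h5
  rw [← ENNReal.ofReal_toReal (measure_ne_top (nu φ) B)]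
  exact ENNReal.ofReal_le_ofReal h3

end Pool.Agent.CompToeplitz
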