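import Pool.Agent.CompToeplitz.Push
import Pool.Agent.CompToeplitz.Boxes

/-!
# The vanishing Carleson condition implies norm convergence
-/

open Complex MeasureTheory Metric Set Real Filter Topology
open scoped ENNReal ComplexConjugate

namespace Pool.Agent.CompToeplitz

variable {φ : ℂ → ℂ}

/-- Elements with summable coefficients are dense; closed conditions can be checked on them. -/
lemma ge_of_summable {F : H2 → ℝ} (hF : Continuous F)
    (h : ∀ f : H2, Summable (fun n => ‖f n‖) → 0 ≤ F f) (f : H2) : 0 ≤ F f := by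
  have h1 : HasSum (fun i : ℕ => lp.single 2 i (f i)) f :=
    lp.hasSum_single (by norm_num) f
  have h2 := (hF.tendsto f).comp h1
  apply ge_of_tendsto' h2
  intro s
  apply h
  apply summable_of_ne_finset_zero (s := s)
  intro n hn
  rw [norm_eq_zero]
  have h3 : ((∑ i ∈ s, lp.single 2 i (f i) : H2) : ℕ → ℂ) n
      = ∑ i ∈ s, ((lp.single 2 i (f i) : H2) : ℕ → ℂ) n := by
    rw [lp.coeFn_sum, Finset.sum_apply]
  rw [h3]
  apply Finset.sum_eq_zero
  intro i hi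
  rw [lp.single_apply_ne]
  rintro rfl
  exact hn hi

/-- Main estimate on a dense class. -/
lemma diff_bound (hφ : DifferentiableOn ℂ φ (ball 0 1))
    (hmap : MapsTo φ (ball 0 1) (ball 0 1)) {C : OpH2} (hC : IsCompOp φ C)
    {ε δ : ℝ} (hε : 0 < ε) (hδ : 0 < δ) (hδ1 : δ ≤ 1)
    (hsmall : ∀ h : ℝ, 0 < h → h < δ → ∀ ξ : ℂ, ‖ξ‖ = 1 →
      (nu φ).real {w | ‖w‖ < 1 ∧ ‖w - ξ‖ < h} ≤ ε * h)
    {f : H2} (hf : Summable (fun n => ‖f n‖)) {n m : ℕ} (hnm : n ≤ m) :
    0 ≤ ‖C ((Mz ^ n) f)‖ ^ 2 - ‖C ((Mz ^ m) f)‖ ^ 2 ∧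
    ‖C ((Mz ^ n) f)‖ ^ 2 - ‖C ((Mz ^ m) f)‖ ^ 2 ≤
      ((1 - δ / 4) ^ (2 * n) * ‖C‖ ^ 2 + 147456 * (9 * ε)) * ‖f‖ ^ 2 := by
  rw [norm_comp_sq_nu hφ hmap hC hf n, norm_comp_sq_nu hφ hmap hC hf m,
    ← integral_sub (integrable_gf hφ hmap hf n) (integrable_gf hφ hmap hf m)]
  constructor
  · apply integral_nonneg_of_ae
    filter_upwards [ae_nu_norm_le hφ hmap] with w hw
    rw [mem_closedBall_zero_iff] at hw
    change 0 ≤ gf f n w - gf f m w
    unfold gf
    have h2 : ‖w‖ ^ (2 * m) ≤ ‖w‖ ^ (2 * n) :=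
      pow_le_pow_of_le_one (norm_nonneg _) hw (by omega)
    have h3 := mul_le_mul_of_nonneg_right h2 (sq_nonneg ‖ev f w‖)
    linarith
  · set S : Set ℂ := {w | 1 - δ / 4 < ‖w‖} with hS
    have hSm : MeasurableSet S := measurableSet_lt measurable_const measurable_norm
    have hi0 : Integrable (fun w => ‖ev f w‖ ^ 2) (nu φ) := by
      have := integrable_gf hφ hmap hf 0
      have e : gf f 0 = fun w => ‖ev f w‖ ^ 2 := by
        ext w; unfold gf; simp
      rwa [e] at this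
    have hρ0 : 0 ≤ 1 - δ / 4 := by linarith
    have hsplit : ∫ w, (gf f n w - gf f m w) ∂(nu φ) ≤
        ∫ w, ((1 - δ / 4) ^ (2 * n) * ‖ev f w‖ ^ 2 +
          (S ∩ ball (0 : ℂ) 1).indicator (fun w => ‖ev f w‖ ^ 2) w) ∂(nu φ) := by
      apply integral_mono_ae ((integrable_gf hφ hmap hf n).sub (integrable_gf hφ hmap hf m))
      · exact (hi0.const_mul _).add (hi0.indicator (hSm.inter measurableSet_ball))
      · filter_upwards [ae_nu_norm_le hφ hmap] with w hw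
        rw [mem_closedBall_zero_iff] at hw
        have hg0 := gf_nonneg f m w
        change gf f n w - gf f m w ≤ (1 - δ / 4) ^ (2 * n) * ‖ev f w‖ ^ 2 +
          (S ∩ ball (0 : ℂ) 1).indicator (fun w => ‖ev f w‖ ^ 2) w
        by_cases hw1 : ‖w‖ < 1
        · by_cases hwS : w ∈ S
          · rw [Set.indicator_of_mem (show w ∈ S ∩ ball (0 : ℂ) 1 from
              ⟨hwS, by rwa [mem_ball_zero_iff]⟩)]
            have h2 : ‖w‖ ^ (2 * n) ≤ 1 := pow_le_one₀ (norm_nonneg _) hw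
            have h3 := mul_le_mul_of_nonneg_right h2 (sq_nonneg ‖ev f w‖)
            have h4 : 0 ≤ (1 - δ / 4) ^ (2 * n) * ‖ev f w‖ ^ 2 := by positivity
            unfold gf at hg0 ⊢
            linarith
          · rw [Set.indicator_of_notMem (fun h => hwS h.1), add_zero]
            have h1 : ‖w‖ ≤ 1 - δ / 4 := not_lt.1 hwS
            have h2 : ‖w‖ ^ (2 * n) ≤ (1 - δ / 4) ^ (2 * n) :=
              pow_le_pow_left₀ (norm_nonneg _) h1 _
            have h3 := mul_le_mul_of_nonneg_right h2 (sq_nonneg ‖ev f w‖)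
            unfold gf at hg0 ⊢
            linarith
        · have hw2 : ‖w‖ = 1 := le_antisymm hw (not_lt.1 hw1)
          rw [Set.indicator_of_notMem (fun h => hw1 (by
            have := h.2; rwa [mem_ball_zero_iff] at this)), add_zero]
          unfold gf
          rw [hw2]
          simp only [one_pow, one_mul, sub_self]
          positivity
    have hadd : ∫ w, ((1 - δ / 4) ^ (2 * n) * ‖ev f w‖ ^ 2 +
          (S ∩ ball (0 : ℂ) 1).indicator (fun w => ‖ev f w‖ ^ 2) w) ∂(nu φ)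
        = (1 - δ / 4) ^ (2 * n) * (∫ w, ‖ev f w‖ ^ 2 ∂(nu φ)) +
          ∫ w in ball (0 : ℂ) 1, ‖ev f w‖ ^ 2 ∂((nu φ).restrict S) := by
      rw [integral_add (hi0.const_mul _) (hi0.indicator (hSm.inter measurableSet_ball)),
        integral_const_mul, integral_indicator (hSm.inter measurableSet_ball),
        Measure.restrict_restrict measurableSet_ball, Set.inter_comm]
    have hC0 : ∫ w, ‖ev f w‖ ^ 2 ∂(nu φ) = ‖C f‖ ^ 2 := by
      have := norm_comp_sq_nu hφ hmap hC hf 0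
      have e : gf f 0 = fun w => ‖ev f w‖ ^ 2 := by
        ext w; unfold gf; simp
      rw [e] at this
      rw [← this]
      rfl
    have hemb := carleson_embedding (μ := (nu φ).restrict S) (A := 9 * ε) (by positivity)
      (fun ξ hξ h hh => box_all_scales hε hδ hδ1 hsmall ξ hξ h hh) (diffContOnCl_ev hf)
    have hbg : ∫ t in (0 : ℝ)..1, bg (ev f) t ^ 2 = ‖f‖ ^ 2 := circle_eq_of_summable hf
    rw [hbg] at hemb
    have hCf : ‖C f‖ ^ 2 ≤ ‖C‖ ^ 2 * ‖f‖ ^ 2 := by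
      rw [← mul_pow]
      have := C.le_opNorm f
      gcongr
    have hpow : 0 ≤ (1 - δ / 4) ^ (2 * n) := by positivity
    change ∫ w, (gf f n w - gf f m w) ∂(nu φ) ≤ _
    calc ∫ w, (gf f n w - gf f m w) ∂(nu φ)
        ≤ (1 - δ / 4) ^ (2 * n) * ‖C f‖ ^ 2 + 147456 * (9 * ε) * ‖f‖ ^ 2 := by
          rw [hadd, hC0] at hsplit
          linarith
      _ ≤ (1 - δ / 4) ^ (2 * n) * (‖C‖ ^ 2 * ‖f‖ ^ 2) + 147456 * (9 * ε) * ‖f‖ ^ 2 := by
          gcongr
      _ = _ := by ring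

theorem isUAT_of_vanishing (hφ : DifferentiableOn ℂ φ (ball 0 1))
    (hmap : MapsTo φ (ball 0 1) (ball 0 1)) {C : OpH2} (hC : IsCompOp φ C)
    (hV : VanishingCarleson φ) : IsUAT (gram C) := by
  apply cauchySeq_tendsto_of_complete
  rw [Metric.cauchySeq_iff']
  intro η hη
  set ε : ℝ := η / (4 * 147456 * 9) with hε
  have hε0 : 0 < ε := by positivity
  obtain ⟨δ0, hδ0, hV'⟩ := hV ε hε0
  set δ : ℝ := min δ0 1 with hδ
  have hδpos : 0 < δ := lt_min hδ0 one_pos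
  have hδ1 : δ ≤ 1 := min_le_right _ _
  have hsmall : ∀ h : ℝ, 0 < h → h < δ → ∀ ξ : ℂ, ‖ξ‖ = 1 →
      (nu φ).real {w | ‖w‖ < 1 ∧ ‖w - ξ‖ < h} ≤ ε * h := by
    intro h hh hhδ ξ hξ
    have h1 := hV' h hh (hhδ.trans_le (min_le_left _ _)) ξ hξ
    rw [nu_box hφ hmap] at h1
    rw [measureReal_def]
    have h2 := ENNReal.toReal_mono ENNReal.ofReal_ne_top h1
    rwa [ENNReal.toReal_ofReal (by positivity)] at h2
  have hlim : Tendsto (fun n : ℕ => (1 - δ / 4) ^ (2 * n) * ‖C‖ ^ 2) atTop (𝓝 (0 * ‖C‖ ^ 2)) := by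
    apply Tendsto.mul_const
    simp only [pow_mul]
    apply tendsto_pow_atTop_nhds_zero_of_lt_one
    · positivity
    · nlinarith
  rw [zero_mul] at hlim
  obtain ⟨N, hN⟩ := (Metric.tendsto_atTop.1 hlim) (η / 4) (by positivity)
  refine ⟨N, fun m hm => ?_⟩
  have hNN := hN N le_rfl
  rw [Real.dist_eq, sub_zero, abs_of_nonneg (by
    apply mul_nonneg
    · apply pow_nonneg; linarith
    · positivity)] at hNN
  have hb : ∀ f : H2, 0 ≤ ‖C ((Mz ^ N) f)‖ ^ 2 - ‖C ((Mz ^ m) f)‖ ^ 2 := by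
    apply ge_of_summable
    · fun_prop
    · intro f hf
      exact (diff_bound hφ hmap hC hε0 hδpos hδ1 hsmall hf hm).1
  have hb2 : ∀ f : H2, 0 ≤ η / 2 * ‖f‖ ^ 2 -
      (‖C ((Mz ^ N) f)‖ ^ 2 - ‖C ((Mz ^ m) f)‖ ^ 2) := by
    apply ge_of_summable
    · fun_prop
    · intro f hf
      have h1 := (diff_bound hφ hmap hC hε0 hδpos hδ1 hsmall hf hm).2
      have h2 : (1 - δ / 4) ^ (2 * N) * ‖C‖ ^ 2 + 147456 * (9 * ε) ≤ η / 2 := by
        have h3 : 147456 * (9 * ε) = η / 4 := by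
          rw [hε]; ring
        rw [h3]; linarith
      have h3 := mul_le_mul_of_nonneg_right h2 (sq_nonneg ‖f‖)
      linarith
  have hfin := norm_sub_le_of_forms (A := C * Mz ^ N) (B := C * Mz ^ m) (ε := η / 2)
    (by positivity) (fun f => by
      have := hb f
      change ‖C ((Mz ^ m) f)‖ ^ 2 ≤ ‖C ((Mz ^ N) f)‖ ^ 2
      linarith) (fun f => by
      have := hb2 f
      change ‖C ((Mz ^ N) f)‖ ^ 2 - ‖C ((Mz ^ m) f)‖ ^ 2 ≤ _
      linarith)
  rw [dist_comm, dist_eq_norm, compress_eq, compress_eq]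
  linarith

end Pool.Agent.CompToeplitz
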