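import Mathlib

/-!
# A dyadic Carleson embedding inequality (finite depth), by a Bellman function argument
-/

open Finset

namespace Pool.Agent.CompToeplitz

/-- Sum of `F` over all dyadic descendants of `(n,k)` of relative depth at most `N`. -/
def descSum (F : ℕ → ℤ → ℝ) : ℕ → ℕ → ℤ → ℝ
  | 0, n, k => F n k
  | N + 1, n, k => F n k + descSum F N (n + 1) (2 * k) + descSum F N (n + 1) (2 * k + 1)

lemma descSum_nonneg {F : ℕ → ℤ → ℝ} (hF : ∀ n k, 0 ≤ F n k) (N n : ℕ) (k : ℤ) :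
    0 ≤ descSum F N n k := by
  induction N generalizing n k with
  | zero => exact hF n k
  | succ N ih =>
    have h1 := ih (n + 1) (2 * k)
    have h2 := ih (n + 1) (2 * k + 1)
    have h3 := hF n k
    simp only [descSum]
    linarith

/-- The scalar inequality behind the Bellman argument. -/
lemma bellman_ineq {fm fp Mm Mp m : ℝ} (hMm : 0 ≤ Mm) (hMp : 0 ≤ Mp) (hm : 0 ≤ m)
    (hM : m + (Mm + Mp) / 2 ≤ 1) :
    m * ((fm + fp) / 2) ^ 2 + 4 * (((fm + fp) / 2) ^ 2 / (1 + (m + (Mm + Mp) / 2)))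
      ≤ 2 * (fm ^ 2 / (1 + Mm) + fp ^ 2 / (1 + Mp)) := by
  set f : ℝ := (fm + fp) / 2 with hf
  set A : ℝ := (Mm + Mp) / 2 with hA
  have hA0 : 0 ≤ A := by positivity
  -- Titu / convexity
  have h1 : f ^ 2 / (1 + A) ≤ (fm ^ 2 / (1 + Mm) + fp ^ 2 / (1 + Mp)) / 2 := by
    rw [div_add_div _ _ (by positivity) (by positivity), div_div,
      div_le_div_iff₀ (by positivity) (by positivity)]
    have h3 : 0 ≤ (fm * (1 + Mp) - fp * (1 + Mm)) ^ 2 := sq_nonneg _
    simp only [hf, hA]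
    nlinarith [h3]
  have h2 : m / 4 ≤ 1 / (1 + A) - 1 / (1 + (m + A)) := by
    have h4 : 1 / (1 + A) - 1 / (1 + (m + A)) = m / ((1 + A) * (1 + (m + A))) := by
      field_simp
      ring
    rw [h4]
    have h5 : (1 + A) * (1 + (m + A)) ≤ 4 := by nlinarith
    have h6 : 0 < (1 + A) * (1 + (m + A)) := by positivity
    gcongr
  have h7 : f ^ 2 * (m / 4) ≤ f ^ 2 * (1 / (1 + A) - 1 / (1 + (m + A))) :=
    mul_le_mul_of_nonneg_left h2 (sq_nonneg f)
  have h8 : f ^ 2 * (1 / (1 + A) - 1 / (1 + (m + A)))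
      = f ^ 2 / (1 + A) - f ^ 2 / (1 + (m + A)) := by ring
  rw [h8] at h7
  nlinarith

/-- Finite-depth dyadic Carleson embedding. `G n k` and `H n k` play the roles of `∫_I g` and
`∫_I g²` for the dyadic interval `I = [k 2^{-n}, (k+1) 2^{-n})`. -/
lemma dyadic_embedding {G H c : ℕ → ℤ → ℝ} (hc : ∀ n k, 0 ≤ c n k)
    (hG : ∀ n k, G n k = G (n + 1) (2 * k) + G (n + 1) (2 * k + 1))
    (hH : ∀ n k, H n k = H (n + 1) (2 * k) + H (n + 1) (2 * k + 1))
    (hGH : ∀ n k, 2 ^ n * G n k ^ 2 ≤ H n k)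
    (hpack : ∀ N n k, descSum c N n k ≤ (1 / 2) ^ n) (N n : ℕ) (k : ℤ) :
    descSum (fun n k => c n k * (2 ^ n * G n k) ^ 2) N n k ≤
      4 * (H n k - 2 ^ n * G n k ^ 2 / (1 + 2 ^ n * descSum c N n k)) := by
  induction N generalizing n k with
  | zero =>
    simp only [descSum]
    have h1 := hGH n k
    have h2 := hc n k
    have h3 := hpack 0 n k
    simp only [descSum] at h3
    set M : ℝ := 2 ^ n * c n k with hM
    have hM0 : 0 ≤ M := by positivity
    have hM1 : M ≤ 1 := by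
      calc M ≤ 2 ^ n * (1 / 2) ^ n := by rw [hM]; gcongr
        _ = 1 := by rw [← mul_pow]; norm_num
    have h4 : c n k * (2 ^ n * G n k) ^ 2 = M * (2 ^ n * G n k ^ 2) := by rw [hM]; ring
    rw [h4]
    set X : ℝ := 2 ^ n * G n k ^ 2 with hX
    have hX0 : 0 ≤ X := by positivity
    have h5 : X / (1 + M) ≤ X - M * X / 4 := by
      rw [div_le_iff₀ (by positivity)]
      nlinarith [mul_nonneg hM0 hX0, mul_nonneg (mul_nonneg hM0 hX0) (sub_nonneg.2 hM1)]
    nlinarith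
  | succ N ih =>
    have ihm := ih (n + 1) (2 * k)
    have ihp := ih (n + 1) (2 * k + 1)
    simp only [descSum]
    have hQm : 0 ≤ descSum c N (n + 1) (2 * k) := descSum_nonneg hc _ _ _
    have hQp : 0 ≤ descSum c N (n + 1) (2 * k + 1) := descSum_nonneg hc _ _ _
    have hp := hpack (N + 1) n k
    simp only [descSum] at hp
    have hc0 := hc n k
    set Qm := descSum c N (n + 1) (2 * k) with hQm'
    set Qp := descSum c N (n + 1) (2 * k + 1) with hQp'
    set Sm := descSum (fun n k => c n k * (2 ^ n * G n k) ^ 2) N (n + 1) (2 * k)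
    set Sp := descSum (fun n k => c n k * (2 ^ n * G n k) ^ 2) N (n + 1) (2 * k + 1)
    have h2n : (0 : ℝ) < 2 ^ n := by positivity
    have key := bellman_ineq (fm := 2 ^ (n + 1) * G (n + 1) (2 * k))
      (fp := 2 ^ (n + 1) * G (n + 1) (2 * k + 1)) (Mm := 2 ^ (n + 1) * Qm)
      (Mp := 2 ^ (n + 1) * Qp) (m := 2 ^ n * c n k) (by positivity) (by positivity)
      (by positivity) (by
        have h3 : 2 ^ n * c n k + (2 ^ (n + 1) * Qm + 2 ^ (n + 1) * Qp) / 2
            = 2 ^ n * (c n k + Qm + Qp) := by ring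
        rw [h3]
        calc 2 ^ n * (c n k + Qm + Qp) ≤ 2 ^ n * (1 / 2) ^ n := by gcongr
          _ = 1 := by rw [← mul_pow]; norm_num)
    have h4 : (2 ^ (n + 1) * G (n + 1) (2 * k) + 2 ^ (n + 1) * G (n + 1) (2 * k + 1)) / 2
        = 2 ^ n * G n k := by rw [hG n k]; ring
    have h5 : 1 + (2 ^ n * c n k + (2 ^ (n + 1) * Qm + 2 ^ (n + 1) * Qp) / 2)
        = 1 + 2 ^ n * (c n k + Qm + Qp) := by ring
    rw [h4, h5] at key
    rw [hH n k]
    -- multiply `key` by `2^{-n}`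
    have h6 : (2 ^ n * c n k * (2 ^ n * G n k) ^ 2
          + 4 * ((2 ^ n * G n k) ^ 2 / (1 + 2 ^ n * (c n k + Qm + Qp)))) / 2 ^ n
        = c n k * (2 ^ n * G n k) ^ 2
          + 4 * (2 ^ n * G n k ^ 2 / (1 + 2 ^ n * (c n k + Qm + Qp))) := by
      field_simp
    have h7 : (2 * ((2 ^ (n + 1) * G (n + 1) (2 * k)) ^ 2 / (1 + 2 ^ (n + 1) * Qm)
          + (2 ^ (n + 1) * G (n + 1) (2 * k + 1)) ^ 2 / (1 + 2 ^ (n + 1) * Qp))) / 2 ^ n
        = 4 * (2 ^ (n + 1) * G (n + 1) (2 * k) ^ 2 / (1 + 2 ^ (n + 1) * Qm))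
          + 4 * (2 ^ (n + 1) * G (n + 1) (2 * k + 1) ^ 2 / (1 + 2 ^ (n + 1) * Qp)) := by
      field_simp
      ring
    have h8 := div_le_div_of_nonneg_right key h2n.le
    rw [h6, h7] at h8
    linarith

lemma dyadic_embedding' {G H c : ℕ → ℤ → ℝ} (hc : ∀ n k, 0 ≤ c n k)
    (hG : ∀ n k, G n k = G (n + 1) (2 * k) + G (n + 1) (2 * k + 1))
    (hH : ∀ n k, H n k = H (n + 1) (2 * k) + H (n + 1) (2 * k + 1))
    (hGH : ∀ n k, 2 ^ n * G n k ^ 2 ≤ H n k) {A : ℝ} (hA : 0 < A)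
    (hpack : ∀ N n k, descSum c N n k ≤ A * (1 / 2) ^ n) (N n : ℕ) (k : ℤ) :
    descSum (fun n k => c n k * (2 ^ n * G n k) ^ 2) N n k ≤ 4 * A * H n k := by
  have hscale : ∀ (F : ℕ → ℤ → ℝ) (a : ℝ) (N n : ℕ) (k : ℤ),
      descSum (fun n k => a * F n k) N n k = a * descSum F N n k := by
    intro F a N
    induction N with
    | zero => intro n k; rfl
    | succ N ih => intro n k; simp only [descSum, ih]; ring
  have h1 := dyadic_embedding (c := fun n k => A⁻¹ * c n k) (G := G) (H := H)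
    (fun n k => mul_nonneg (inv_nonneg.2 hA.le) (hc n k)) hG hH hGH
    (fun N n k => by
      rw [hscale, inv_mul_le_iff₀ hA]
      exact hpack N n k) N n k
  have h2 : descSum (fun n k => A⁻¹ * c n k * (2 ^ n * G n k) ^ 2) N n k
      = A⁻¹ * descSum (fun n k => c n k * (2 ^ n * G n k) ^ 2) N n k := by
    rw [← hscale]
    congr 1
    ext n k
    ring
  rw [h2] at h1
  have h3 : 0 ≤ 2 ^ n * G n k ^ 2 / (1 + 2 ^ n * descSum (fun n k => A⁻¹ * c n k) N n k) := by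
    have := descSum_nonneg (F := fun n k => A⁻¹ * c n k)
      (fun n k => mul_nonneg (inv_nonneg.2 hA.le) (hc n k)) N n k
    positivity
  have h4 : A⁻¹ * descSum (fun n k => c n k * (2 ^ n * G n k) ^ 2) N n k ≤ 4 * H n k := by
    linarith
  rw [inv_mul_le_iff₀ hA] at h4
  linarith

end Pool.Agent.CompToeplitz
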