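import Pool.Agent.CompToeplitz.PointBound

/-!
# The Carleson embedding theorem for measures on the open disc
-/

open Complex MeasureTheory Metric Set Real Filter Topology

namespace Pool.Agent.CompToeplitz

/-- Angular coordinate in `(-1/2, 1/2]`. -/
noncomputable def ang (w : ℂ) : ℝ := Complex.arg w / (2 * π)

lemma measurable_ang : Measurable ang := Complex.measurable_arg.div_const _

lemma ang_mem (w : ℂ) : -(1 / 2) < ang w ∧ ang w ≤ 1 / 2 := by
  unfold ang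
  have h1 := Complex.neg_pi_lt_arg w
  have h2 := Complex.arg_le_pi w
  have hp := Real.pi_pos
  constructor
  · rw [lt_div_iff₀ (by positivity)]; linarith
  · rw [div_le_iff₀ (by positivity)]; linarith

lemma polar_ang (w : ℂ) : (‖w‖ : ℂ) * ee (ang w) = w := by
  unfold ee ang
  have : (2 * π * ((Complex.arg w / (2 * π) : ℝ) : ℂ) * Complex.I : ℂ)
      = (Complex.arg w : ℂ) * Complex.I := by
    push_cast
    have : (π : ℂ) ≠ 0 := by exact_mod_cast Real.pi_ne_zero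
    field_simp
  rw [this, Complex.norm_mul_exp_arg_mul_I]

/-- The dyadic annulus `2^{-n-1} < 1 - ‖w‖ ≤ 2^{-n}`. -/
def ann (n : ℕ) : Set ℂ := {w | (1 / 2 : ℝ) ^ (n + 1) < 1 - ‖w‖ ∧ 1 - ‖w‖ ≤ (1 / 2 : ℝ) ^ n}

/-- Points with dyadic angular position `m` at level `l`. -/
def sect (l : ℕ) (m : ℤ) : Set ℂ := {w | ⌊(2 : ℝ) ^ l * ang w⌋ = m}

lemma measurableSet_ann (n : ℕ) : MeasurableSet (ann n) := by
  apply MeasurableSet.inter
  · exact measurableSet_lt measurable_const (measurable_const.sub measurable_norm)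
  · exact measurableSet_le (measurable_const.sub measurable_norm) measurable_const

lemma measurableSet_sect (l : ℕ) (m : ℤ) : MeasurableSet (sect l m) := by
  have h1 : Measurable (fun w : ℂ => ⌊(2 : ℝ) ^ l * ang w⌋) :=
    Int.measurable_floor.comp (measurable_ang.const_mul _)
  exact h1 (measurableSet_singleton m)

lemma ann_disjoint {n n' : ℕ} (h : n ≠ n') : Disjoint (ann n) (ann n') := by
  rw [Set.disjoint_left]
  rintro w ⟨h1, h2⟩ ⟨h3, h4⟩
  rcases lt_or_gt_of_ne h with h | h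
  · have : (1 / 2 : ℝ) ^ n' ≤ (1 / 2) ^ (n + 1) :=
      pow_le_pow_of_le_one (by norm_num) (by norm_num) h
    linarith
  · have : (1 / 2 : ℝ) ^ n ≤ (1 / 2) ^ (n' + 1) :=
      pow_le_pow_of_le_one (by norm_num) (by norm_num) h
    linarith

lemma sect_split (l : ℕ) (m : ℤ) : sect l m = sect (l + 1) (2 * m) ∪ sect (l + 1) (2 * m + 1) := by
  ext w
  simp only [sect, Set.mem_ofPred_eq, Set.mem_union, Int.floor_eq_iff]
  have e1 : (2 : ℝ) ^ (l + 1) * ang w = 2 * (2 ^ l * ang w) := by rw [pow_succ]; ring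
  rw [e1]
  push_cast
  constructor
  · rintro ⟨h1, h2⟩
    by_cases h3 : 2 * (2 ^ l * ang w) < 2 * (m : ℝ) + 1
    · left; exact ⟨by linarith, h3⟩
    · right; exact ⟨by linarith, by linarith⟩
  · rintro (⟨h1, h2⟩ | ⟨h1, h2⟩)
    · exact ⟨by linarith, by linarith⟩
    · exact ⟨by linarith, by linarith⟩

lemma sect_disjoint {l : ℕ} {m m' : ℤ} (h : m ≠ m') : Disjoint (sect l m) (sect l m') := by
  rw [Set.disjoint_left]
  intro w h1 h2
  exact h (h1.symm.trans h2)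

lemma norm_ee_sub_le (s t : ℝ) : ‖ee s - ee t‖ ≤ 2 * π * |s - t| := by
  have h1 := normSq_ee_sub 1 s t
  simp only [Complex.ofReal_one, one_mul, sub_self, mul_one] at h1
  have h2 : Real.sin (π * (s - t)) ^ 2 ≤ (π * (s - t)) ^ 2 := sq_le_sq.2 Real.abs_sin_le_abs
  have h3 : ‖ee s - ee t‖ ^ 2 ≤ (2 * π * |s - t|) ^ 2 := by
    rw [h1, mul_pow, sq_abs]
    nlinarith
  exact le_of_sq_le_sq h3 (by positivity)
  where le_of_sq_le_sq {a b : ℝ} (h : a ^ 2 ≤ b ^ 2) (hb : 0 ≤ b) : a ≤ b :=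
    abs_le_of_sq_le_sq' h hb |>.2

/-- A dyadic Carleson region sits in a Euclidean disc centred on the circle. -/
lemma region_subset (l : ℕ) (m : ℤ) {w : ℂ} (hw1 : ‖w‖ < 1) (hw : 1 - ‖w‖ ≤ (1 / 2 : ℝ) ^ l)
    (hs : w ∈ sect l m) : ‖w - ee ((m : ℝ) / 2 ^ l)‖ < 8 * (1 / 2 : ℝ) ^ l := by
  have hp : (0 : ℝ) < 2 ^ l := by positivity
  simp only [sect, Set.mem_ofPred_eq, Int.floor_eq_iff] at hs
  have h1 : ‖w - ee (ang w)‖ = 1 - ‖w‖ := by
    have : w - ee (ang w) = ((‖w‖ - 1 : ℝ) : ℂ) * ee (ang w) := by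
      nth_rewrite 1 [← polar_ang w]
      push_cast; ring
    rw [this, norm_mul, norm_ee, mul_one, Complex.norm_real, Real.norm_eq_abs,
      abs_of_nonpos (by linarith)]
    ring
  have h2 : |ang w - (m : ℝ) / 2 ^ l| ≤ (1 / 2 : ℝ) ^ l := by
    have e1 : ang w - (m : ℝ) / 2 ^ l = (2 ^ l * ang w - m) / 2 ^ l := by field_simp
    rw [e1, abs_div, abs_of_pos hp, abs_of_nonneg (by linarith [hs.1]), one_div_pow]
    gcongr
    linarith [hs.2]
  have h3 := norm_ee_sub_le (ang w) ((m : ℝ) / 2 ^ l)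
  have h4 : π < 3.15 := Real.pi_lt_d2
  have hq : (0 : ℝ) < (1 / 2) ^ l := by positivity
  calc ‖w - ee ((m : ℝ) / 2 ^ l)‖ ≤ ‖w - ee (ang w)‖ + ‖ee (ang w) - ee ((m : ℝ) / 2 ^ l)‖ :=
        norm_sub_le_norm_sub_add_norm_sub _ _ _
    _ ≤ (1 / 2 : ℝ) ^ l + 2 * π * (1 / 2 : ℝ) ^ l := by
        gcongr
        · rw [h1]; exact hw
        · exact h3.trans (by gcongr)
    _ < 8 * (1 / 2 : ℝ) ^ l := by nlinarith

end Pool.Agent.CompToeplitz
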