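import Pool.Agent.CompToeplitz.Embedding

/-!
# The Carleson embedding theorem for measures on the open disc, II
-/

open Complex MeasureTheory Metric Set Real Filter Topology

namespace Pool.Agent.CompToeplitz

section coeff

variable (μ : Measure ℂ) [IsFiniteMeasure μ]

/-- Mass of a dyadic annulus-sector piece. -/
noncomputable def xm (n l : ℕ) (m : ℤ) : ℝ := μ.real (ann n ∩ sect l m)

/-- Weight used for the coefficients. -/
noncomputable def wt (l n : ℕ) : ℝ := if l ≤ n then (1 / 2 : ℝ) ^ (n - l) else 0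

/-- Weight used for the packing potential. -/
noncomputable def ut (l n : ℕ) : ℝ := if l ≤ n then 2 - (1 / 2 : ℝ) ^ (n - l) else 0

lemma wt_nonneg (l n : ℕ) : 0 ≤ wt l n := by
  unfold wt; split_ifs <;> positivity

lemma ut_bound (l n : ℕ) : ut l n ≤ if l ≤ n then 2 else 0 := by
  unfold ut
  split_ifs
  · have : (0 : ℝ) < (1 / 2) ^ (n - l) := by positivity
    linarith
  · exact le_refl _

lemma wt_le_ut (l n : ℕ) : wt l n ≤ ut l n := by
  unfold wt ut
  split_ifs
  · have : (1 / 2 : ℝ) ^ (n - l) ≤ 1 := pow_le_one₀ (by norm_num) (by norm_num)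
    linarith
  · exact le_refl _

lemma wt_add_ut (l n : ℕ) : wt l n + ut (l + 1) n = ut l n := by
  unfold wt ut
  rcases lt_trichotomy n l with h | h | h
  · rw [if_neg (by omega), if_neg (by omega), if_neg (by omega), add_zero]
  · subst h
    rw [if_pos le_rfl, if_neg (by omega), if_pos le_rfl]
    norm_num
  · rw [if_pos h.le, if_pos (by omega), if_pos h.le]
    obtain ⟨k, rfl⟩ := Nat.exists_eq_add_of_lt h
    have h1 : l + k + 1 - l = k + 1 := by omega
    have h2 : l + k + 1 - (l + 1) = k := by omega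
    rw [h1, h2, pow_succ]
    ring

lemma xm_nonneg (n l : ℕ) (m : ℤ) : 0 ≤ xm μ n l m := measureReal_nonneg

lemma xm_split (n l : ℕ) (m : ℤ) :
    xm μ n l m = xm μ n (l + 1) (2 * m) + xm μ n (l + 1) (2 * m + 1) := by
  unfold xm
  rw [sect_split, Set.inter_union_distrib_left]
  rw [measureReal_union]
  · exact (sect_disjoint (by omega)).mono Set.inter_subset_right Set.inter_subset_right
  · exact (measurableSet_ann n).inter (measurableSet_sect _ _)

/-- The Carleson coefficients. -/
noncomputable def cN (N l : ℕ) (m : ℤ) : ℝ := ∑ n ∈ Finset.range (N + 1), wt l n * xm μ n l m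

/-- The packing potential. -/
noncomputable def uN (N l : ℕ) (m : ℤ) : ℝ := ∑ n ∈ Finset.range (N + 1), ut l n * xm μ n l m

lemma cN_nonneg (N l : ℕ) (m : ℤ) : 0 ≤ cN μ N l m :=
  Finset.sum_nonneg (fun n _ => mul_nonneg (wt_nonneg l n) (xm_nonneg μ n l m))

lemma uN_eq (N l : ℕ) (m : ℤ) :
    cN μ N l m + uN μ N (l + 1) (2 * m) + uN μ N (l + 1) (2 * m + 1) = uN μ N l m := by
  unfold cN uN
  rw [← Finset.sum_add_distrib, ← Finset.sum_add_distrib]
  apply Finset.sum_congr rfl
  intro n _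
  rw [add_assoc, ← mul_add, ← xm_split, ← add_mul, wt_add_ut]

lemma descSum_cN_le (N M l : ℕ) (m : ℤ) : descSum (cN μ N) M l m ≤ uN μ N l m := by
  induction M generalizing l m with
  | zero =>
    simp only [descSum]
    unfold cN uN
    apply Finset.sum_le_sum
    intro n _
    exact mul_le_mul_of_nonneg_right (wt_le_ut l n) (xm_nonneg μ n l m)
  | succ M ih =>
    simp only [descSum]
    have h1 := ih (l + 1) (2 * m)
    have h2 := ih (l + 1) (2 * m + 1)
    have h3 := uN_eq μ N l m
    linarith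

lemma uN_le (N l : ℕ) (m : ℤ) {A : ℝ}
    (hbox : ∀ ξ : ℂ, ‖ξ‖ = 1 → ∀ h : ℝ, 0 < h → μ.real {w | ‖w‖ < 1 ∧ ‖w - ξ‖ < h} ≤ A * h) :
    uN μ N l m ≤ 16 * A * (1 / 2) ^ l := by
  have h1 : uN μ N l m ≤ 2 * ∑ n ∈ (Finset.range (N + 1)).filter (fun n => l ≤ n), xm μ n l m := by
    unfold uN
    rw [Finset.sum_filter, Finset.mul_sum]
    apply Finset.sum_le_sum
    intro n _
    have h2 := mul_le_mul_of_nonneg_right (ut_bound l n) (xm_nonneg μ n l m)
    refine h2.trans (le_of_eq ?_)
    split_ifs <;> simp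
  have h3 : ∑ n ∈ (Finset.range (N + 1)).filter (fun n => l ≤ n), xm μ n l m
      = μ.real (⋃ n ∈ (Finset.range (N + 1)).filter (fun n => l ≤ n), ann n ∩ sect l m) := by
    symm
    apply measureReal_biUnion_finset
    · intro a _ b _ hab
      exact (ann_disjoint hab).mono Set.inter_subset_left Set.inter_subset_left
    · intro b _
      exact (measurableSet_ann b).inter (measurableSet_sect _ _)
    · intro b _
      exact measure_ne_top _ _
  have h4 : μ.real (⋃ n ∈ (Finset.range (N + 1)).filter (fun n => l ≤ n), ann n ∩ sect l m)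
      ≤ μ.real {w | ‖w‖ < 1 ∧ ‖w - ee ((m : ℝ) / 2 ^ l)‖ < 8 * (1 / 2 : ℝ) ^ l} := by
    apply measureReal_mono
    · intro w hw
      simp only [Set.mem_iUnion, Finset.mem_filter] at hw
      obtain ⟨n, ⟨_, hln⟩, hwa, hws⟩ := hw
      have hpos : (0 : ℝ) < (1 / 2) ^ (n + 1) := by positivity
      have hw1 : ‖w‖ < 1 := by linarith [hwa.1]
      refine ⟨hw1, region_subset l m hw1 ?_ hws⟩
      exact hwa.2.trans (pow_le_pow_of_le_one (by norm_num) (by norm_num) hln)
    · finiteness
  have h5 := hbox (ee ((m : ℝ) / 2 ^ l)) (norm_ee _) (8 * (1 / 2 : ℝ) ^ l) (by positivity)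
  rw [h3] at h1
  linarith

end coeff

/-- Averages squared. -/
noncomputable def av (G : ℂ → ℂ) (l : ℕ) (m : ℤ) : ℝ := (2 ^ l * GI G l m) ^ 2

lemma index_mem (l : ℕ) (w : ℂ) {i : ℤ} (hi : i ∈ ({-1, 0, 1} : Finset ℤ)) :
    ⌊(2 : ℝ) ^ l * ang w⌋ + i ∈ Finset.Ico (-2 * 2 ^ l : ℤ) (2 * 2 ^ l) := by
  have h := ang_mem w
  have hp : (1 : ℝ) ≤ 2 ^ l := one_le_pow₀ (by norm_num)
  have hpz : (1 : ℤ) ≤ 2 ^ l := one_le_pow₀ (by norm_num)
  have h1 : -(2 : ℤ) ^ l ≤ ⌊(2 : ℝ) ^ l * ang w⌋ := by
    rw [Int.le_floor]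
    push_cast
    nlinarith
  have h2 : ⌊(2 : ℝ) ^ l * ang w⌋ < (2 : ℤ) ^ l := by
    rw [Int.floor_lt]
    push_cast
    nlinarith
  simp only [Finset.mem_insert, Finset.mem_singleton] at hi
  rw [Finset.mem_Ico]
  rcases hi with rfl | rfl | rfl <;> constructor <;> linarith

lemma av_index_eq (G : ℂ → ℂ) (l : ℕ) (w : ℂ) {i : ℤ} (hi : i ∈ ({-1, 0, 1} : Finset ℤ)) :
    av G l (⌊(2 : ℝ) ^ l * ang w⌋ + i) =
      ∑ m ∈ Finset.Ico (-2 * 2 ^ l : ℤ) (2 * 2 ^ l),
        (sect l (m - i)).indicator (fun _ => av G l m) w := by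
  rw [Finset.sum_eq_single_of_mem _ (index_mem l w hi)]
  · rw [Set.indicator_of_mem]
    simp [sect]
  · intro m _ hm
    rw [Set.indicator_of_notMem]
    simp only [sect, Set.mem_ofPred_eq]
    intro h
    apply hm
    rw [h]; ring

lemma integral_av {μ : Measure ℂ} [IsFiniteMeasure μ] (G : ℂ → ℂ) (n l : ℕ) {i : ℤ}
    (hi : i ∈ ({-1, 0, 1} : Finset ℤ)) :
    Integrable (fun w => av G l (⌊(2 : ℝ) ^ l * ang w⌋ + i)) (μ.restrict (ann n)) ∧
    ∫ w in ann n, av G l (⌊(2 : ℝ) ^ l * ang w⌋ + i) ∂μ =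
      ∑ m ∈ Finset.Ico (-2 * 2 ^ l : ℤ) (2 * 2 ^ l), av G l m * xm μ n l (m - i) := by
  have h0 : (fun w => av G l (⌊(2 : ℝ) ^ l * ang w⌋ + i)) = fun w =>
      ∑ m ∈ Finset.Ico (-2 * 2 ^ l : ℤ) (2 * 2 ^ l),
        (sect l (m - i)).indicator (fun _ => av G l m) w := by
    ext w; exact av_index_eq G l w hi
  have h1 : ∀ m ∈ Finset.Ico (-2 * 2 ^ l : ℤ) (2 * 2 ^ l),
      Integrable (fun w => (sect l (m - i)).indicator (fun _ => av G l m) w)
        (μ.restrict (ann n)) := by
    intro m _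
    exact (integrable_const _).indicator (measurableSet_sect _ _)
  constructor
  · rw [h0]
    exact integrable_finsetSum _ h1
  · rw [h0, integral_finsetSum _ h1]
    apply Finset.sum_congr rfl
    intro m _
    rw [integral_indicator (measurableSet_sect _ _), setIntegral_const, smul_eq_mul, mul_comm]
    unfold xm
    rw [measureReal_restrict_apply (measurableSet_sect _ _), Set.inter_comm]

lemma HI_root_le {G : ℂ → ℂ} (r : ℤ) :
    HI G 0 r = ∫ t in (0 : ℝ)..1, bg G t ^ 2 := by
  unfold HI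
  simp only [pow_zero, div_one]
  have hper : Function.Periodic (fun t => bg G t ^ 2) 1 := by
    intro t
    simp only [bg, ee_periodic t]
  have := hper.intervalIntegral_add_eq (r : ℝ) 0
  rw [this, zero_add]

/-- Embedding for a finite union of annuli. -/
lemma embedding_finite {μ : Measure ℂ} [IsFiniteMeasure μ] {A : ℝ} (hA : 0 < A)
    (hbox : ∀ ξ : ℂ, ‖ξ‖ = 1 → ∀ h : ℝ, 0 < h → μ.real {w | ‖w‖ < 1 ∧ ‖w - ξ‖ < h} ≤ A * h)
    {G : ℂ → ℂ} (hG : DiffContOnCl ℂ G (ball 0 1)) (N : ℕ) :
    ∑ n ∈ Finset.range (N + 1), ∫ w in ann n, ‖G w‖ ^ 2 ∂μ ≤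
      147456 * A * ∫ t in (0 : ℝ)..1, bg G t ^ 2 := by
  set T : Finset ℤ := {-1, 0, 1} with hT
  set I0 : ℝ := ∫ t in (0 : ℝ)..1, bg G t ^ 2 with hI0
  -- step 1: pointwise bound integrated
  have h1 : ∀ n, ∫ w in ann n, ‖G w‖ ^ 2 ∂μ ≤ 96 * ∑ i ∈ T, ∑ l ∈ Finset.range (n + 1),
      (1 / 2 : ℝ) ^ (n - l) *
        ∑ m ∈ Finset.Ico (-2 * 2 ^ l : ℤ) (2 * 2 ^ l), av G l m * xm μ n l (m - i) := by
    intro n
    have hint : Integrable (fun w => 96 * ∑ i ∈ T, ∑ l ∈ Finset.range (n + 1),
        (1 / 2 : ℝ) ^ (n - l) * av G l (⌊(2 : ℝ) ^ l * ang w⌋ + i)) (μ.restrict (ann n)) := by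
      apply Integrable.const_mul
      apply integrable_finsetSum
      intro i hi
      apply integrable_finsetSum
      intro l _
      exact (integral_av G n l hi).1.const_mul _
    have h2 : ∫ w in ann n, ‖G w‖ ^ 2 ∂μ ≤ ∫ w in ann n, 96 * ∑ i ∈ T,
        ∑ l ∈ Finset.range (n + 1),
        (1 / 2 : ℝ) ^ (n - l) * av G l (⌊(2 : ℝ) ^ l * ang w⌋ + i) ∂μ := by
      apply integral_mono_of_nonneg
      · exact Filter.Eventually.of_forall (fun w => by positivity)
      · exact hint
      · refine (ae_restrict_iff' (measurableSet_ann n)).2 (Filter.Eventually.of_forall ?_)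
        intro w hw
        have h3 := norm_sq_le_sum hG (norm_nonneg w) hw.1 hw.2 (θ := ang w)
        rw [polar_ang] at h3
        exact h3
    refine h2.trans (le_of_eq ?_)
    rw [integral_const_mul, integral_finsetSum]
    · congr 1
      apply Finset.sum_congr rfl
      intro i hi
      rw [integral_finsetSum]
      · apply Finset.sum_congr rfl
        intro l _
        rw [integral_const_mul, (integral_av G n l hi).2]
      · intro l _
        exact (integral_av G n l hi).1.const_mul _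
    · intro i hi
      apply integrable_finsetSum
      intro l _
      exact (integral_av G n l hi).1.const_mul _
  -- step 2: reorganise
  have h2 : ∑ n ∈ Finset.range (N + 1), ∫ w in ann n, ‖G w‖ ^ 2 ∂μ ≤
      96 * ∑ i ∈ T, ∑ l ∈ Finset.range (N + 1),
        ∑ m ∈ Finset.Ico (-2 * 2 ^ l : ℤ) (2 * 2 ^ l), cN μ N l (m - i) * av G l m := by
    calc ∑ n ∈ Finset.range (N + 1), ∫ w in ann n, ‖G w‖ ^ 2 ∂μ
        ≤ ∑ n ∈ Finset.range (N + 1), 96 * ∑ i ∈ T, ∑ l ∈ Finset.range (n + 1),
          (1 / 2 : ℝ) ^ (n - l) *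
          ∑ m ∈ Finset.Ico (-2 * 2 ^ l : ℤ) (2 * 2 ^ l), av G l m * xm μ n l (m - i) :=
          Finset.sum_le_sum (fun n _ => h1 n)
      _ = ∑ n ∈ Finset.range (N + 1), 96 * ∑ i ∈ T, ∑ l ∈ Finset.range (N + 1),
          wt l n *
          ∑ m ∈ Finset.Ico (-2 * 2 ^ l : ℤ) (2 * 2 ^ l), av G l m * xm μ n l (m - i) := by
          apply Finset.sum_congr rfl
          intro n hn
          congr 1
          apply Finset.sum_congr rfl
          intro i _
          have hsub : Finset.range (n + 1) ⊆ Finset.range (N + 1) := by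
            apply Finset.range_mono
            have := Finset.mem_range.1 hn
            omega
          rw [← Finset.sum_subset hsub]
          · apply Finset.sum_congr rfl
            intro l hl
            have : l ≤ n := by
              have := Finset.mem_range.1 hl
              omega
            unfold wt
            rw [if_pos this]
          · intro l _ hl
            have : ¬ l ≤ n := by
              intro h
              exact hl (Finset.mem_range.2 (by omega))
            unfold wt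
            rw [if_neg this, zero_mul]
      _ = _ := by
          rw [← Finset.mul_sum, Finset.sum_comm]
          congr 1
          apply Finset.sum_congr rfl
          intro i _
          rw [Finset.sum_comm]
          apply Finset.sum_congr rfl
          intro l _
          simp only [Finset.mul_sum]
          rw [Finset.sum_comm]
          apply Finset.sum_congr rfl
          intro m _
          unfold cN
          rw [Finset.sum_mul]
          apply Finset.sum_congr rfl
          intro n _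
          ring
  -- step 3: dyadic embedding
  have h3 : ∀ i ∈ T, ∑ l ∈ Finset.range (N + 1),
      ∑ m ∈ Finset.Ico (-2 * 2 ^ l : ℤ) (2 * 2 ^ l), cN μ N l (m - i) * av G l m ≤
      512 * A * I0 := by
    intro i hi
    rw [sum_all_eq (fun l m => cN μ N l (m - i) * av G l m) N]
    have hpack : ∀ M l m, descSum (cN μ N) M l m ≤ 16 * A * (1 / 2) ^ l := fun M l m =>
      (descSum_cN_le μ N M l m).trans (uN_le μ N l m hbox)
    have hpack' := fun M l m => pack_shift (cN_nonneg μ N) hpack hi M l m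
    have h4 : ∀ r : ℤ, descSum (fun l m => cN μ N l (m - i) * av G l m) N 0 r ≤ 128 * A * I0 := by
      intro r
      have h5 := dyadic_embedding' (G := GI G) (H := HI G) (c := fun l m => cN μ N l (m - i))
        (fun n k => cN_nonneg μ N n _) (GI_split hG) (HI_split hG) (GI_sq_le hG)
        (A := 2 * (16 * A)) (by positivity) hpack' N 0 r
      rw [HI_root_le] at h5
      refine (le_of_eq ?_).trans (h5.trans (le_of_eq ?_))
      · rfl
      · rw [← hI0]; ring
    calc ∑ r ∈ Finset.Ico (-2 : ℤ) 2, descSum (fun l m => cN μ N l (m - i) * av G l m) N 0 r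
        ≤ ∑ r ∈ Finset.Ico (-2 : ℤ) 2, 128 * A * I0 := Finset.sum_le_sum (fun r _ => h4 r)
      _ = 512 * A * I0 := by
          rw [Finset.sum_const, show (Finset.Ico (-2 : ℤ) 2).card = 4 by decide]
          simp only [nsmul_eq_mul]
          push_cast
          ring
  calc _ ≤ _ := h2
    _ ≤ 96 * ∑ i ∈ T, 512 * A * I0 := by
        gcongr with i hi
        exact h3 i hi
    _ = _ := by
        rw [Finset.sum_const, show T.card = 3 by decide]
        simp only [nsmul_eq_mul]
        push_cast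
        ring

/-- **Carleson embedding theorem** (with a crude constant). -/
theorem carleson_embedding {μ : Measure ℂ} [IsFiniteMeasure μ] {A : ℝ} (hA : 0 < A)
    (hbox : ∀ ξ : ℂ, ‖ξ‖ = 1 → ∀ h : ℝ, 0 < h → μ.real {w | ‖w‖ < 1 ∧ ‖w - ξ‖ < h} ≤ A * h)
    {G : ℂ → ℂ} (hG : DiffContOnCl ℂ G (ball 0 1)) :
    ∫ w in ball (0 : ℂ) 1, ‖G w‖ ^ 2 ∂μ ≤ 147456 * A * ∫ t in (0 : ℝ)..1, bg G t ^ 2 := by
  -- integrability
  have hcont := hG.continuousOn
  rw [closure_ball (0 : ℂ) one_ne_zero] at hcont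
  have hint : IntegrableOn (fun w => ‖G w‖ ^ 2) (closedBall (0 : ℂ) 1) μ :=
    ((hcont.norm).pow 2).integrableOn_compact (isCompact_closedBall 0 1)
  have hintb : IntegrableOn (fun w => ‖G w‖ ^ 2) (ball (0 : ℂ) 1) μ :=
    hint.mono_set ball_subset_closedBall
  have hann : ∀ n, ann n ⊆ ball (0 : ℂ) 1 := by
    intro n w hw
    have hpos : (0 : ℝ) < (1 / 2) ^ (n + 1) := by positivity
    rw [mem_ball_zero_iff]
    linarith [hw.1]
  have hunion : ball (0 : ℂ) 1 = ⋃ n, ann n := by
    apply Set.Subset.antisymm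
    · intro w hw
      rw [mem_ball_zero_iff] at hw
      obtain ⟨n, hn1, hn2⟩ := exists_nat_pow_near_of_lt_one (x := 1 - ‖w‖) (y := 1 / 2)
        (by linarith) (by linarith [norm_nonneg w]) (by norm_num) (by norm_num)
      exact Set.mem_iUnion.2 ⟨n, hn1, hn2⟩
    · exact Set.iUnion_subset hann
  have hsum : HasSum (fun n => ∫ w in ann n, ‖G w‖ ^ 2 ∂μ) (∫ w in ball (0 : ℂ) 1, ‖G w‖ ^ 2 ∂μ) := by
    rw [hunion]
    apply hasSum_integral_iUnion measurableSet_ann
    · intro a b hab
      exact ann_disjoint hab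
    · rw [← hunion]; exact hintb
  have htend := hsum.tendsto_sum_nat
  refine le_of_tendsto (htend.comp (tendsto_add_atTop_nat 1)) ?_
  exact Filter.Eventually.of_forall (fun N => embedding_finite hA hbox hG N)

end Pool.Agent.CompToeplitz
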