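import Pool.Agent.CompToeplitz.Kernel

/-!
# Integrals against the Poisson kernel, bounded by averages over many scales
-/

open Complex MeasureTheory Metric Set Real Filter Topology

namespace Pool.Agent.CompToeplitz

lemma integral_poisson_le {h : ℝ → ℝ} (hnn : ∀ t, 0 ≤ h t) (hint : LocallyIntegrable h volume)
    {r θ : ℝ} {n : ℕ} (hr : 0 ≤ r) (hr1 : (1 / 2 : ℝ) ^ (n + 1) < 1 - r)
    (hr2 : 1 - r ≤ (1 / 2 : ℝ) ^ n) :
    ∫ t in (θ - 1 / 2)..(θ - 1 / 2) + 1, poissonKernel 0 (r * ee θ) (ee t) * h t ≤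
      4 * ∑ l ∈ Finset.range (n + 1), (1 / 4 : ℝ) ^ (n - l) * 2 ^ n *
        ∫ t in Set.Icc (θ - (1 / 2) ^ l) (θ + (1 / 2) ^ l), h t := by
  have hpos : (0 : ℝ) < (1 / 2) ^ (n + 1) := by positivity
  have hwn : ‖(r : ℂ) * ee θ‖ < 1 := by
    rw [norm_mul, norm_ee, mul_one, Complex.norm_real, Real.norm_eq_abs, abs_of_nonneg hr]
    linarith
  have hcont := continuous_poissonKernel hwn
  have hI : ∀ a b : ℝ, IntegrableOn h (Set.Icc a b) volume := fun a b =>
    hint.integrableOn_isCompact isCompact_Icc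
  rw [intervalIntegral.integral_of_le (by linarith)]
  set J : Set ℝ := Set.Ioc (θ - 1 / 2) (θ - 1 / 2 + 1) with hJ
  have hJI : IntegrableOn h J volume := (hI _ _).mono_set Set.Ioc_subset_Icc_self
  have h1 : IntegrableOn (fun t => poissonKernel 0 (r * ee θ) (ee t) * h t) J volume := by
    have := ((hI (θ - 1 / 2) (θ - 1 / 2 + 1)).continuousOn_mul
      hcont.continuousOn isCompact_Icc)
    exact this.mono_set Set.Ioc_subset_Icc_self
  have h2 : ∀ l : ℕ, IntegrableOn (fun t =>
      (Set.Icc (θ - (1 / 2) ^ l) (θ + (1 / 2) ^ l)).indicator (fun _ => (1 : ℝ)) t * h t) J volume := by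
    intro l
    have h3 : (fun t => (Set.Icc (θ - (1 / 2 : ℝ) ^ l) (θ + (1 / 2) ^ l)).indicator
        (fun _ => (1 : ℝ)) t * h t) = (Set.Icc (θ - (1 / 2 : ℝ) ^ l) (θ + (1 / 2) ^ l)).indicator h := by
      ext t
      by_cases ht : t ∈ Set.Icc (θ - (1 / 2 : ℝ) ^ l) (θ + (1 / 2) ^ l)
      · rw [Set.indicator_of_mem ht, Set.indicator_of_mem ht, one_mul]
      · rw [Set.indicator_of_notMem ht, Set.indicator_of_notMem ht, zero_mul]
    rw [h3]
    exact hJI.indicator measurableSet_Icc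
  have h4 : ∫ t in J, poissonKernel 0 (r * ee θ) (ee t) * h t ≤
      ∫ t in J, 4 * ∑ l ∈ Finset.range (n + 1), (1 / 4 : ℝ) ^ (n - l) * 2 ^ n *
        ((Set.Icc (θ - (1 / 2) ^ l) (θ + (1 / 2) ^ l)).indicator (fun _ => (1 : ℝ)) t * h t) := by
    apply setIntegral_mono_on h1
    · apply Integrable.const_mul
      apply integrable_finsetSum
      intro l _
      exact (h2 l).const_mul _
    · exact measurableSet_Ioc
    · intro t ht
      have ht' : |t - θ| ≤ 1 / 2 := by
        rw [abs_le]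
        constructor <;> linarith [ht.1, ht.2]
      have h5 := poissonKernel_le_sum hr hr1 hr2 ht'
      have h6 := mul_le_mul_of_nonneg_right h5 (hnn t)
      refine h6.trans (le_of_eq ?_)
      rw [mul_assoc, Finset.sum_mul]
      congr 1
      apply Finset.sum_congr rfl
      intro l _
      ring
  refine h4.trans ?_
  rw [integral_const_mul]
  gcongr
  rw [integral_finsetSum _ (fun l _ => (h2 l).const_mul _)]
  apply Finset.sum_le_sum
  intro l _
  rw [integral_const_mul]
  gcongr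
  have h3 : (fun t => (Set.Icc (θ - (1 / 2 : ℝ) ^ l) (θ + (1 / 2) ^ l)).indicator
        (fun _ => (1 : ℝ)) t * h t) = (Set.Icc (θ - (1 / 2 : ℝ) ^ l) (θ + (1 / 2) ^ l)).indicator h := by
    ext t
    by_cases ht : t ∈ Set.Icc (θ - (1 / 2 : ℝ) ^ l) (θ + (1 / 2) ^ l)
    · rw [Set.indicator_of_mem ht, Set.indicator_of_mem ht, one_mul]
    · rw [Set.indicator_of_notMem ht, Set.indicator_of_notMem ht, zero_mul]
  rw [h3, setIntegral_indicator measurableSet_Icc]
  apply setIntegral_mono_set (hI _ _)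
  · exact Filter.Eventually.of_forall (fun t => hnn t)
  · exact (Set.inter_subset_right).eventuallyLE

end Pool.Agent.CompToeplitz
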