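import Pool.Agent.CompToeplitz.Littlewood
import Pool.Agent.CompToeplitz.KernelInt

/-!
# Fatou's theorem: radial limits of `H²` functions
-/

open Complex MeasureTheory Metric Set Real Filter Topology AddCircle
open scoped ENNReal ComplexConjugate

namespace Pool.Agent.CompToeplitz

/-- The `L²` boundary function, as a function on the real line of period one. -/
lemma exists_boundary_L1 (f : H2) : ∃ g : ℝ → ℂ, Function.Periodic g 1 ∧
    IntervalIntegrable g volume 0 1 ∧
    Tendsto (fun N => ∫ t in (0 : ℝ)..1, ‖(∑ n ∈ Finset.range N, f n * ee t ^ n) - g t‖) atTop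
      (𝓝 0) := by
  set v : ℕ → Lp ℂ 2 (haarAddCircle (T := (1 : ℝ))) := fun n => fourierLp 2 (n : ℤ) with hv
  have hvo : Orthonormal ℂ v := by
    have := (orthonormal_fourier (T := (1 : ℝ))).comp (fun n : ℕ => (n : ℤ)) Nat.cast_injective
    exact this
  have hsum : Summable (fun n => f n • v n) := by
    have h1 := (hvo.orthogonalFamily.summable_iff_norm_sq_summable (fun n => f n)).2 (H2.summable f)
    simpa using h1
  set G : Lp ℂ 2 (haarAddCircle (T := (1 : ℝ))) := ∑' n, f n • v n with hG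
  have htend : Tendsto (fun N => ∑ n ∈ Finset.range N, f n • v n) atTop (𝓝 G) :=
    hsum.hasSum.tendsto_sum_nat
  have hvol : (volume : Measure (AddCircle (1 : ℝ))) = haarAddCircle := by
    rw [volume_eq_smul_haarAddCircle]; simp
  have hL1 : ∀ h : Lp ℂ 2 (haarAddCircle (T := (1 : ℝ))), Integrable h haarAddCircle := by
    intro h
    exact (Lp.memLp h).integrable one_le_two
  refine ⟨fun t => G (t : AddCircle (1 : ℝ)), ?_, ?_, ?_⟩
  · intro t
    simp only
    congr 1
    exact AddCircle.coe_add_period 1 t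
  · have h1 := (AddCircle.measurePreserving_mk (1 : ℝ) 0)
    have h2 : Integrable G (volume : Measure (AddCircle (1 : ℝ))) := by
      rw [hvol]; exact hL1 G
    have h3 := h1.integrable_comp_of_integrable h2
    rw [zero_add] at h3
    rw [intervalIntegrable_iff_integrableOn_Ioc_of_le zero_le_one]
    exact h3
  · have hdiff : Tendsto (fun N => ‖(∑ n ∈ Finset.range N, f n • v n) - G‖) atTop (𝓝 0) := by
      have := (htend.sub_const G).norm
      simpa using this
    refine squeeze_zero (fun N => ?_) (fun N => ?_) hdiff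
    · apply intervalIntegral.integral_nonneg zero_le_one
      intro t _
      positivity
    · -- transfer to the circle
      set P : Lp ℂ 2 (haarAddCircle (T := (1 : ℝ))) := ∑ n ∈ Finset.range N, f n • v n with hP
      have hPae : ∀ᵐ x ∂(haarAddCircle (T := (1 : ℝ))),
          P x = ∑ n ∈ Finset.range N, f n * fourier (n : ℤ) x := by
        have h1 : ∀ n : ℕ, ∀ᵐ x ∂(haarAddCircle (T := (1 : ℝ))),
            (f n • v n) x = f n * fourier (n : ℤ) x := by
          intro n
          filter_upwards [Lp.coeFn_smul (f n) (v n),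
            coeFn_fourierLp (T := (1 : ℝ)) 2 (n : ℤ)] with x hx1 hx2
          rw [hx1, Pi.smul_apply, smul_eq_mul, hv]
          simp only
          rw [hx2]
        have h2 := Lp.coeFn_finsetSum (Finset.range N) (fun n => f n • v n)
        have h3 : ∀ᵐ x ∂(haarAddCircle (T := (1 : ℝ))), ∀ n ∈ Finset.range N,
            (f n • v n) x = f n * fourier (n : ℤ) x := by
          rw [Filter.eventually_all_finset]
          intro n _
          exact h1 n
        filter_upwards [h2, h3] with x hx1 hx2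
        rw [hP, hx1, Finset.sum_apply]
        exact Finset.sum_congr rfl hx2
      have h1 : ∫ t in (0 : ℝ)..1, ‖(∑ n ∈ Finset.range N, f n * ee t ^ n)
          - G (t : AddCircle (1 : ℝ))‖
          = ∫ x, ‖(∑ n ∈ Finset.range N, f n * fourier (n : ℤ) x) - G x‖
            ∂(haarAddCircle (T := (1 : ℝ))) := by
        have hgen : ∀ H : AddCircle (1 : ℝ) → ℝ, ∫ t in (0 : ℝ)..1, H (t : AddCircle (1 : ℝ))
            = ∫ x, H x ∂(haarAddCircle (T := (1 : ℝ))) := by
          intro H
          have := AddCircle.intervalIntegral_preimage (1 : ℝ) 0 H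
          rw [zero_add] at this
          rw [this, hvol]
        have := hgen (fun x : AddCircle (1 : ℝ) =>
            ‖(∑ n ∈ Finset.range N, f n * fourier (n : ℤ) x) - G x‖)
        rw [← this]
        congr 1
        ext t
        congr 2
        apply Finset.sum_congr rfl
        intro n _
        rw [fourier_coe_apply, ee_pow]
        congr 2
        push_cast
        ring
      rw [h1]
      have h2 : ∫ x, ‖(∑ n ∈ Finset.range N, f n * fourier (n : ℤ) x) - G x‖
            ∂(haarAddCircle (T := (1 : ℝ))) = ∫ x, ‖(P - G) x‖ ∂(haarAddCircle (T := (1 : ℝ))) := by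
        apply integral_congr_ae
        filter_upwards [hPae, Lp.coeFn_sub P G] with x hx1 hx2
        rw [hx2, Pi.sub_apply, hx1]
      rw [h2]
      -- L¹ ≤ L²
      have h3 : ∫ x, ‖(P - G) x‖ ∂(haarAddCircle (T := (1 : ℝ))) = (eLpNorm (P - G : Lp ℂ 2 _) 1
          (haarAddCircle (T := (1 : ℝ)))).toReal := by
        rw [eLpNorm_one_eq_lintegral_enorm, integral_norm_eq_lintegral_enorm]
        exact (Lp.aestronglyMeasurable (P - G))
      rw [h3, Lp.norm_def]
      apply ENNReal.toReal_mono (Lp.eLpNorm_ne_top _)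
      exact eLpNorm_le_eLpNorm_of_exponent_le one_le_two (Lp.aestronglyMeasurable (P - G))

lemma periodic_mul_ker {w : ℂ} {g : ℝ → ℂ} (hg : Function.Periodic g 1) :
    Function.Periodic (fun t => (poissonKernel 0 w (ee t) : ℂ) * g t) 1 := by
  intro t
  simp only [ee_periodic t, hg t]

/-- Poisson representation by the boundary function. -/
lemma poisson_repr (f : H2) {g : ℝ → ℂ} (hgp : Function.Periodic g 1)
    (hgi : IntervalIntegrable g volume 0 1)
    (hlim : Tendsto (fun N => ∫ t in (0 : ℝ)..1, ‖(∑ n ∈ Finset.range N, f n * ee t ^ n) - g t‖)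
      atTop (𝓝 0)) {w : ℂ} (hw : ‖w‖ < 1) (a : ℝ) :
    ∫ t in a..a + 1, (poissonKernel 0 w (ee t) : ℂ) * g t = ev f w := by
  rw [(periodic_mul_ker hgp).intervalIntegral_add_eq a 0, zero_add]
  have hcont := continuous_poissonKernel hw
  have hcont' : Continuous (fun t : ℝ => (poissonKernel 0 w (ee t) : ℂ)) :=
    Complex.continuous_ofReal.comp hcont
  have hpoly : ∀ N : ℕ, Continuous (fun t : ℝ => ∑ n ∈ Finset.range N, f n * ee t ^ n) := by
    intro N
    have := continuous_ee
    fun_prop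
  set K : ℝ := (1 + ‖w‖) / (1 - ‖w‖) with hK
  have hsN : ∀ N : ℕ, ∑ n ∈ Finset.range N, f n * w ^ n
      = ∫ t in (0 : ℝ)..1, (poissonKernel 0 w (ee t) : ℂ) *
        ∑ n ∈ Finset.range N, f n * ee t ^ n := by
    intro N
    have hd : DiffContOnCl ℂ (fun z : ℂ => ∑ n ∈ Finset.range N, f n * z ^ n) (ball 0 1) := by
      apply Differentiable.diffContOnCl
      fun_prop
    have := poisson_formula hd hw 0
    rw [zero_add] at this
    exact this.symm
  have hint : IntervalIntegrable (fun t => (poissonKernel 0 w (ee t) : ℂ) * g t) volume 0 1 :=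
    hgi.continuousOn_mul hcont'.continuousOn
  have h1 : Tendsto (fun N : ℕ => ∑ n ∈ Finset.range N, f n * w ^ n) atTop
      (𝓝 (∫ t in (0 : ℝ)..1, (poissonKernel 0 w (ee t) : ℂ) * g t)) := by
    rw [tendsto_iff_norm_sub_tendsto_zero]
    have h2 : Tendsto (fun N : ℕ => K *
        ∫ t in (0 : ℝ)..1, ‖(∑ n ∈ Finset.range N, f n * ee t ^ n) - g t‖) atTop (𝓝 0) := by
      simpa using hlim.const_mul K
    refine squeeze_zero (fun _ => norm_nonneg _) (fun N => ?_) h2
    have hi : IntervalIntegrable (fun t => (poissonKernel 0 w (ee t) : ℂ) *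
        ∑ n ∈ Finset.range N, f n * ee t ^ n) volume 0 1 :=
      (hcont'.mul (hpoly N)).intervalIntegrable _ _
    rw [hsN, ← intervalIntegral.integral_sub hi hint, ← intervalIntegral.integral_const_mul]
    refine (intervalIntegral.norm_integral_le_integral_norm zero_le_one).trans ?_
    apply intervalIntegral.integral_mono_on zero_le_one
    · exact (hi.sub hint).norm
    · exact ((((hpoly N).intervalIntegrable _ _).sub hgi).norm).const_mul K
    · intro t _
      rw [← mul_sub, norm_mul, Complex.norm_real, Real.norm_of_nonneg (poissonKernel_nonneg hw t)]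
      gcongr
      exact poissonKernel_le hw t
  have h3 : Tendsto (fun N : ℕ => ∑ n ∈ Finset.range N, f n * w ^ n) atTop (𝓝 (ev f w)) :=
    (ev_summable f hw).hasSum.tendsto_sum_nat
  exact tendsto_nhds_unique h1 h3

/-- Discrete convolution of a null sequence with a geometric one. -/
lemma tendsto_conv {ω : ℕ → ℝ} (hω : Tendsto ω atTop (𝓝 0)) (h0 : ∀ l, 0 ≤ ω l) :
    Tendsto (fun n : ℕ => ∑ l ∈ Finset.range (n + 1), (1 / 2 : ℝ) ^ (n - l) * ω l) atTop (𝓝 0) := by
  set u : ℕ → ℝ := fun n => ∑ l ∈ Finset.range (n + 1), (1 / 2 : ℝ) ^ (n - l) * ω l with hu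
  have hrec : ∀ n, u (n + 1) = u n / 2 + ω (n + 1) := by
    intro n
    simp only [hu]
    rw [Finset.sum_range_succ, Nat.sub_self, pow_zero, one_mul]
    congr 1
    rw [Finset.sum_div]
    apply Finset.sum_congr rfl
    intro l hl
    have hl' : l ≤ n := by
      have := Finset.mem_range.1 hl
      omega
    have : n + 1 - l = (n - l) + 1 := by omega
    rw [this, pow_succ]
    ring
  have hu0 : ∀ n, 0 ≤ u n := fun n => Finset.sum_nonneg (fun l _ => mul_nonneg (by positivity) (h0 l))
  rw [Metric.tendsto_atTop]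
  intro ε hε
  obtain ⟨L, hL⟩ := (Metric.tendsto_atTop.1 hω) (ε / 4) (by positivity)
  have hb : ∀ k, u (L + k) ≤ (1 / 2) ^ k * u L + ε / 2 := by
    intro k
    induction k with
    | zero => simp only [add_zero, pow_zero, one_mul]; linarith
    | succ k ih =>
      rw [← add_assoc, hrec]
      have h1 := hL (L + k + 1) (by omega)
      rw [Real.dist_eq, sub_zero, abs_of_nonneg (h0 _)] at h1
      rw [pow_succ]
      nlinarith
  have hg : Tendsto (fun k : ℕ => (1 / 2 : ℝ) ^ k * u L) atTop (𝓝 0) := by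
    simpa using (tendsto_pow_atTop_nhds_zero_of_lt_one (by norm_num : (0 : ℝ) ≤ 1 / 2)
      (by norm_num)).mul_const (u L)
  obtain ⟨K, hK⟩ := (Metric.tendsto_atTop.1 hg) (ε / 2) (by positivity)
  refine ⟨L + K, fun n hn => ?_⟩
  obtain ⟨k, rfl⟩ := Nat.exists_eq_add_of_le hn
  rw [Real.dist_eq, sub_zero, abs_of_nonneg (hu0 _)]
  have h1 := hK (K + k) (by omega)
  rw [Real.dist_eq, sub_zero, abs_of_nonneg (mul_nonneg (by positivity) (hu0 _))] at h1
  have h2 := hb (K + k)
  rw [← add_assoc] at h2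
  linarith

/-- **Fatou's theorem** for `H²`. -/
theorem fatou (f : H2) : ∃ g : ℝ → ℂ, ∀ᵐ θ : ℝ,
    Tendsto (fun r : ℝ => ev f (r * ee θ)) (𝓝[<] 1) (𝓝 (g θ)) := by
  obtain ⟨g, hgp, hgi, hlim⟩ := exists_boundary_L1 f
  refine ⟨g, ?_⟩
  have hII : ∀ a b : ℝ, IntervalIntegrable g volume a b :=
    hgp.intervalIntegrable₀ one_ne_zero hgi
  have hLI : LocallyIntegrable g volume := by
    rw [MeasureTheory.locallyIntegrable_iff]
    intro k hk
    obtain ⟨R, hR⟩ := hk.isBounded.subset_closedBall 0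
    have h1 : IntegrableOn g (Set.Icc (-|R|) (|R|)) volume := by
      have := hII (-|R|) (|R|)
      rw [intervalIntegrable_iff_integrableOn_Icc_of_le (by linarith [abs_nonneg R])] at this
      exact this
    apply h1.mono_set
    intro x hx
    have := hR hx
    rw [mem_closedBall, Real.dist_eq, sub_zero] at this
    rw [Set.mem_Icc, ← abs_le]
    exact this.trans (le_abs_self R)
  filter_upwards [IsUnifLocDoublingMeasure.ae_tendsto_average_norm_sub (μ := volume) hLI 1]
    with θ hθ
  set ω : ℕ → ℝ := fun l => ⨍ y in closedBall θ ((1 / 2 : ℝ) ^ l), ‖g y - g θ‖ with hω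
  have hω0 : ∀ l, 0 ≤ ω l := by
    intro l
    simp only [hω]
    rw [MeasureTheory.average_eq]
    apply smul_nonneg
    · positivity
    · exact integral_nonneg (fun _ => norm_nonneg _)
  have hωlim : Tendsto ω atTop (𝓝 0) := by
    apply hθ (fun _ => θ) (fun l : ℕ => (1 / 2 : ℝ) ^ l)
    · rw [tendsto_nhdsWithin_iff]
      refine ⟨tendsto_pow_atTop_nhds_zero_of_lt_one (by norm_num) (by norm_num), ?_⟩
      exact Filter.Eventually.of_forall (fun l => by
        change (0 : ℝ) < (1 / 2) ^ l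
        positivity)
    · refine Filter.Eventually.of_forall (fun l => ?_)
      apply mem_closedBall_self
      positivity
  have hωint : ∀ l : ℕ, ∫ y in Set.Icc (θ - (1 / 2 : ℝ) ^ l) (θ + (1 / 2) ^ l), ‖g y - g θ‖
      = 2 * (1 / 2) ^ l * ω l := by
    intro l
    simp only [hω]
    rw [MeasureTheory.average_eq, Real.closedBall_eq_Icc]
    rw [MeasureTheory.measureReal_restrict_apply_univ]
    rw [MeasureTheory.measureReal_def, Real.volume_Icc, ENNReal.toReal_ofReal
      (by have : (0 : ℝ) < (1 / 2) ^ l := by positivity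
          linarith)]
    have h1 : θ + (1 / 2 : ℝ) ^ l - (θ - (1 / 2) ^ l) = 2 * (1 / 2) ^ l := by ring
    rw [h1, smul_eq_mul, ← mul_assoc, mul_inv_cancel₀ (by positivity), one_mul]
  have hconv := tendsto_conv hωlim hω0
  rw [Metric.tendsto_nhdsWithin_nhds]
  intro ε hε
  obtain ⟨N, hN⟩ := (Metric.tendsto_atTop.1 hconv) (ε / 8) (by positivity)
  refine ⟨(1 / 2) ^ N, by positivity, fun {r} hr hrd => ?_⟩
  rw [Set.mem_Iio] at hr
  rw [Real.dist_eq, abs_sub_comm, abs_of_pos (by linarith)] at hrd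
  have hN1 : (1 / 2 : ℝ) ^ N ≤ 1 := pow_le_one₀ (by norm_num) (by norm_num)
  have hr0 : 0 ≤ r := by linarith
  obtain ⟨n, hn1, hn2⟩ := exists_nat_pow_near_of_lt_one (x := 1 - r) (y := (1 / 2 : ℝ))
    (by linarith) (by linarith) (by norm_num) (by norm_num)
  have hNn : N ≤ n := by
    by_contra hcon
    push Not at hcon
    have h1 : (1 / 2 : ℝ) ^ N ≤ (1 / 2) ^ (n + 1) :=
      pow_le_pow_of_le_one (by norm_num) (by norm_num) (by omega)
    linarith
  have hwn : ‖(r : ℂ) * ee θ‖ < 1 := by
    rw [norm_r_ee hr0]; exact hr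
  have h1 := poisson_repr f hgp hgi hlim hwn (θ - 1 / 2)
  have h2 : ∫ t in (θ - 1 / 2)..(θ - 1 / 2) + 1,
      (poissonKernel 0 ((r : ℂ) * ee θ) (ee t) : ℂ) * g θ = g θ := by
    rw [intervalIntegral.integral_mul_const, intervalIntegral.integral_ofReal,
      integral_poissonKernel hwn, Complex.ofReal_one, one_mul]
  have hcont := continuous_poissonKernel hwn
  have hcont' : Continuous (fun t : ℝ => (poissonKernel 0 ((r : ℂ) * ee θ) (ee t) : ℂ)) :=
    Complex.continuous_ofReal.comp hcont
  rw [dist_eq_norm]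
  have h3 : ev f (r * ee θ) - g θ = ∫ t in (θ - 1 / 2)..(θ - 1 / 2) + 1,
      (poissonKernel 0 ((r : ℂ) * ee θ) (ee t) : ℂ) * (g t - g θ) := by
    have hi1 : IntervalIntegrable (fun t => (poissonKernel 0 ((r : ℂ) * ee θ) (ee t) : ℂ) * g t)
        volume (θ - 1 / 2) ((θ - 1 / 2) + 1) := (hII _ _).continuousOn_mul hcont'.continuousOn
    have hi2 : IntervalIntegrable (fun t => (poissonKernel 0 ((r : ℂ) * ee θ) (ee t) : ℂ) * g θ)
        volume (θ - 1 / 2) ((θ - 1 / 2) + 1) := (hcont'.mul continuous_const).intervalIntegrable _ _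
    rw [← h1]
    conv_lhs => rw [← h2]
    rw [← intervalIntegral.integral_sub hi1 hi2]
    congr 1
    ext t
    ring
  have h4 : ‖ev f (r * ee θ) - g θ‖ ≤ ∫ t in (θ - 1 / 2)..(θ - 1 / 2) + 1,
      poissonKernel 0 ((r : ℂ) * ee θ) (ee t) * ‖g t - g θ‖ := by
    rw [h3]
    refine (intervalIntegral.norm_integral_le_integral_norm (by linarith)).trans (le_of_eq ?_)
    congr 1
    ext t
    rw [norm_mul, Complex.norm_real, Real.norm_of_nonneg (poissonKernel_nonneg hwn t)]
  have hLI2 : LocallyIntegrable (fun t => ‖g t - g θ‖) volume := by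
    have hLI3 : LocallyIntegrable (fun t => g t - g θ) volume :=
      hLI.sub (locallyIntegrable_const (g θ))
    intro x
    obtain ⟨s, hs, hi⟩ := hLI3 x
    exact ⟨s, hs, hi.norm⟩
  have h5 := integral_poisson_le (fun t => norm_nonneg (g t - g θ)) hLI2 hr0 hn1 hn2 (θ := θ)
  have h6 : 4 * ∑ l ∈ Finset.range (n + 1), (1 / 4 : ℝ) ^ (n - l) * 2 ^ n *
        ∫ t in Set.Icc (θ - (1 / 2 : ℝ) ^ l) (θ + (1 / 2) ^ l), ‖g t - g θ‖
      = 8 * ∑ l ∈ Finset.range (n + 1), (1 / 2 : ℝ) ^ (n - l) * ω l := by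
    rw [Finset.mul_sum, Finset.mul_sum]
    apply Finset.sum_congr rfl
    intro l hl
    have hl' : l ≤ n := by
      have := Finset.mem_range.1 hl
      omega
    rw [hωint]
    obtain ⟨k, rfl⟩ := Nat.exists_eq_add_of_le hl'
    have e1 : l + k - l = k := by omega
    rw [e1, pow_add (2 : ℝ)]
    have e2 : (1 / 4 : ℝ) ^ k * 2 ^ k = (1 / 2) ^ k := by
      rw [← mul_pow]; norm_num
    have e3 : (2 : ℝ) ^ l * (1 / 2) ^ l = 1 := by
      rw [← mul_pow]; norm_num
    calc 4 * ((1 / 4 : ℝ) ^ k * (2 ^ l * 2 ^ k) * (2 * (1 / 2) ^ l * ω l))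
        = 8 * (((1 / 4 : ℝ) ^ k * 2 ^ k) * (2 ^ l * (1 / 2) ^ l) * ω l) := by ring
      _ = 8 * ((1 / 2) ^ k * ω l) := by rw [e2, e3]; ring
  rw [h6] at h5
  have h7 := hN n hNn
  rw [Real.dist_eq, sub_zero] at h7
  have h8 := le_abs_self (∑ l ∈ Finset.range (n + 1), (1 / 2 : ℝ) ^ (n - l) * ω l)
  linarith

end Pool.Agent.CompToeplitz
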