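import Mathlib

/-!
# The Poisson kernel on the circle, in the parametrisation `t ↦ exp (2 π i t)`
-/

open Complex MeasureTheory Metric Set Real Filter Topology

namespace Pool.Agent.CompToeplitz

/-- The point `exp (2 π i t)` of the unit circle. -/
noncomputable def ee (t : ℝ) : ℂ := Complex.exp (2 * π * t * Complex.I)

@[simp] lemma norm_ee (t : ℝ) : ‖ee t‖ = 1 := by
  unfold ee
  have : (2 * π * t * Complex.I : ℂ) = ((2 * π * t : ℝ) : ℂ) * Complex.I := by push_cast; ring
  rw [this, Complex.norm_exp_ofReal_mul_I]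

lemma ee_ne_zero (t : ℝ) : ee t ≠ 0 := by
  intro h
  have := norm_ee t
  rw [h] at this
  simp at this

lemma continuous_ee : Continuous ee := by
  unfold ee
  fun_prop

lemma measurable_ee : Measurable ee := continuous_ee.measurable

lemma ee_periodic : Function.Periodic ee 1 := by
  intro t
  unfold ee
  have : (2 * π * ((t + 1 : ℝ) : ℂ) * Complex.I : ℂ) = 2 * π * t * Complex.I + 2 * π * Complex.I := by
    push_cast; ring
  rw [this, Complex.exp_add, Complex.exp_two_pi_mul_I, mul_one]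

lemma ee_eq_circleMap (r t : ℝ) : (r : ℂ) * ee t = circleMap 0 r (2 * π * t) := by
  unfold ee circleMap
  push_cast
  ring

lemma circleAverage_eq {E : Type*} [NormedAddCommGroup E] [NormedSpace ℝ E] (f : ℂ → E)
    (r a : ℝ) : circleAverage f 0 r = ∫ t in a..a + 1, f (r * ee t) := by
  have h1 : ∫ t in a..a + 1, f (r * ee t) = ∫ t in (0 : ℝ)..0 + 1, f (r * ee t) := by
    apply Function.Periodic.intervalIntegral_add_eq
    intro t
    simp only [ee_periodic t]
  rw [h1, circleAverage_def]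
  simp only [ee_eq_circleMap, zero_add]
  rw [intervalIntegral.integral_comp_mul_left (fun θ => f (circleMap 0 r θ)) (by positivity)]
  simp

/-- Poisson formula. -/
lemma poisson_formula {G : ℂ → ℂ} (hG : DiffContOnCl ℂ G (ball 0 1)) {w : ℂ} (hw : ‖w‖ < 1)
    (a : ℝ) : ∫ t in a..a + 1, (poissonKernel 0 w (ee t) : ℂ) * G (ee t) = G w := by
  have h1 := hG.circleAverage_poissonKernel_smul (w := w) (by simpa using hw)
  rw [circleAverage_eq _ 1 a] at h1
  simpa using h1

lemma poissonKernel_nonneg {w : ℂ} (hw : ‖w‖ < 1) (t : ℝ) : 0 ≤ poissonKernel 0 w (ee t) := by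
  rw [poissonKernel_def]
  simp only [sub_zero, norm_ee]
  have : ‖w‖ ^ 2 ≤ 1 := by
    have := norm_nonneg w
    nlinarith
  exact div_nonneg (by linarith) (by positivity)

lemma continuous_poissonKernel {w : ℂ} (hw : ‖w‖ < 1) :
    Continuous (fun t => poissonKernel 0 w (ee t)) := by
  simp only [poissonKernel_def, sub_zero, norm_ee]
  refine Continuous.div (by fun_prop) ?_ ?_
  · exact (((continuous_ee.sub continuous_const).norm).pow 2)
  · intro t
    have h1 : ee t - w ≠ 0 := by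
      intro h
      rw [sub_eq_zero] at h
      rw [← h, norm_ee] at hw
      exact lt_irrefl _ hw
    positivity

lemma integral_poissonKernel {w : ℂ} (hw : ‖w‖ < 1) (a : ℝ) :
    ∫ t in a..a + 1, poissonKernel 0 w (ee t) = 1 := by
  have h1 := poisson_formula (G := fun _ => 1) (by
    exact diffContOnCl_const) hw a
  simp only [mul_one] at h1
  rw [intervalIntegral.integral_ofReal] at h1
  exact_mod_cast h1

/-- Lower bound for the distance on the circle. -/
lemma normSq_ee_sub (r t θ : ℝ) :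
    ‖ee t - r * ee θ‖ ^ 2 = (1 - r) ^ 2 + 4 * r * Real.sin (π * (t - θ)) ^ 2 := by
  have h1 : ee t - r * ee θ = ee θ * (ee (t - θ) - r) := by
    have : ee t = ee θ * ee (t - θ) := by
      unfold ee
      rw [← Complex.exp_add]
      congr 1
      push_cast
      ring
    rw [this]; ring
  rw [h1, norm_mul, norm_ee, one_mul]
  have h2 : ee (t - θ) = ⟨Real.cos (2 * (π * (t - θ))), Real.sin (2 * (π * (t - θ)))⟩ := by
    unfold ee
    have : (2 * π * ((t - θ : ℝ) : ℂ) * Complex.I : ℂ)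
        = ((2 * (π * (t - θ)) : ℝ) : ℂ) * Complex.I := by push_cast; ring
    rw [this, Complex.exp_mul_I]
    apply Complex.ext
    · simp [Complex.cos_ofReal_re, -Complex.ofReal_mul]
    · simp [Complex.sin_ofReal_re, -Complex.ofReal_mul]
  rw [h2, ← Complex.normSq_eq_norm_sq, Complex.normSq_apply]
  simp only [Complex.sub_re, Complex.sub_im, Complex.ofReal_re, Complex.ofReal_im, sub_zero]
  have h3 := Real.cos_sq_add_sin_sq (2 * (π * (t - θ)))
  have h4 := Real.cos_two_mul (π * (t - θ))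
  have h5 := Real.cos_sq_add_sin_sq (π * (t - θ))
  linear_combination h3 - 2 * r * h4 - 4 * r * h5

lemma poissonKernel_le_of_far {r t θ : ℝ} (hr : 1 / 2 ≤ r) (hr1 : r < 1)
    (ht : |t - θ| ≤ 1 / 2) (h0 : t ≠ θ) :
    poissonKernel 0 (r * ee θ) (ee t) ≤ (1 - r) / (4 * (t - θ) ^ 2) := by
  rw [poissonKernel_def]
  simp only [sub_zero, norm_ee, norm_mul, Complex.norm_real, mul_one, Real.norm_eq_abs]
  rw [normSq_ee_sub]
  have habs : |r| = r := abs_of_nonneg (by linarith)
  rw [habs]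
  have hx : 0 < (t - θ) ^ 2 := by
    have : t - θ ≠ 0 := sub_ne_zero.2 h0
    positivity
  have hsin : (2 * (t - θ)) ^ 2 ≤ Real.sin (π * (t - θ)) ^ 2 := by
    have h1 : 2 * |t - θ| ≤ Real.sin (π * |t - θ|) := by
      have h2 := Real.mul_le_sin (x := π * |t - θ|) (by positivity) (by nlinarith [Real.pi_pos])
      have h3 : 2 / π * (π * |t - θ|) = 2 * |t - θ| := by
        field_simp
      rwa [h3] at h2
    have h4 : Real.sin (π * |t - θ|) ^ 2 = Real.sin (π * (t - θ)) ^ 2 := by
      rcases abs_choice (t - θ) with h | h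
      · rw [h]
      · rw [h, mul_neg, Real.sin_neg, neg_sq]
    rw [← h4]
    have h5 : (2 * (t - θ)) ^ 2 = (2 * |t - θ|) ^ 2 := by
      rw [mul_pow, mul_pow, sq_abs]
    rw [h5]
    gcongr
  have hd : 8 * (t - θ) ^ 2 ≤ (1 - r) ^ 2 + 4 * r * Real.sin (π * (t - θ)) ^ 2 := by
    nlinarith [sq_nonneg (1 - r), sq_nonneg (Real.sin (π * (t - θ)))]
  calc (1 ^ 2 - r ^ 2) / ((1 - r) ^ 2 + 4 * r * Real.sin (π * (t - θ)) ^ 2)
      ≤ (2 * (1 - r)) / (8 * (t - θ) ^ 2) := by
        apply div_le_div₀ (by linarith) (by nlinarith) (by positivity) hd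
    _ = (1 - r) / (4 * (t - θ) ^ 2) := by
        rw [show (8 : ℝ) * (t - θ) ^ 2 = 2 * (4 * (t - θ) ^ 2) by ring, mul_div_mul_left _ _ two_ne_zero]

lemma poissonKernel_le_near {r t θ : ℝ} (hr : 0 ≤ r) (hr1 : r < 1) :
    poissonKernel 0 (r * ee θ) (ee t) ≤ 2 / (1 - r) := by
  rw [poissonKernel_def]
  simp only [sub_zero, norm_ee, norm_mul, Complex.norm_real, mul_one, Real.norm_eq_abs]
  rw [normSq_ee_sub, abs_of_nonneg hr]
  have hd : (1 - r) ^ 2 ≤ (1 - r) ^ 2 + 4 * r * Real.sin (π * (t - θ)) ^ 2 := by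
    have : 0 ≤ 4 * r * Real.sin (π * (t - θ)) ^ 2 := by positivity
    linarith
  have h1 : 0 < 1 - r := by linarith
  calc (1 ^ 2 - r ^ 2) / ((1 - r) ^ 2 + 4 * r * Real.sin (π * (t - θ)) ^ 2)
      ≤ (2 * (1 - r)) / ((1 - r) ^ 2) := by
        apply div_le_div₀ (by linarith) (by nlinarith) (by positivity) hd
    _ = 2 / (1 - r) := by
        rw [sq, mul_div_mul_right _ _ h1.ne']

/-- Domination of the Poisson kernel by a sum over scales. -/
lemma poissonKernel_le_sum {r t θ : ℝ} {n : ℕ} (hr : 0 ≤ r) (hr1 : (1 / 2 : ℝ) ^ (n + 1) < 1 - r)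
    (hr2 : 1 - r ≤ (1 / 2 : ℝ) ^ n) (ht : |t - θ| ≤ 1 / 2) :
    poissonKernel 0 (r * ee θ) (ee t) ≤
      4 * ∑ l ∈ Finset.range (n + 1), (1 / 4 : ℝ) ^ (n - l) * 2 ^ n *
        (Set.Icc (θ - (1 / 2) ^ l) (θ + (1 / 2) ^ l)).indicator (fun _ => (1 : ℝ)) t := by
  have hpos : (0 : ℝ) < (1 / 2) ^ (n + 1) := by positivity
  have hmem : ∀ l : ℕ, t ∈ Set.Icc (θ - (1 / 2 : ℝ) ^ l) (θ + (1 / 2) ^ l) ↔ |t - θ| ≤ (1 / 2) ^ l := by
    intro l
    rw [abs_le, Set.mem_Icc]
    constructor
    · rintro ⟨h1, h2⟩; exact ⟨by linarith, by linarith⟩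
    · rintro ⟨h1, h2⟩; exact ⟨by linarith, by linarith⟩
  have hterm : ∀ l ∈ Finset.range (n + 1), 0 ≤ (1 / 4 : ℝ) ^ (n - l) * 2 ^ n *
        (Set.Icc (θ - (1 / 2) ^ l) (θ + (1 / 2) ^ l)).indicator (fun _ => (1 : ℝ)) t := by
    intro l _
    have : (0 : ℝ) ≤ (Set.Icc (θ - (1 / 2) ^ l) (θ + (1 / 2) ^ l)).indicator (fun _ => (1 : ℝ)) t :=
      Set.indicator_nonneg (fun _ _ => zero_le_one) _
    positivity
  by_cases hnear : |t - θ| ≤ (1 / 2) ^ n
  · -- the single term `l = n` suffices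
    have h1 := Finset.single_le_sum hterm (Finset.self_mem_range_succ n)
    simp only [Nat.sub_self, pow_zero, one_mul] at h1
    rw [Set.indicator_of_mem ((hmem n).2 hnear), mul_one] at h1
    have h2 := poissonKernel_le_near (t := t) (θ := θ) hr (by linarith)
    have h3 : 2 / (1 - r) ≤ 4 * 2 ^ n := by
      rw [div_le_iff₀ (by linarith)]
      calc (2 : ℝ) = 4 * 2 ^ n * (1 / 2) ^ (n + 1) := by
            rw [pow_succ, ← mul_assoc, mul_assoc 4, ← mul_pow]; norm_num
        _ ≤ 4 * 2 ^ n * (1 - r) := by gcongr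
    linarith
  · push Not at hnear
    -- find the scale
    have hex : ∃ l : ℕ, l < n ∧ |t - θ| ≤ (1 / 2) ^ l ∧ (1 / 2) ^ (l + 1) < |t - θ| := by
      by_contra hcon
      push Not at hcon
      have : ∀ l : ℕ, l ≤ n → |t - θ| ≤ (1 / 2) ^ l := by
        intro l
        induction l with
        | zero => intro _; simp only [pow_zero]; linarith
        | succ l ih => intro hl; exact hcon l (by omega) (ih (by omega))
      exact absurd (this n le_rfl) (not_le.2 hnear)
    obtain ⟨l, hln, hl1, hl2⟩ := hex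
    have h1 := Finset.single_le_sum hterm (Finset.mem_range.2 (by omega : l < n + 1))
    rw [Set.indicator_of_mem ((hmem l).2 hl1), mul_one] at h1
    have hn1 : 1 ≤ n := by omega
    have hhalf : 1 / 2 ≤ r := by
      have : (1 / 2 : ℝ) ^ n ≤ (1 / 2) ^ 1 := pow_le_pow_of_le_one (by norm_num) (by norm_num) hn1
      linarith
    have h0 : t ≠ θ := by
      rintro rfl
      simp only [sub_self, abs_zero] at hl2
      exact absurd hl2 (not_lt.2 (by positivity))
    have h2 := poissonKernel_le_of_far hhalf (by linarith) ht h0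
    have h3 : (1 - r) / (4 * (t - θ) ^ 2) ≤ 4 * ((1 / 4 : ℝ) ^ (n - l) * 2 ^ n) := by
      have h4 : ((1 / 2 : ℝ) ^ (l + 1)) ^ 2 ≤ (t - θ) ^ 2 := by
        rw [← sq_abs (t - θ)]
        gcongr
      calc (1 - r) / (4 * (t - θ) ^ 2) ≤ (1 / 2) ^ n / (4 * ((1 / 2 : ℝ) ^ (l + 1)) ^ 2) := by
            apply div_le_div₀ (by positivity) hr2 (by positivity)
            gcongr
        _ = (1 / 4 : ℝ) ^ (n - l) * 2 ^ n := by
            obtain ⟨k, rfl⟩ := Nat.exists_eq_add_of_lt hln
            have h5 : l + k + 1 - l = k + 1 := by omega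
            rw [h5]
            rw [show (1 / 4 : ℝ) = (1 / 2) ^ 2 by norm_num, ← pow_mul, ← pow_mul]
            rw [div_eq_iff (by positivity)]
            rw [show (4 : ℝ) = 2 ^ 2 by norm_num]
            simp only [one_div, inv_pow]
            rw [eq_comm]
            field_simp
            ring
        _ ≤ 4 * ((1 / 4 : ℝ) ^ (n - l) * 2 ^ n) := by
            have : (0 : ℝ) ≤ (1 / 4 : ℝ) ^ (n - l) * 2 ^ n := by positivity
            linarith
    linarith

end Pool.Agent.CompToeplitz
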