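import Pool.Agent.CompToeplitz.Dir1
import Pool.Agent.CompToeplitz.Dir2

/-!
# The reproducing-kernel form of the condition
-/

open Complex MeasureTheory Metric Set Real Filter Topology
open scoped ENNReal ComplexConjugate

namespace Pool.Agent.CompToeplitz

variable {φ : ℂ → ℂ}

lemma ae_circle_of_ae {p : ℂ → Prop} (h : ∀ᵐ t : ℝ, p (ee t)) : ∀ᵐ ζ ∂circleMeasure, p ζ := by
  rw [ae_iff, circleMeasure_apply]
  exact measure_mono_null Set.inter_subset_right h

lemma aemeasurable_radialLimit (hφ : DifferentiableOn ℂ φ (ball 0 1))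
    (hmap : MapsTo φ (ball 0 1) (ball 0 1)) : AEMeasurable (radialLimit φ) circleMeasure := by
  have hsph : circleMeasure.restrict (sphere (0 : ℂ) 1) = circleMeasure := by
    apply Measure.restrict_eq_self_of_ae_mem
    apply ae_circle_of_ae
    refine Filter.Eventually.of_forall (fun t => ?_)
    rw [mem_sphere_zero_iff_norm, norm_ee]
  apply aemeasurable_of_tendsto_metrizable_ae (f := fun (n : ℕ) (ζ : ℂ) =>
    φ ((1 - 1 / ((n : ℝ) + 1) : ℝ) * ζ)) atTop
  · intro n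
    rw [← hsph]
    apply ContinuousOn.aemeasurable _ isClosed_sphere.measurableSet
    apply hφ.continuousOn.comp (by fun_prop)
    intro ζ hζ
    rw [mem_sphere_zero_iff_norm] at hζ
    rw [mem_ball_zero_iff, norm_mul, hζ, mul_one, Complex.norm_real,
      Real.norm_of_nonneg (radius_seq n).1]
    exact (radius_seq n).2
  · apply ae_circle_of_ae
    filter_upwards [ae_tendsto_bdry hφ hmap] with t ht
    exact ht.comp tendsto_radius_seq

lemma nu_eq_map (hφ : DifferentiableOn ℂ φ (ball 0 1))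
    (hmap : MapsTo φ (ball 0 1) (ball 0 1)) :
    nu φ = Measure.map (radialLimit φ) circleMeasure := by
  have h1 := aemeasurable_radialLimit hφ hmap
  have hdef : circleMeasure = Measure.map ee (volume.restrict (Set.Ioc 0 1)) := rfl
  rw [hdef] at h1 ⊢
  rw [AEMeasurable.map_map_of_aemeasurable h1 measurable_ee.aemeasurable]
  rfl

lemma lintegral_nu (hφ : DifferentiableOn ℂ φ (ball 0 1))
    (hmap : MapsTo φ (ball 0 1) (ball 0 1)) {F : ℂ → ℝ≥0∞} (hF : Measurable F) :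
    ∫⁻ ζ in {ζ | ‖radialLimit φ ζ‖ < 1}, F (radialLimit φ ζ) ∂circleMeasure
      = ∫⁻ w in {w | ‖w‖ < 1}, F w ∂(nu φ) := by
  have h1 := aemeasurable_radialLimit hφ hmap
  have hm : MeasurableSet {w : ℂ | ‖w‖ < 1} := measurableSet_lt measurable_norm measurable_const
  rw [nu_eq_map hφ hmap, Measure.restrict_map_of_aemeasurable h1 hm,
    lintegral_map' hF.aemeasurable (h1.mono_measure Measure.restrict_le_self)]
  rfl

lemma measurable_pk (a : ℂ) :
    Measurable (fun w : ℂ => ENNReal.ofReal ((1 - ‖a‖ ^ 2) / ‖1 - starRingEnd ℂ a * w‖ ^ 2)) := by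
  apply ENNReal.measurable_ofReal.comp
  apply Measurable.div measurable_const
  exact ((measurable_const.sub (measurable_id.const_mul _)).norm.pow_const 2)

/-- Distance estimate on a box. -/
lemma box_den {ξ w : ℂ} (hξ : ‖ξ‖ = 1) {h : ℝ} (hh : 0 < h) (hw1 : ‖w‖ < 1) (hw2 : ‖w - ξ‖ < h) :
    ‖1 - conj (((1 - h : ℝ) : ℂ) * ξ) * w‖ ≤ 2 * h := by
  have e1 : 1 - conj (((1 - h : ℝ) : ℂ) * ξ) * w = conj ξ * (ξ - ((1 - h : ℝ) : ℂ) * w) := by
    have e2 : conj ξ * ξ = 1 := by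
      rw [mul_comm, Complex.mul_conj, Complex.normSq_eq_norm_sq, hξ]; simp
    rw [map_mul, Complex.conj_ofReal, mul_sub, e2]
    ring
  rw [e1, norm_mul, RCLike.norm_conj, hξ, one_mul]
  calc ‖ξ - ((1 - h : ℝ) : ℂ) * w‖ = ‖-(w - ξ) + (h : ℂ) * w‖ := by
        congr 1
        push_cast
        ring
    _ ≤ ‖-(w - ξ)‖ + ‖(h : ℂ) * w‖ := norm_add_le _ _
    _ ≤ h + h * 1 := by
        rw [norm_neg, norm_mul, Complex.norm_real, Real.norm_of_nonneg hh.le]
        gcongr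
    _ = 2 * h := by ring

theorem vanishing_of_kernel (hφ : DifferentiableOn ℂ φ (ball 0 1))
    (hmap : MapsTo φ (ball 0 1) (ball 0 1)) (hK : VanishingKernel φ) : VanishingCarleson φ := by
  intro ε hε
  obtain ⟨r, hr1, hr⟩ := hK (ε / 4) (by positivity)
  refine ⟨min (1 - r) (1 / 2), lt_min (by linarith) (by norm_num), fun h hh hhδ ξ hξ => ?_⟩
  have hh1 : h < 1 - r := hhδ.trans_le (min_le_left _ _)
  have hh2 : h < 1 / 2 := hhδ.trans_le (min_le_right _ _)
  set a : ℂ := ((1 - h : ℝ) : ℂ) * ξ with ha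
  have hnorma : ‖a‖ = 1 - h := by
    rw [ha, norm_mul, hξ, mul_one, Complex.norm_real, Real.norm_of_nonneg (by linarith)]
  have h1 := hr a (by rw [hnorma]; linarith) (by rw [hnorma]; linarith)
  rw [lintegral_nu hφ hmap (measurable_pk a)] at h1
  rw [nu_box hφ hmap]
  set B : Set ℂ := {w | ‖w‖ < 1 ∧ ‖w - ξ‖ < h} with hB
  have h2 : ENNReal.ofReal (1 / (4 * h)) * nu φ B ≤ ENNReal.ofReal (ε / 4) := by
    refine le_trans ?_ h1
    calc ENNReal.ofReal (1 / (4 * h)) * nu φ B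
        = ∫⁻ w in B, ENNReal.ofReal (1 / (4 * h)) ∂(nu φ) := by rw [setLIntegral_const]
      _ ≤ ∫⁻ w in B, ENNReal.ofReal ((1 - ‖a‖ ^ 2) / ‖1 - starRingEnd ℂ a * w‖ ^ 2) ∂(nu φ) := by
          apply setLIntegral_mono (measurable_pk a)
          rintro w ⟨hw1, hw2⟩
          apply ENNReal.ofReal_le_ofReal
          have hden := box_den hξ hh hw1 hw2
          rw [← ha] at hden
          have hne : 0 < ‖1 - conj a * w‖ := by
            rw [norm_pos_iff]
            intro h0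
            have h2 : ‖conj a * w‖ = 1 := by
              rw [sub_eq_zero] at h0
              rw [← h0, norm_one]
            rw [norm_mul, RCLike.norm_conj] at h2
            nlinarith [norm_nonneg a, norm_nonneg w]
          rw [hnorma, div_le_div_iff₀ (by positivity) (by positivity)]
          nlinarith [mul_pos hh hh]
      _ ≤ _ := lintegral_mono_set (fun w hw => hw.1)
  have h3 : nu φ B = ENNReal.ofReal (4 * h) * (ENNReal.ofReal (1 / (4 * h)) * nu φ B) := by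
    rw [← mul_assoc, ← ENNReal.ofReal_mul (by positivity), mul_one_div_cancel (by positivity),
      ENNReal.ofReal_one, one_mul]
  rw [h3]
  calc ENNReal.ofReal (4 * h) * (ENNReal.ofReal (1 / (4 * h)) * nu φ B)
      ≤ ENNReal.ofReal (4 * h) * ENNReal.ofReal (ε / 4) := by gcongr
    _ = ENNReal.ofReal (ε * h) := by
        rw [← ENNReal.ofReal_mul (by positivity)]
        congr 1
        ring

theorem kernel_of_isUAT (hφ : DifferentiableOn ℂ φ (ball 0 1))
    (hmap : MapsTo φ (ball 0 1) (ball 0 1)) {C : OpH2} (hC : IsCompOp φ C)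
    (hU : IsUAT (gram C)) : VanishingKernel φ := by
  obtain ⟨L, hL⟩ := hU
  intro ε hε
  have hcau := hL.cauchySeq
  rw [Metric.cauchySeq_iff] at hcau
  obtain ⟨N, hN⟩ := hcau (ε / 4) (by positivity)
  have hdiff : ∀ f : H2, Summable (fun n => ‖f n‖) → ∀ m, N ≤ m →
      (∫ w, gf f N w ∂(nu φ)) - ∫ w, gf f m w ∂(nu φ) ≤ ε / 4 * ‖f‖ ^ 2 := by
    intro f hf m hm
    rw [← norm_comp_sq_nu hφ hmap hC hf N, ← norm_comp_sq_nu hφ hmap hC hf m]
    have h1 := sub_le_norm (C * Mz ^ N) (C * Mz ^ m) f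
    rw [← compress_eq, ← compress_eq] at h1
    have h2 := hN N le_rfl m hm
    rw [dist_eq_norm] at h2
    refine h1.trans ?_
    gcongr
  set d : ℝ := 1 / (4 * (N + 1)) with hd
  have hN1 : (1 : ℝ) ≤ N + 1 := by linarith [(Nat.cast_nonneg N : (0 : ℝ) ≤ N)]
  have hd0 : 0 < d := by positivity
  have hd4 : d * (4 * (N + 1)) = 1 := by rw [hd]; field_simp
  have hd1 : d ≤ 1 / 4 := by nlinarith
  have hpow : (1 / 2 : ℝ) ≤ (1 - d) ^ (2 * N) := by
    have h1 := one_add_mul_le_pow (a := -d) (by linarith) (2 * N)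
    push_cast at h1
    have h2 : (1 : ℝ) + 2 * N * -d ≥ 1 / 2 := by nlinarith
    calc (1 / 2 : ℝ) ≤ 1 + 2 * N * -d := h2
      _ ≤ (1 + -d) ^ (2 * N) := h1
      _ = _ := by ring_nf
  set M : ℝ := (nu φ).real Set.univ with hM
  have hM0 : 0 ≤ M := measureReal_nonneg
  set s : ℝ := ε * d ^ 2 / (4 * (M + 1)) with hs
  have hs0 : 0 < s := by positivity
  refine ⟨1 - s, by linarith, fun a har ha1 => ?_⟩
  rw [lintegral_nu hφ hmap (measurable_pk a)]
  have hB : MeasurableSet {w : ℂ | ‖w‖ < 1} := measurableSet_lt measurable_norm measurable_const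
  have h1 := limit_form hφ hmap (kern_summable a ha1) (N := N) hB
    (fun w hw => hw) (hdiff _ (kern_summable a ha1))
  rw [kern_norm_sq] at h1
  have ha2 : 0 < 1 - ‖a‖ ^ 2 := by nlinarith [norm_nonneg a]
  -- pointwise bound
  have hpt : ∀ w ∈ {w : ℂ | ‖w‖ < 1}, (1 - ‖a‖ ^ 2) / ‖1 - starRingEnd ℂ a * w‖ ^ 2 ≤
      (1 - ‖a‖ ^ 2) * (2 * gf (kern a ha1) N w + (d ^ 2)⁻¹) := by
    intro w hw
    have hw1 : ‖w‖ < 1 := hw
    rw [div_eq_mul_inv]
    apply mul_le_mul_of_nonneg_left _ ha2.le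
    have hev : ‖ev (kern a ha1) w‖ ^ 2 = (‖1 - starRingEnd ℂ a * w‖ ^ 2)⁻¹ := by
      rw [ev_kern a ha1 hw1.le, norm_inv, inv_pow]
    have hg0 := gf_nonneg (kern a ha1) N w
    rcases le_or_gt ‖w‖ (1 - d) with hle | hgt
    · have h2 : d ≤ ‖1 - conj a * w‖ := by
        have h3 := norm_sub_norm_le (1 : ℂ) (conj a * w)
        rw [norm_one, norm_mul, RCLike.norm_conj] at h3
        nlinarith [norm_nonneg a, norm_nonneg w]
      have h3 : (‖1 - starRingEnd ℂ a * w‖ ^ 2)⁻¹ ≤ (d ^ 2)⁻¹ := by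
        apply inv_anti₀ (by positivity)
        gcongr
      linarith
    · have h4 : (1 / 2 : ℝ) ≤ ‖w‖ ^ (2 * N) :=
        hpow.trans (pow_le_pow_left₀ (by linarith) hgt.le _)
      have h5 : 0 ≤ (d ^ 2)⁻¹ := by positivity
      have h6 : (‖1 - starRingEnd ℂ a * w‖ ^ 2)⁻¹ ≤ 2 * gf (kern a ha1) N w := by
        rw [← hev]
        unfold gf
        nlinarith [sq_nonneg ‖ev (kern a ha1) w‖]
      linarith
  have hi : IntegrableOn (fun w => (1 - ‖a‖ ^ 2) * (2 * gf (kern a ha1) N w + (d ^ 2)⁻¹))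
      {w : ℂ | ‖w‖ < 1} (nu φ) :=
    ((((integrable_gf hφ hmap (kern_summable a ha1) N).const_mul 2).add
      (integrable_const _)).const_mul _).integrableOn
  calc ∫⁻ w in {w | ‖w‖ < 1}, ENNReal.ofReal
        ((1 - ‖a‖ ^ 2) / ‖1 - starRingEnd ℂ a * w‖ ^ 2) ∂(nu φ)
      ≤ ∫⁻ w in {w | ‖w‖ < 1}, ENNReal.ofReal
        ((1 - ‖a‖ ^ 2) * (2 * gf (kern a ha1) N w + (d ^ 2)⁻¹)) ∂(nu φ) := by
        apply setLIntegral_mono' hB
        intro w hw
        exact ENNReal.ofReal_le_ofReal (hpt w hw)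
    _ = ENNReal.ofReal (∫ w in {w | ‖w‖ < 1},
        (1 - ‖a‖ ^ 2) * (2 * gf (kern a ha1) N w + (d ^ 2)⁻¹) ∂(nu φ)) := by
        rw [ofReal_integral_eq_lintegral_ofReal hi]
        refine Filter.Eventually.of_forall (fun w => ?_)
        have := gf_nonneg (kern a ha1) N w
        change 0 ≤ (1 - ‖a‖ ^ 2) * (2 * gf (kern a ha1) N w + (d ^ 2)⁻¹)
        positivity
    _ ≤ ENNReal.ofReal ε := by
        apply ENNReal.ofReal_le_ofReal
        rw [integral_const_mul, integral_add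
          ((integrable_gf hφ hmap (kern_summable a ha1) N).const_mul 2).integrableOn
          (integrable_const _).integrableOn, integral_const_mul, setIntegral_const, smul_eq_mul]
        have h2 : (nu φ).real {w : ℂ | ‖w‖ < 1} ≤ M :=
          measureReal_mono (Set.subset_univ _) (measure_ne_top _ _)
        have h3 : (1 - ‖a‖ ^ 2) * (2 * ∫ w in {w : ℂ | ‖w‖ < 1}, gf (kern a ha1) N w ∂(nu φ))
            ≤ ε / 2 := by
          calc (1 - ‖a‖ ^ 2) * (2 * ∫ w in {w : ℂ | ‖w‖ < 1}, gf (kern a ha1) N w ∂(nu φ))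
              ≤ (1 - ‖a‖ ^ 2) * (2 * (ε / 4 * (1 - ‖a‖ ^ 2)⁻¹)) := by gcongr
            _ = ε / 2 := by field_simp; ring
        have h4 : (1 - ‖a‖ ^ 2) * ((nu φ).real {w : ℂ | ‖w‖ < 1} * (d ^ 2)⁻¹) ≤ ε / 2 := by
          have h5 : 1 - ‖a‖ ^ 2 ≤ 2 * s := by nlinarith [norm_nonneg a]
          have h6 : (nu φ).real {w : ℂ | ‖w‖ < 1} ≤ M + 1 := by linarith
          calc (1 - ‖a‖ ^ 2) * ((nu φ).real {w : ℂ | ‖w‖ < 1} * (d ^ 2)⁻¹)
              ≤ (2 * s) * ((M + 1) * (d ^ 2)⁻¹) := by gcongr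
            _ = ε / 2 := by rw [hs]; field_simp; ring
        linarith

end Pool.Agent.CompToeplitz
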