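import Pool.Agent.CompToeplitz.Hardy

/-!
# Littlewood's subordination principle: composition operators are bounded on `H²`
-/

open Complex MeasureTheory Metric Set Real Filter Topology
open scoped ENNReal ComplexConjugate

namespace Pool.Agent.CompToeplitz

lemma poissonKernel_le {w : ℂ} (hw : ‖w‖ < 1) (t : ℝ) :
    poissonKernel 0 w (ee t) ≤ (1 + ‖w‖) / (1 - ‖w‖) := by
  rw [poissonKernel_def]
  simp only [sub_zero, norm_ee]
  have h1 : 0 < 1 - ‖w‖ := by linarith
  have h2 : 1 - ‖w‖ ≤ ‖ee t - w‖ := by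
    have := norm_sub_norm_le (ee t) w
    rwa [norm_ee] at this
  calc (1 ^ 2 - ‖w‖ ^ 2) / ‖ee t - w‖ ^ 2 ≤ ((1 + ‖w‖) * (1 - ‖w‖)) / (1 - ‖w‖) ^ 2 := by
        apply div_le_div₀
        · have := norm_nonneg w; positivity
        · apply le_of_eq; ring
        · positivity
        · gcongr
    _ = (1 + ‖w‖) / (1 - ‖w‖) := by
        rw [sq, mul_div_mul_right _ _ h1.ne']

/-- Subordination for functions analytic in the disc and continuous on the closure. -/
lemma subordination {φ : ℂ → ℂ} (hφ : DifferentiableOn ℂ φ (ball 0 1))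
    (hmap : MapsTo φ (ball 0 1) (ball 0 1)) {G : ℂ → ℂ} (hG : DiffContOnCl ℂ G (ball 0 1))
    {r : ℝ} (hr : 0 ≤ r) (hr1 : r < 1) :
    ∫ t in (0 : ℝ)..1, ‖G (φ (r * ee t))‖ ^ 2 ≤
      (1 + ‖φ 0‖) / (1 - ‖φ 0‖) * ∫ t in (0 : ℝ)..1, ‖G (ee t)‖ ^ 2 := by
  have hcontG := hG.continuousOn
  rw [closure_ball (0 : ℂ) one_ne_zero] at hcontG
  -- the boundary function
  set g : ℂ → ℂ := fun ζ => ((‖G ζ‖ ^ 2 : ℝ) : ℂ) with hg
  have hgc : ContinuousOn g (closedBall 0 1) := by
    apply Complex.continuous_ofReal.comp_continuousOn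
    exact (hcontG.norm).pow 2
  have hgint : CircleIntegrable g 0 1 := by
    apply ContinuousOn.circleIntegrable (by norm_num)
    exact hgc.mono sphere_subset_closedBall
  set H : ℂ → ℂ := fun w => circleAverage (fun ζ => herglotzRieszKernel 0 w ζ • g ζ) 0 1 with hH
  have hHd : DifferentiableOn ℂ H (ball 0 1) :=
    differentiableOn_circleAverage_herglotzRieszKernel_smul hgint
  have hHre : ∀ w : ℂ, ‖w‖ < 1 →
      (H w).re = ∫ t in (0 : ℝ)..1, poissonKernel 0 w (ee t) * ‖G (ee t)‖ ^ 2 := by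
    intro w hw
    have hgint' : CircleIntegrable (fun ζ => ‖G ζ‖ ^ 2) 0 1 := by
      apply ContinuousOn.circleIntegrable (by norm_num)
      exact (((hcontG.norm).pow 2).mono sphere_subset_closedBall)
    have h1 := re_circleAverage_herglotzRieszKernel_smul (g := fun ζ => ‖G ζ‖ ^ 2) hgint'
      (w := w) (by rwa [mem_ball_zero_iff])
    simp only [hH, hg]
    rw [h1, ← poissonKernel_eq_re_herglotzRieszKernel, circleAverage_eq _ 1 0]
    simp
  -- pointwise: `|G(w)|² ≤ Re H(w)`
  have hpt : ∀ w : ℂ, ‖w‖ < 1 → ‖G w‖ ^ 2 ≤ (H w).re := by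
    intro w hw
    rw [hHre w hw]
    have hG2 : DiffContOnCl ℂ (fun z => G z * G z) (ball 0 1) := by
      have := hG.smul hG
      simpa [smul_eq_mul] using this
    have h1 := poisson_formula hG2 hw 0
    have h2 : ‖G w‖ ^ 2 = ‖G w * G w‖ := by rw [norm_mul, sq]
    rw [h2, ← h1]
    rw [zero_add]
    refine (intervalIntegral.norm_integral_le_integral_norm zero_le_one).trans (le_of_eq ?_)
    congr 1
    ext t
    rw [norm_mul, Complex.norm_real, Real.norm_of_nonneg (poissonKernel_nonneg hw t), norm_mul, sq]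
  -- mean value property for `H ∘ φ`
  have hcomp : DifferentiableOn ℂ (fun z => H (φ z)) (ball 0 1) := hHd.comp hφ hmap
  have hmean : circleAverage (fun z => H (φ z)) 0 r = H (φ 0) := by
    rcases hr.eq_or_lt with rfl | hr0
    · simp
    · apply DiffContOnCl.circleAverage
      rw [abs_of_pos hr0]
      apply DifferentiableOn.diffContOnCl
      rw [closure_ball (0 : ℂ) hr0.ne']
      exact hcomp.mono (closedBall_subset_ball hr1)
  rw [circleAverage_eq _ r 0, zero_add] at hmean
  have hmem : ∀ t : ℝ, ‖φ (r * ee t)‖ < 1 := by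
    intro t
    have h1 : (r : ℂ) * ee t ∈ ball (0 : ℂ) 1 := by
      rw [mem_ball_zero_iff, norm_r_ee hr]; exact hr1
    have := hmap h1
    rwa [mem_ball_zero_iff] at this
  have hc1 : Continuous (fun t : ℝ => φ (r * ee t)) := by
    apply hφ.continuousOn.comp_continuous
    · exact continuous_const.mul continuous_ee
    · intro t
      rw [mem_ball_zero_iff, norm_r_ee hr]; exact hr1
  have hc2 : Continuous (fun t : ℝ => H (φ (r * ee t))) := by
    apply hHd.continuousOn.comp_continuous hc1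
    intro t
    rw [mem_ball_zero_iff]; exact hmem t
  have hc3 : Continuous (fun t : ℝ => G (φ (r * ee t))) := by
    apply (hcontG.mono ball_subset_closedBall).comp_continuous hc1
    intro t
    rw [mem_ball_zero_iff]; exact hmem t
  have hφ0 : ‖φ 0‖ < 1 := by
    have := hmap (mem_ball_self (x := (0 : ℂ)) one_pos)
    rwa [mem_ball_zero_iff] at this
  calc ∫ t in (0 : ℝ)..1, ‖G (φ (r * ee t))‖ ^ 2
      ≤ ∫ t in (0 : ℝ)..1, (H (φ (r * ee t))).re := by
        apply intervalIntegral.integral_mono_on zero_le_one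
        · exact (hc3.norm.pow 2).intervalIntegrable _ _
        · exact (Complex.continuous_re.comp hc2).intervalIntegrable _ _
        · intro t _
          exact hpt _ (hmem t)
    _ = (∫ t in (0 : ℝ)..1, H (φ (r * ee t))).re := by
        have := Complex.reCLM.intervalIntegral_comp_comm (hc2.intervalIntegrable (μ := volume) 0 1)
        simpa using this
    _ = (H (φ 0)).re := by rw [hmean]
    _ = ∫ t in (0 : ℝ)..1, poissonKernel 0 (φ 0) (ee t) * ‖G (ee t)‖ ^ 2 := hHre _ hφ0
    _ ≤ ∫ t in (0 : ℝ)..1, (1 + ‖φ 0‖) / (1 - ‖φ 0‖) * ‖G (ee t)‖ ^ 2 := by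
        have hcg : Continuous (fun t : ℝ => ‖G (ee t)‖ ^ 2) := by
          apply Continuous.pow
          apply Continuous.norm
          apply hcontG.comp_continuous continuous_ee
          intro t
          simp
        apply intervalIntegral.integral_mono_on zero_le_one
        · exact ((continuous_poissonKernel hφ0).mul hcg).intervalIntegrable _ _
        · exact (continuous_const.mul hcg).intervalIntegrable _ _
        · intro t _
          gcongr
          exact poissonKernel_le hφ0 t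
    _ = _ := by rw [intervalIntegral.integral_const_mul]

/-- Circular mean squares of `f ∘ φ`. -/
lemma comp_circle_bound {φ : ℂ → ℂ} (hφ : DifferentiableOn ℂ φ (ball 0 1))
    (hmap : MapsTo φ (ball 0 1) (ball 0 1)) (f : H2) {r : ℝ} (hr : 0 ≤ r) (hr1 : r < 1) :
    ∫ t in (0 : ℝ)..1, ‖ev f (φ (r * ee t))‖ ^ 2 ≤
      (1 + ‖φ 0‖) / (1 - ‖φ 0‖) * ‖f‖ ^ 2 := by
  have hφ0 : ‖φ 0‖ < 1 := by
    have := hmap (mem_ball_self (x := (0 : ℂ)) one_pos)
    rwa [mem_ball_zero_iff] at this
  have hmem : ∀ t : ℝ, (r : ℂ) * ee t ∈ ball (0 : ℂ) 1 := by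
    intro t
    rw [mem_ball_zero_iff, norm_r_ee hr]; exact hr1
  have hc1 : Continuous (fun t : ℝ => φ (r * ee t)) :=
    hφ.continuousOn.comp_continuous (continuous_const.mul continuous_ee) hmem
  -- a uniform radius
  obtain ⟨s, hs0, hs1, hs⟩ : ∃ s : ℝ, 0 ≤ s ∧ s < 1 ∧ ∀ t : ℝ, ‖φ (r * ee t)‖ ≤ s := by
    have hcpt : IsCompact (closedBall (0 : ℂ) r) := isCompact_closedBall _ _
    have hco : ContinuousOn (fun z => ‖φ z‖) (closedBall 0 r) :=
      (hφ.continuousOn.mono (closedBall_subset_ball hr1)).norm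
    obtain ⟨z, hz, hmax⟩ := hcpt.exists_isMaxOn ⟨0, by simpa using hr⟩ hco
    refine ⟨‖φ z‖, norm_nonneg _, ?_, fun t => ?_⟩
    · have := hmap (closedBall_subset_ball hr1 hz)
      rwa [mem_ball_zero_iff] at this
    · apply hmax
      rw [mem_closedBall_zero_iff, norm_r_ee hr]
  -- dilations
  have hdil : ∀ ρ : ℝ, 0 ≤ ρ → ρ < 1 →
      ∫ t in (0 : ℝ)..1, ‖ev f (ρ * φ (r * ee t))‖ ^ 2 ≤
        (1 + ‖φ 0‖) / (1 - ‖φ 0‖) * ‖f‖ ^ 2 := by
    intro ρ hρ hρ1
    have hG : DiffContOnCl ℂ (fun z => ev f (ρ * z)) (ball 0 1) := by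
      apply DifferentiableOn.diffContOnCl
      rw [closure_ball (0 : ℂ) one_ne_zero]
      apply (differentiableOn_ev f).comp (by fun_prop)
      intro z hz
      rw [mem_closedBall_zero_iff] at hz
      rw [mem_ball_zero_iff, norm_mul, Complex.norm_real, Real.norm_of_nonneg hρ]
      nlinarith [norm_nonneg z]
    have h1 := subordination hφ hmap hG hr hr1
    refine h1.trans ?_
    have h2 : 0 ≤ (1 + ‖φ 0‖) / (1 - ‖φ 0‖) :=
      div_nonneg (by linarith [norm_nonneg (φ 0)]) (by linarith)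
    gcongr
    exact circle_le f hρ hρ1
  -- pass to the limit
  have hlim : Tendsto (fun n : ℕ => ∫ t in (0 : ℝ)..1,
      ‖ev f (((1 - 1 / ((n : ℝ) + 1) : ℝ) : ℂ) * φ (r * ee t))‖ ^ 2) atTop
      (𝓝 (∫ t in (0 : ℝ)..1, ‖ev f (φ (r * ee t))‖ ^ 2)) := by
    have hρ01 : ∀ n : ℕ, 0 ≤ 1 - 1 / ((n : ℝ) + 1) ∧ 1 - 1 / ((n : ℝ) + 1) < 1 := by
      intro n
      have h0 : (0 : ℝ) < (n : ℝ) + 1 := by positivity
      have h1 : 1 / ((n : ℝ) + 1) ≤ 1 := by
        rw [div_le_one h0]
        linarith [(Nat.cast_nonneg n : (0 : ℝ) ≤ n)]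
      have h2 : 0 < 1 / ((n : ℝ) + 1) := by positivity
      exact ⟨by linarith, by linarith⟩
    have hn : ∀ (n : ℕ) (t : ℝ),
        ‖((1 - 1 / ((n : ℝ) + 1) : ℝ) : ℂ) * φ (r * ee t)‖ ≤ s := by
      intro n t
      rw [norm_mul, Complex.norm_real, Real.norm_of_nonneg (hρ01 n).1]
      nlinarith [hs t, (hρ01 n).1, (hρ01 n).2, norm_nonneg (φ (r * ee t))]
    apply intervalIntegral.tendsto_integral_filter_of_dominated_convergence
      (fun _ => (‖f‖ * (1 - s)⁻¹) ^ 2)
    · refine Filter.Eventually.of_forall (fun n => Continuous.aestronglyMeasurable ?_)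
      apply Continuous.pow
      apply Continuous.norm
      apply (differentiableOn_ev f).continuousOn.comp_continuous (continuous_const.mul hc1)
      intro t
      rw [mem_ball_zero_iff]
      exact (hn n t).trans_lt hs1
    · refine Filter.Eventually.of_forall (fun n => Filter.Eventually.of_forall (fun t _ => ?_))
      rw [Real.norm_of_nonneg (by positivity)]
      gcongr
      refine (norm_ev_le f ((hn n t).trans_lt hs1)).trans ?_
      gcongr
      exact hn n t
    · exact intervalIntegrable_const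
    · refine Filter.Eventually.of_forall (fun t _ => ?_)
      have h1 : Tendsto (fun n : ℕ => ((1 - 1 / ((n : ℝ) + 1) : ℝ) : ℂ) * φ (r * ee t)) atTop
          (𝓝 (φ (r * ee t))) := by
        have h2 : Tendsto (fun n : ℕ => (1 - 1 / ((n : ℝ) + 1) : ℝ)) atTop (𝓝 (1 - 0)) :=
          tendsto_const_nhds.sub tendsto_one_div_add_atTop_nhds_zero_nat
        rw [sub_zero] at h2
        have h3 := (Complex.continuous_ofReal.tendsto 1).comp h2
        have h4 := h3.mul_const (φ (r * ee t))
        simpa using h4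
      have h5 : ContinuousAt (ev f) (φ (r * ee t)) := by
        apply (differentiableOn_ev f).continuousOn.continuousAt
        apply isOpen_ball.mem_nhds
        rw [mem_ball_zero_iff]
        exact (hs t).trans_lt hs1
      exact ((h5.tendsto.comp h1).norm.pow 2)
  refine le_of_tendsto hlim (Filter.Eventually.of_forall (fun n => ?_))
  apply hdil
  · have h0 : (0 : ℝ) < (n : ℝ) + 1 := by positivity
    have h1 : 1 / ((n : ℝ) + 1) ≤ 1 := by
      rw [div_le_one h0]
      linarith [(Nat.cast_nonneg n : (0 : ℝ) ≤ n)]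
    linarith
  · have h2 : 0 < 1 / ((n : ℝ) + 1) := by positivity
    linarith

/-- **Littlewood**: every analytic self-map induces a bounded composition operator on `H²`. -/
theorem exists_compOp {φ : ℂ → ℂ} (hφ : DifferentiableOn ℂ φ (ball 0 1))
    (hmap : MapsTo φ (ball 0 1) (ball 0 1)) : ∃ C : OpH2, IsCompOp φ C := by
  have hφ0 : ‖φ 0‖ < 1 := by
    have := hmap (mem_ball_self (x := (0 : ℂ)) one_pos)
    rwa [mem_ball_zero_iff] at this
  set K : ℝ := (1 + ‖φ 0‖) / (1 - ‖φ 0‖) with hK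
  have hK0 : 0 ≤ K := div_nonneg (by linarith [norm_nonneg (φ 0)]) (by linarith)
  have h1 : ∀ f : H2, ∃ g : H2, (∀ z ∈ ball (0 : ℂ) 1, ev g z = ev f (φ z)) ∧
      ‖g‖ ^ 2 ≤ K * ‖f‖ ^ 2 := by
    intro f
    apply exists_H2_of_bound (F := fun z => ev f (φ z))
    · exact (differentiableOn_ev f).comp hφ hmap
    · intro r hr hr1
      exact comp_circle_bound hφ hmap f hr hr1
  choose c hc1 hc2 using h1
  have hφn : ∀ z ∈ ball (0 : ℂ) 1, ‖φ z‖ < 1 := by
    intro z hz
    have := hmap hz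
    rwa [mem_ball_zero_iff] at this
  refine ⟨LinearMap.mkContinuous
    { toFun := c
      map_add' := fun f g => ?_
      map_smul' := fun a f => ?_ } (Real.sqrt K) (fun f => ?_), fun f z hz => hc1 f z hz⟩
  · apply ev_injective
    intro z hz
    have hz' : ‖z‖ < 1 := by rwa [mem_ball_zero_iff] at hz
    rw [hc1 _ z hz, ev_add _ _ (hφn z hz), ev_add _ _ hz', hc1 f z hz, hc1 g z hz]
  · apply ev_injective
    intro z hz
    rw [hc1 _ z hz, ev_smul, RingHom.id_apply, ev_smul, hc1 f z hz]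
  · change ‖c f‖ ≤ Real.sqrt K * ‖f‖
    have h2 := hc2 f
    rw [← sq_le_sq₀ (norm_nonneg _) (by positivity), mul_pow, Real.sq_sqrt hK0]
    exact h2

end Pool.Agent.CompToeplitz
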