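import Pool.Agent.CompToeplitz.Kernel
import Pool.Agent.CompToeplitz.Defs

/-!
# Parseval on circles
-/

open Complex MeasureTheory Metric Set Real Filter Topology
open scoped ENNReal ComplexConjugate

namespace Pool.Agent.CompToeplitz

lemma ee_pow (t : ℝ) (n : ℕ) : ee t ^ n = Complex.exp (2 * π * n * Complex.I * t) := by
  unfold ee
  rw [← Complex.exp_nat_mul]
  congr 1
  ring

lemma conj_ee (t : ℝ) : conj (ee t) = Complex.exp (-(2 * π * Complex.I * t)) := by
  unfold ee
  rw [← Complex.exp_conj]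
  congr 1
  simp only [map_mul, Complex.conj_ofReal, Complex.conj_I, Complex.conj_ofNat]
  ring

lemma integral_ee_pow (n m : ℕ) :
    ∫ t in (0 : ℝ)..1, ee t ^ n * conj (ee t ^ m) = if n = m then 1 else 0 := by
  have h1 : ∀ t : ℝ, ee t ^ n * conj (ee t ^ m)
      = Complex.exp (2 * π * ((n : ℂ) - m) * Complex.I * t) := by
    intro t
    rw [ee_pow, map_pow, conj_ee, ← Complex.exp_nat_mul, ← Complex.exp_add]
    congr 1
    ring
  simp only [h1]
  split_ifs with h
  · subst h
    simp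
  · have hc : (2 * π * ((n : ℂ) - m) * Complex.I) ≠ 0 := by
      have h2 : ((n : ℂ) - m) ≠ 0 := by
        rw [sub_ne_zero]
        exact_mod_cast h
      have h3 : (π : ℂ) ≠ 0 := by exact_mod_cast Real.pi_ne_zero
      simp [h2, h3]
    rw [integral_exp_mul_complex hc]
    have h4 : Complex.exp (2 * π * ((n : ℂ) - m) * Complex.I * (1 : ℝ)) = 1 := by
      rw [Complex.exp_eq_one_iff]
      refine ⟨(n : ℤ) - m, ?_⟩
      push_cast
      ring
    rw [h4]
    simp

/-- Parseval for trigonometric polynomials. -/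
lemma parseval_finite (s : Finset ℕ) (b : ℕ → ℂ) :
    ∫ t in (0 : ℝ)..1, ‖∑ n ∈ s, b n * ee t ^ n‖ ^ 2 = ∑ n ∈ s, ‖b n‖ ^ 2 := by
  have h1 : ∀ t : ℝ, ((‖∑ n ∈ s, b n * ee t ^ n‖ ^ 2 : ℝ) : ℂ)
      = ∑ n ∈ s, ∑ m ∈ s, b n * conj (b m) * (ee t ^ n * conj (ee t ^ m)) := by
    intro t
    rw [← Complex.normSq_eq_norm_sq, ← Complex.mul_conj, map_sum, Finset.sum_mul_sum]
    apply Finset.sum_congr rfl
    intro n _
    apply Finset.sum_congr rfl
    intro m _
    rw [map_mul]
    ring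
  have hce : ∀ n m : ℕ, Continuous (fun t : ℝ => b n * conj (b m) * (ee t ^ n * conj (ee t ^ m))) := by
    intro n m
    have := continuous_ee
    fun_prop
  have h2 : ((∫ t in (0 : ℝ)..1, ‖∑ n ∈ s, b n * ee t ^ n‖ ^ 2 : ℝ) : ℂ)
      = ((∑ n ∈ s, ‖b n‖ ^ 2 : ℝ) : ℂ) := by
    rw [← intervalIntegral.integral_ofReal]
    simp only [h1]
    rw [intervalIntegral.integral_finsetSum]
    · push_cast
      apply Finset.sum_congr rfl
      intro n hn
      rw [intervalIntegral.integral_finsetSum]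
      · simp only [intervalIntegral.integral_const_mul, integral_ee_pow]
        rw [Finset.sum_eq_single_of_mem n hn]
        · rw [if_pos rfl, mul_one, Complex.mul_conj, Complex.normSq_eq_norm_sq]
          push_cast
          rfl
        · intro m _ hm
          rw [if_neg (fun h => hm h.symm), mul_zero]
      · intro m _
        exact (hce n m).intervalIntegrable _ _
    · intro n _
      apply Continuous.intervalIntegrable
      apply continuous_finsetSum
      intro m _
      exact hce n m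
  exact_mod_cast h2

/-- Parseval for absolutely convergent series. -/
lemma parseval_abs {b : ℕ → ℂ} (hb : Summable (fun n => ‖b n‖)) :
    HasSum (fun n => ‖b n‖ ^ 2) (∫ t in (0 : ℝ)..1, ‖∑' n, b n * ee t ^ n‖ ^ 2) := by
  have hs : Summable (fun n => ‖b n‖ ^ 2) := by
    apply Summable.of_nonneg_of_le (fun n => by positivity) (fun n => ?_) (hb.mul_right (∑' n, ‖b n‖))
    rw [sq]
    gcongr
    exact hb.le_tsum n (fun j _ => norm_nonneg _)
  have hterm : ∀ t : ℝ, ∀ n, ‖b n * ee t ^ n‖ = ‖b n‖ := by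
    intro t n
    rw [norm_mul, norm_pow, norm_ee, one_pow, mul_one]
  have hsum : ∀ t : ℝ, Summable (fun n => b n * ee t ^ n) := fun t =>
    Summable.of_norm (by simpa only [hterm] using hb)
  have h1 : Tendsto (fun N => ∫ t in (0 : ℝ)..1, ‖∑ n ∈ Finset.range N, b n * ee t ^ n‖ ^ 2) atTop
      (𝓝 (∫ t in (0 : ℝ)..1, ‖∑' n, b n * ee t ^ n‖ ^ 2)) := by
    apply intervalIntegral.tendsto_integral_filter_of_dominated_convergence
      (fun _ => (∑' n, ‖b n‖) ^ 2)
    · refine Filter.Eventually.of_forall (fun N => Continuous.aestronglyMeasurable ?_)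
      have := continuous_ee
      fun_prop
    · refine Filter.Eventually.of_forall (fun N => Filter.Eventually.of_forall (fun t _ => ?_))
      rw [Real.norm_of_nonneg (by positivity)]
      gcongr
      calc ‖∑ n ∈ Finset.range N, b n * ee t ^ n‖ ≤ ∑ n ∈ Finset.range N, ‖b n * ee t ^ n‖ :=
            norm_sum_le _ _
        _ = ∑ n ∈ Finset.range N, ‖b n‖ := by simp only [hterm]
        _ ≤ ∑' n, ‖b n‖ := hb.sum_le_tsum _ (fun j _ => norm_nonneg _)
    · exact intervalIntegrable_const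
    · refine Filter.Eventually.of_forall (fun t _ => ?_)
      exact (((hsum t).hasSum.tendsto_sum_nat).norm.pow 2)
  simp only [parseval_finite] at h1
  have h2 := hs.hasSum.tendsto_sum_nat
  have h3 := tendsto_nhds_unique h1 h2
  rw [h3]
  exact hs.hasSum

/-- Coefficient bound from the mean squares on circles. -/
lemma summable_of_circle_bound {a : ℕ → ℂ} {K : ℝ}
    (h : ∀ r : ℝ, 0 ≤ r → r < 1 → Summable (fun n => ‖a n‖ * r ^ n) ∧
      ∫ t in (0 : ℝ)..1, ‖∑' n, a n * (r * ee t) ^ n‖ ^ 2 ≤ K) :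
    Summable (fun n => ‖a n‖ ^ 2) ∧ ∑' n, ‖a n‖ ^ 2 ≤ K := by
  have h1 : ∀ r : ℝ, 0 ≤ r → r < 1 → ∀ N, ∑ n ∈ Finset.range N, ‖a n‖ ^ 2 * (r ^ n) ^ 2 ≤ K := by
    intro r hr hr1 N
    obtain ⟨hs, hK⟩ := h r hr hr1
    have hb : Summable (fun n => ‖a n * (r : ℂ) ^ n‖) := by
      have : (fun n => ‖a n * (r : ℂ) ^ n‖) = fun n => ‖a n‖ * r ^ n := by
        ext n
        rw [norm_mul, norm_pow, Complex.norm_real, Real.norm_of_nonneg hr]
      rw [this]; exact hs
    have hp := parseval_abs hb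
    have e1 : (fun t : ℝ => ‖∑' n, a n * (r : ℂ) ^ n * ee t ^ n‖ ^ 2)
        = fun t : ℝ => ‖∑' n, a n * (r * ee t) ^ n‖ ^ 2 := by
      ext t
      congr 2
      apply tsum_congr
      intro n
      rw [mul_pow]; ring
    rw [e1] at hp
    have h2 := sum_le_hasSum (Finset.range N) (fun n _ => by positivity) hp
    refine le_trans (le_of_eq ?_) (h2.trans hK)
    apply Finset.sum_congr rfl
    intro n _
    rw [norm_mul, mul_pow, norm_pow, Complex.norm_real, Real.norm_of_nonneg hr]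
  have h2 : ∀ N, ∑ n ∈ Finset.range N, ‖a n‖ ^ 2 ≤ K := by
    intro N
    have hcont : Continuous (fun r : ℝ => ∑ n ∈ Finset.range N, ‖a n‖ ^ 2 * (r ^ n) ^ 2) := by
      fun_prop
    have h3 : Tendsto (fun r : ℝ => ∑ n ∈ Finset.range N, ‖a n‖ ^ 2 * (r ^ n) ^ 2) (𝓝[<] 1)
        (𝓝 (∑ n ∈ Finset.range N, ‖a n‖ ^ 2)) := by
      have := hcont.tendsto 1
      simp only [one_pow, mul_one] at this
      exact this.mono_left nhdsWithin_le_nhds
    refine le_of_tendsto h3 ?_
    have h4 : ∀ᶠ r : ℝ in 𝓝[<] 1, 0 ≤ r := by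
      have : ∀ᶠ r : ℝ in 𝓝 1, 0 ≤ r := by
        filter_upwards [lt_mem_nhds (zero_lt_one : (0 : ℝ) < 1)] with r hr using hr.le
      exact this.filter_mono nhdsWithin_le_nhds
    filter_upwards [h4, self_mem_nhdsWithin] with r hr hr1
    exact h1 r hr hr1 N
  have hs : Summable (fun n => ‖a n‖ ^ 2) :=
    summable_of_sum_range_le (fun n => by positivity) h2
  exact ⟨hs, hs.tsum_le_of_sum_range_le h2⟩

end Pool.Agent.CompToeplitz
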