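import Pool.Agent.CompToeplitz.Dyadic

/-!
# Combinatorics of dyadic descendants: explicit sums and shifts
-/

open Finset

namespace Pool.Agent.CompToeplitz

lemma descSum_add_eq (F : ℕ → ℤ → ℝ) (N n : ℕ) (k : ℤ) :
    descSum F N n k = ∑ j ∈ range (N + 1), ∑ i ∈ range (2 ^ j), F (n + j) (2 ^ j * k + i) := by
  induction N generalizing n k with
  | zero => simp [descSum]
  | succ N ih =>
    simp only [descSum]
    rw [ih, ih, Finset.sum_range_succ' _ (N + 1)]
    simp only [pow_zero, range_one, sum_singleton, one_mul, Nat.cast_zero, add_zero]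
    rw [add_assoc, add_comm (F n k), ← Finset.sum_add_distrib]
    congr 1
    apply Finset.sum_congr rfl
    intro j _
    have h1 : range (2 ^ (j + 1)) = range (2 ^ j + 2 ^ j) := by rw [pow_succ, mul_two]
    rw [h1, Finset.sum_range_add]
    congr 1
    · apply Finset.sum_congr rfl
      intro i _
      congr 1
      · ring
      · ring
    · apply Finset.sum_congr rfl
      intro i _
      congr 1
      · ring
      · push_cast; ring

lemma sum_Ico_consecutive_int (f : ℤ → ℝ) {m n k : ℤ} (hmn : m ≤ n) (hnk : n ≤ k) :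
    ∑ i ∈ Finset.Ico m k, f i = ∑ i ∈ Finset.Ico m n, f i + ∑ i ∈ Finset.Ico n k, f i := by
  rw [← Finset.Ico_union_Ico_eq_Ico hmn hnk,
    Finset.sum_union (Finset.Ico_disjoint_Ico_consecutive m n k)]

lemma sum_Ico_eq (f : ℤ → ℝ) (l : ℕ) :
    ∑ m ∈ Finset.Ico (-2 * 2 ^ l : ℤ) (2 * 2 ^ l), f m =
      ∑ r ∈ Finset.Ico (-2 : ℤ) 2, ∑ i ∈ range (2 ^ l), f (2 ^ l * r + i) := by
  have hblock : ∀ a : ℤ, ∑ m ∈ Finset.Ico a (a + 2 ^ l), f m = ∑ i ∈ range (2 ^ l), f (a + i) := by
    intro a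
    symm
    apply Finset.sum_bij (fun (i : ℕ) _ => a + (i : ℤ))
    · intro i hi
      rw [Finset.mem_range] at hi
      rw [Finset.mem_Ico]
      have : (i : ℤ) < 2 ^ l := by exact_mod_cast hi
      constructor <;> linarith [Int.natCast_nonneg i]
    · intro i _ j _ h
      have : (i : ℤ) = j := by linarith
      exact_mod_cast this
    · intro m hm
      rw [Finset.mem_Ico] at hm
      refine ⟨(m - a).toNat, ?_, ?_⟩
      · rw [Finset.mem_range]
        have h1 : 0 ≤ m - a := by linarith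
        zify
        rw [Int.toNat_of_nonneg h1]
        linarith
      · have h1 : 0 ≤ m - a := by linarith
        rw [Int.toNat_of_nonneg h1]; ring
    · intro i _; rfl
  have h4 : Finset.Ico (-2 : ℤ) 2 = {-2, -1, 0, 1} := by decide
  rw [h4]
  have hp : (0 : ℤ) < 2 ^ l := by positivity
  have e1 := sum_Ico_consecutive_int f (m := -2 * 2 ^ l) (n := -2 * 2 ^ l + 2 ^ l)
    (k := 2 * 2 ^ l) (by linarith) (by linarith)
  have e2 := sum_Ico_consecutive_int f (m := -2 * 2 ^ l + 2 ^ l) (n := -2 * 2 ^ l + 2 ^ l + 2 ^ l)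
    (k := 2 * 2 ^ l) (by linarith) (by linarith)
  have e3 := sum_Ico_consecutive_int f (m := -2 * 2 ^ l + 2 ^ l + 2 ^ l)
    (n := -2 * 2 ^ l + 2 ^ l + 2 ^ l + 2 ^ l)
    (k := 2 * 2 ^ l) (by linarith) (by linarith)
  have e4 : (2 : ℤ) * 2 ^ l = -2 * 2 ^ l + 2 ^ l + 2 ^ l + 2 ^ l + 2 ^ l := by ring
  rw [e1, e2, e3]
  rw [e4, hblock, hblock, hblock, hblock]
  rw [Finset.sum_insert (by decide), Finset.sum_insert (by decide), Finset.sum_insert (by decide),
    Finset.sum_singleton]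
  have g1 : (2 : ℤ) ^ l * (-2) = -2 * 2 ^ l := by ring
  have g2 : (2 : ℤ) ^ l * (-1) = -2 * 2 ^ l + 2 ^ l := by ring
  have g3 : (2 : ℤ) ^ l * 0 = -2 * 2 ^ l + 2 ^ l + 2 ^ l := by ring
  have g4 : (2 : ℤ) ^ l * 1 = -2 * 2 ^ l + 2 ^ l + 2 ^ l + 2 ^ l := by ring
  rw [g1, g2, g3, g4]

lemma sum_all_eq (F : ℕ → ℤ → ℝ) (N : ℕ) :
    ∑ l ∈ range (N + 1), ∑ m ∈ Finset.Ico (-2 * 2 ^ l : ℤ) (2 * 2 ^ l), F l m =
      ∑ r ∈ Finset.Ico (-2 : ℤ) 2, descSum F N 0 r := by
  simp only [descSum_add_eq, zero_add]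
  rw [Finset.sum_comm]
  apply Finset.sum_congr rfl
  intro l _
  rw [sum_Ico_eq]

/-- Sum of `F` along the rightmost chain below `(n,k)`. -/
def rch (F : ℕ → ℤ → ℝ) : ℕ → ℕ → ℤ → ℝ
  | 0, n, k => F n k
  | N + 1, n, k => F n k + rch F N (n + 1) (2 * k + 1)

/-- Sum of `F` along the leftmost chain below `(n,k)`. -/
def lch (F : ℕ → ℤ → ℝ) : ℕ → ℕ → ℤ → ℝ
  | 0, n, k => F n k
  | N + 1, n, k => F n k + lch F N (n + 1) (2 * k)

lemma rch_le {F : ℕ → ℤ → ℝ} (hF : ∀ n k, 0 ≤ F n k) (N n : ℕ) (k : ℤ) :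
    0 ≤ rch F N n k ∧ rch F N n k ≤ descSum F N n k := by
  induction N generalizing n k with
  | zero => exact ⟨hF n k, le_refl _⟩
  | succ N ih =>
    have h1 := ih (n + 1) (2 * k + 1)
    have h2 := hF n k
    have h3 := descSum_nonneg hF N (n + 1) (2 * k)
    simp only [rch, descSum]
    constructor <;> linarith

lemma lch_le {F : ℕ → ℤ → ℝ} (hF : ∀ n k, 0 ≤ F n k) (N n : ℕ) (k : ℤ) :
    0 ≤ lch F N n k ∧ lch F N n k ≤ descSum F N n k := by
  induction N generalizing n k with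
  | zero => exact ⟨hF n k, le_refl _⟩
  | succ N ih =>
    have h1 := ih (n + 1) (2 * k)
    have h2 := hF n k
    have h3 := descSum_nonneg hF N (n + 1) (2 * k + 1)
    simp only [lch, descSum]
    constructor <;> linarith

lemma descSum_shift_right (F : ℕ → ℤ → ℝ) (N n : ℕ) (k : ℤ) :
    descSum (fun n k => F n (k - 1)) N n k
      = descSum F N n k + rch F N n (k - 1) - rch F N n k := by
  induction N generalizing n k with
  | zero => simp only [descSum, rch]; ring
  | succ N ih =>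
    simp only [descSum, rch, ih]
    have h1 : 2 * (k - 1) + 1 = 2 * k - 1 := by ring
    have h2 : 2 * k + 1 - 1 = 2 * k := by ring
    rw [h1, h2]
    ring

lemma descSum_shift_left (F : ℕ → ℤ → ℝ) (N n : ℕ) (k : ℤ) :
    descSum (fun n k => F n (k + 1)) N n k
      = descSum F N n k + lch F N n (k + 1) - lch F N n k := by
  induction N generalizing n k with
  | zero => simp only [descSum, lch]; ring
  | succ N ih =>
    simp only [descSum, lch, ih]
    have h1 : 2 * (k + 1) = 2 * k + 1 + 1 := by ring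
    rw [h1]
    ring

/-- Shifting by `i ∈ {-1,0,1}` at most doubles the packing constant. -/
lemma pack_shift {F : ℕ → ℤ → ℝ} (hF : ∀ n k, 0 ≤ F n k) {A : ℝ}
    (hpack : ∀ N n k, descSum F N n k ≤ A * (1 / 2) ^ n) {i : ℤ}
    (hi : i ∈ ({-1, 0, 1} : Finset ℤ)) (N n : ℕ) (k : ℤ) :
    descSum (fun n k => F n (k - i)) N n k ≤ 2 * A * (1 / 2) ^ n := by
  have hA : 0 ≤ A * (1 / 2) ^ n := (descSum_nonneg hF N n k).trans (hpack N n k)
  simp only [Finset.mem_insert, Finset.mem_singleton] at hi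
  rcases hi with rfl | rfl | rfl
  · have h1 : (fun n k => F n (k - -1)) = (fun n k => F n (k + 1)) := by
      ext n k; rw [sub_neg_eq_add]
    rw [h1, descSum_shift_left]
    have h2 := lch_le hF N n (k + 1)
    have h3 := lch_le hF N n k
    have h4 := hpack N n k
    have h5 := hpack N n (k + 1)
    linarith
  · have h1 : (fun n k => F n (k - 0)) = F := by
      ext n k; rw [sub_zero]
    rw [h1]
    have h4 := hpack N n k
    linarith
  · rw [descSum_shift_right]
    have h2 := rch_le hF N n (k - 1)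
    have h3 := rch_le hF N n k
    have h4 := hpack N n k
    have h5 := hpack N n (k - 1)
    linarith

end Pool.Agent.CompToeplitz
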