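import Pool.Agent.CompToeplitz.KernelInt
import Pool.Agent.CompToeplitz.Tree

/-!
# Pointwise bound of an analytic function by dyadic averages of its boundary modulus
-/

open Complex MeasureTheory Metric Set Real Filter Topology

namespace Pool.Agent.CompToeplitz

/-- Boundary modulus. -/
noncomputable def bg (G : ℂ → ℂ) (t : ℝ) : ℝ := ‖G (ee t)‖

/-- Integral of the boundary modulus over a dyadic interval. -/
noncomputable def GI (G : ℂ → ℂ) (l : ℕ) (m : ℤ) : ℝ :=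
  ∫ t in ((m : ℝ) / 2 ^ l)..(((m : ℝ) + 1) / 2 ^ l), bg G t

/-- Integral of the squared boundary modulus over a dyadic interval. -/
noncomputable def HI (G : ℂ → ℂ) (l : ℕ) (m : ℤ) : ℝ :=
  ∫ t in ((m : ℝ) / 2 ^ l)..(((m : ℝ) + 1) / 2 ^ l), bg G t ^ 2

variable {G : ℂ → ℂ}

lemma continuous_bg (hG : DiffContOnCl ℂ G (ball 0 1)) : Continuous (bg G) := by
  unfold bg
  apply Continuous.norm
  have h1 := hG.continuousOn
  rw [closure_ball (0 : ℂ) one_ne_zero] at h1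
  apply h1.comp_continuous continuous_ee
  intro t
  simp

lemma bg_nonneg (t : ℝ) : 0 ≤ bg G t := norm_nonneg _

lemma GI_nonneg (l : ℕ) (m : ℤ) : 0 ≤ GI G l m := by
  unfold GI
  apply intervalIntegral.integral_nonneg
  · gcongr; linarith
  · intro t _; exact bg_nonneg t

lemma GI_split (hG : DiffContOnCl ℂ G (ball 0 1)) (l : ℕ) (m : ℤ) :
    GI G l m = GI G (l + 1) (2 * m) + GI G (l + 1) (2 * m + 1) := by
  unfold GI
  have h := continuous_bg hG
  have e1 : (((2 * m : ℤ) : ℝ)) / 2 ^ (l + 1) = (m : ℝ) / 2 ^ l := by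
    push_cast; rw [pow_succ]; field_simp
  have e2 : ((((2 * m : ℤ) : ℝ)) + 1) / 2 ^ (l + 1) = ((2 * m + 1 : ℤ) : ℝ) / 2 ^ (l + 1) := by
    push_cast; ring
  have e3 : ((((2 * m + 1 : ℤ) : ℝ)) + 1) / 2 ^ (l + 1) = ((m : ℝ) + 1) / 2 ^ l := by
    push_cast; rw [pow_succ]; field_simp; ring
  rw [e1, e2, e3, intervalIntegral.integral_add_adjacent_intervals]
  · exact h.intervalIntegrable _ _
  · exact h.intervalIntegrable _ _

lemma HI_split (hG : DiffContOnCl ℂ G (ball 0 1)) (l : ℕ) (m : ℤ) :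
    HI G l m = HI G (l + 1) (2 * m) + HI G (l + 1) (2 * m + 1) := by
  unfold HI
  have h := (continuous_bg hG).pow 2
  have e1 : (((2 * m : ℤ) : ℝ)) / 2 ^ (l + 1) = (m : ℝ) / 2 ^ l := by
    push_cast; rw [pow_succ]; field_simp
  have e2 : ((((2 * m : ℤ) : ℝ)) + 1) / 2 ^ (l + 1) = ((2 * m + 1 : ℤ) : ℝ) / 2 ^ (l + 1) := by
    push_cast; ring
  have e3 : ((((2 * m + 1 : ℤ) : ℝ)) + 1) / 2 ^ (l + 1) = ((m : ℝ) + 1) / 2 ^ l := by
    push_cast; rw [pow_succ]; field_simp; ring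
  rw [e1, e2, e3, intervalIntegral.integral_add_adjacent_intervals]
  · exact h.intervalIntegrable _ _
  · exact h.intervalIntegrable _ _

lemma GI_sq_le (hG : DiffContOnCl ℂ G (ball 0 1)) (l : ℕ) (m : ℤ) :
    2 ^ l * GI G l m ^ 2 ≤ HI G l m := by
  have h := continuous_bg hG
  set c : ℝ := 2 ^ l * GI G l m with hc
  have h1 : 0 ≤ ∫ t in ((m : ℝ) / 2 ^ l)..(((m : ℝ) + 1) / 2 ^ l), (bg G t - c) ^ 2 := by
    apply intervalIntegral.integral_nonneg
    · gcongr; linarith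
    · intro t _; positivity
  have h2 : ∫ t in ((m : ℝ) / 2 ^ l)..(((m : ℝ) + 1) / 2 ^ l), (bg G t - c) ^ 2
      = HI G l m - 2 * c * GI G l m + c ^ 2 * (1 / 2 ^ l) := by
    have e1 : (fun t => (bg G t - c) ^ 2) = fun t => (bg G t ^ 2 - 2 * c * bg G t) + c ^ 2 := by
      ext t; ring
    rw [e1, intervalIntegral.integral_add, intervalIntegral.integral_sub,
      intervalIntegral.integral_const_mul, intervalIntegral.integral_const]
    · unfold HI GI
      have e2 : ((m : ℝ) + 1) / 2 ^ l - m / 2 ^ l = 1 / 2 ^ l := by ring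
      rw [e2, smul_eq_mul]
      ring
    · exact (h.pow 2).intervalIntegrable _ _
    · exact (continuous_const.mul h).intervalIntegrable _ _
    · exact ((h.pow 2).sub (continuous_const.mul h)).intervalIntegrable _ _
    · exact continuous_const.intervalIntegrable _ _
  rw [h2] at h1
  have h3 : c ^ 2 * (1 / 2 ^ l) = 2 ^ l * GI G l m ^ 2 := by
    rw [hc]; field_simp
  have h4 : 2 * c * GI G l m = 2 * (2 ^ l * GI G l m ^ 2) := by rw [hc]; ring
  rw [h3, h4] at h1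
  linarith

lemma integral_Icc_le_GI (hG : DiffContOnCl ℂ G (ball 0 1)) (θ : ℝ) (l : ℕ) :
    ∫ t in Set.Icc (θ - (1 / 2) ^ l) (θ + (1 / 2) ^ l), bg G t ≤
      ∑ i ∈ ({-1, 0, 1} : Finset ℤ), GI G l (⌊2 ^ l * θ⌋ + i) := by
  have h := continuous_bg hG
  set m : ℤ := ⌊2 ^ l * θ⌋ with hm
  have hp : (0 : ℝ) < 2 ^ l := by positivity
  have hm1 : (m : ℝ) ≤ 2 ^ l * θ := Int.floor_le _
  have hm2 : 2 ^ l * θ < (m : ℝ) + 1 := Int.lt_floor_add_one _
  have hhalf : (1 / 2 : ℝ) ^ l = 1 / 2 ^ l := by rw [one_div_pow]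
  rw [Finset.sum_insert (by decide), Finset.sum_insert (by decide), Finset.sum_singleton]
  unfold GI
  push_cast
  have e0 : ((m : ℝ) + -1 + 1) / 2 ^ l = ((m : ℝ) + 0) / 2 ^ l := by ring
  have e1 : ((m : ℝ) + 0 + 1) / 2 ^ l = ((m : ℝ) + 1) / 2 ^ l := by ring
  rw [e0, e1, intervalIntegral.integral_add_adjacent_intervals,
    intervalIntegral.integral_add_adjacent_intervals]
  rotate_left
  · exact h.intervalIntegrable _ _
  · exact h.intervalIntegrable _ _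
  · exact h.intervalIntegrable _ _
  · exact h.intervalIntegrable _ _
  rw [intervalIntegral.integral_of_le (div_le_div_of_nonneg_right (by linarith) hp.le),
    ← integral_Icc_eq_integral_Ioc]
  apply setIntegral_mono_set
  · exact (h.continuousOn).integrableOn_Icc
  · exact Filter.Eventually.of_forall (fun t => bg_nonneg t)
  · apply LE.le.eventuallyLE
    apply Set.Icc_subset_Icc
    · rw [hhalf, div_le_iff₀ hp]
      have : (θ - 1 / 2 ^ l) * 2 ^ l = 2 ^ l * θ - 1 := by field_simp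
      rw [this]; linarith
    · rw [hhalf, le_div_iff₀ hp]
      have : (θ + 1 / 2 ^ l) * 2 ^ l = 2 ^ l * θ + 1 := by field_simp
      rw [this]; linarith

/-- Geometric sum bound. -/
lemma sum_geom_le (n : ℕ) : ∑ l ∈ Finset.range (n + 1), (1 / 2 : ℝ) ^ (n - l) ≤ 2 := by
  have h1 := Finset.sum_range_reflect (fun l => (1 / 2 : ℝ) ^ l) (n + 1)
  have h2 : ∑ l ∈ Finset.range (n + 1), (1 / 2 : ℝ) ^ (n - l)
      = ∑ l ∈ Finset.range (n + 1), (1 / 2 : ℝ) ^ (n + 1 - 1 - l) := by simp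
  rw [h2, h1, geom_sum_eq (by norm_num)]
  have h3 : (0 : ℝ) < (1 / 2) ^ (n + 1) := by positivity
  rw [div_le_iff_of_neg (by norm_num)]
  norm_num

/-- The first-power pointwise bound. -/
lemma norm_le_sum (hG : DiffContOnCl ℂ G (ball 0 1)) {r θ : ℝ} {n : ℕ} (hr : 0 ≤ r)
    (hr1 : (1 / 2 : ℝ) ^ (n + 1) < 1 - r) (hr2 : 1 - r ≤ (1 / 2 : ℝ) ^ n) :
    ‖G (r * ee θ)‖ ≤ 4 * ∑ l ∈ Finset.range (n + 1), (1 / 2 : ℝ) ^ (n - l) *
      ∑ i ∈ ({-1, 0, 1} : Finset ℤ), 2 ^ l * GI G l (⌊2 ^ l * θ⌋ + i) := by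
  have hpos : (0 : ℝ) < (1 / 2) ^ (n + 1) := by positivity
  have hwn : ‖(r : ℂ) * ee θ‖ < 1 := by
    rw [norm_mul, norm_ee, mul_one, Complex.norm_real, Real.norm_eq_abs, abs_of_nonneg hr]
    linarith
  have h := continuous_bg hG
  rw [← poisson_formula hG hwn (θ - 1 / 2)]
  calc ‖∫ t in (θ - 1 / 2)..(θ - 1 / 2) + 1,
        (poissonKernel 0 (r * ee θ) (ee t) : ℂ) * G (ee t)‖
      ≤ ∫ t in (θ - 1 / 2)..(θ - 1 / 2) + 1,
        ‖(poissonKernel 0 (r * ee θ) (ee t) : ℂ) * G (ee t)‖ :=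
        intervalIntegral.norm_integral_le_integral_norm (by linarith)
    _ = ∫ t in (θ - 1 / 2)..(θ - 1 / 2) + 1, poissonKernel 0 (r * ee θ) (ee t) * bg G t := by
        congr 1
        ext t
        rw [norm_mul, Complex.norm_real, Real.norm_eq_abs,
          abs_of_nonneg (poissonKernel_nonneg hwn t)]
        rfl
    _ ≤ 4 * ∑ l ∈ Finset.range (n + 1), (1 / 4 : ℝ) ^ (n - l) * 2 ^ n *
        ∫ t in Set.Icc (θ - (1 / 2) ^ l) (θ + (1 / 2) ^ l), bg G t :=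
        integral_poisson_le bg_nonneg h.locallyIntegrable hr hr1 hr2
    _ ≤ _ := by
        refine mul_le_mul_of_nonneg_left (Finset.sum_le_sum (fun l hl => ?_)) (by norm_num)
        have hl' : l ≤ n := by
          have := Finset.mem_range.1 hl
          omega
        have h1 : (1 / 4 : ℝ) ^ (n - l) * 2 ^ n = (1 / 2) ^ (n - l) * 2 ^ l := by
          obtain ⟨k, rfl⟩ := Nat.exists_eq_add_of_le hl'
          rw [Nat.add_sub_cancel_left, pow_add, show (1 / 4 : ℝ) = 1 / 2 * (1 / 2) by norm_num,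
            mul_pow]
          have : (1 / 2 : ℝ) ^ k * 2 ^ k = 1 := by rw [← mul_pow]; norm_num
          calc (1 / 2 : ℝ) ^ k * (1 / 2) ^ k * (2 ^ l * 2 ^ k)
              = (1 / 2) ^ k * 2 ^ l * ((1 / 2 : ℝ) ^ k * 2 ^ k) := by ring
            _ = _ := by rw [this, mul_one]
        calc (1 / 4 : ℝ) ^ (n - l) * 2 ^ n *
              ∫ t in Set.Icc (θ - (1 / 2) ^ l) (θ + (1 / 2) ^ l), bg G t
            ≤ (1 / 4 : ℝ) ^ (n - l) * 2 ^ n *
              ∑ i ∈ ({-1, 0, 1} : Finset ℤ), GI G l (⌊2 ^ l * θ⌋ + i) := by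
              gcongr
              exact integral_Icc_le_GI hG θ l
          _ = _ := by
              rw [h1, mul_assoc, ← Finset.mul_sum]

/-- The squared pointwise bound. -/
lemma norm_sq_le_sum (hG : DiffContOnCl ℂ G (ball 0 1)) {r θ : ℝ} {n : ℕ} (hr : 0 ≤ r)
    (hr1 : (1 / 2 : ℝ) ^ (n + 1) < 1 - r) (hr2 : 1 - r ≤ (1 / 2 : ℝ) ^ n) :
    ‖G (r * ee θ)‖ ^ 2 ≤ 96 * ∑ i ∈ ({-1, 0, 1} : Finset ℤ), ∑ l ∈ Finset.range (n + 1),
      (1 / 2 : ℝ) ^ (n - l) * (2 ^ l * GI G l (⌊2 ^ l * θ⌋ + i)) ^ 2 := by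
  have h1 := norm_le_sum hG hr hr1 hr2 (θ := θ)
  set a : ℕ → ℝ := fun l => ∑ i ∈ ({-1, 0, 1} : Finset ℤ), 2 ^ l * GI G l (⌊2 ^ l * θ⌋ + i)
    with ha
  have ha0 : ∀ l, 0 ≤ a l := fun l => Finset.sum_nonneg (fun i _ => by
    have := GI_nonneg (G := G) l (⌊2 ^ l * θ⌋ + i)
    positivity)
  have h2 : (∑ l ∈ Finset.range (n + 1), (1 / 2 : ℝ) ^ (n - l) * a l) ^ 2 ≤
      2 * ∑ l ∈ Finset.range (n + 1), (1 / 2 : ℝ) ^ (n - l) * a l ^ 2 := by
    have h3 := Finset.sum_sq_le_sum_mul_sum_of_sq_le_mul (Finset.range (n + 1))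
      (r := fun l => (1 / 2 : ℝ) ^ (n - l) * a l) (f := fun l => (1 / 2 : ℝ) ^ (n - l))
      (g := fun l => (1 / 2 : ℝ) ^ (n - l) * a l ^ 2) (fun l _ => by positivity)
      (fun l _ => by positivity) (fun l _ => le_of_eq (by ring))
    refine h3.trans ?_
    gcongr
    exact sum_geom_le n
  have h4 : ∀ l, a l ^ 2 ≤ 3 * ∑ i ∈ ({-1, 0, 1} : Finset ℤ),
      (2 ^ l * GI G l (⌊2 ^ l * θ⌋ + i)) ^ 2 := by
    intro l
    have := sq_sum_le_card_mul_sum_sq (s := ({-1, 0, 1} : Finset ℤ))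
      (f := fun i => (2 : ℝ) ^ l * GI G l (⌊2 ^ l * θ⌋ + i))
    have hcard : (({-1, 0, 1} : Finset ℤ).card : ℝ) = 3 := by norm_num
    rw [hcard] at this
    exact this
  calc ‖G (r * ee θ)‖ ^ 2
      ≤ (4 * ∑ l ∈ Finset.range (n + 1), (1 / 2 : ℝ) ^ (n - l) * a l) ^ 2 := by
        gcongr
    _ = 16 * (∑ l ∈ Finset.range (n + 1), (1 / 2 : ℝ) ^ (n - l) * a l) ^ 2 := by ring
    _ ≤ 16 * (2 * ∑ l ∈ Finset.range (n + 1), (1 / 2 : ℝ) ^ (n - l) * a l ^ 2) := by gcongr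
    _ ≤ 16 * (2 * ∑ l ∈ Finset.range (n + 1), (1 / 2 : ℝ) ^ (n - l) *
          (3 * ∑ i ∈ ({-1, 0, 1} : Finset ℤ), (2 ^ l * GI G l (⌊2 ^ l * θ⌋ + i)) ^ 2)) := by
        gcongr with l _
        exact h4 l
    _ = _ := by
        rw [Finset.sum_comm]
        simp only [Finset.mul_sum]
        apply Finset.sum_congr rfl
        intro l _
        apply Finset.sum_congr rfl
        intro i _
        ring

end Pool.Agent.CompToeplitz
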