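import Pool.Agent.CompToeplitz.Boundary

/-!
# The pull-back measure and the quadratic forms
-/

open Complex MeasureTheory Metric Set Real Filter Topology
open scoped ENNReal ComplexConjugate

namespace Pool.Agent.CompToeplitz

/-- The image of the normalised Lebesgue measure under the boundary function. -/
noncomputable def nu (φ : ℂ → ℂ) : Measure ℂ :=
  Measure.map (bdry φ) (volume.restrict (Set.Ioc 0 1))

instance instFiniteNu (φ : ℂ → ℂ) : IsFiniteMeasure (nu φ) := by
  unfold nu; infer_instance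

variable {φ : ℂ → ℂ}

lemma ae_nu_norm_le (hφ : DifferentiableOn ℂ φ (ball 0 1))
    (hmap : MapsTo φ (ball 0 1) (ball 0 1)) : ∀ᵐ w ∂(nu φ), w ∈ closedBall (0 : ℂ) 1 := by
  unfold nu
  refine (ae_map_iff (aemeasurable_bdry hφ hmap).restrict
    (p := fun w => w ∈ closedBall (0 : ℂ) 1) measurableSet_closedBall).2 ?_
  apply ae_restrict_of_ae
  filter_upwards [ae_norm_bdry_le_one hφ hmap] with t ht
  rwa [mem_closedBall_zero_iff]

lemma measurableSet_box (ξ : ℂ) (h : ℝ) : MeasurableSet {w : ℂ | ‖w‖ < 1 ∧ ‖w - ξ‖ < h} := by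
  apply MeasurableSet.inter
  · exact measurableSet_lt measurable_norm measurable_const
  · exact measurableSet_lt (measurable_id.sub_const ξ).norm measurable_const

lemma nu_box (hφ : DifferentiableOn ℂ φ (ball 0 1))
    (hmap : MapsTo φ (ball 0 1) (ball 0 1)) (ξ : ℂ) (h : ℝ) :
    circleMeasure {ζ | ‖radialLimit φ ζ‖ < 1 ∧ ‖radialLimit φ ζ - ξ‖ < h}
      = nu φ {w | ‖w‖ < 1 ∧ ‖w - ξ‖ < h} := by
  unfold nu
  rw [circleMeasure_apply, Measure.map_apply_of_aemeasurable
    (aemeasurable_bdry hφ hmap).restrict (measurableSet_box ξ h),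
    Measure.restrict_apply' measurableSet_Ioc, Set.inter_comm]
  rfl

/-- The integrand of the norm formula. -/
noncomputable def gf (f : H2) (n : ℕ) (w : ℂ) : ℝ := ‖w‖ ^ (2 * n) * ‖ev f w‖ ^ 2

lemma gf_nonneg (f : H2) (n : ℕ) (w : ℂ) : 0 ≤ gf f n w := by
  unfold gf; positivity

lemma continuousOn_gf {f : H2} (hf : Summable (fun n => ‖f n‖)) (n : ℕ) :
    ContinuousOn (gf f n) (closedBall 0 1) := by
  have hcont : ContinuousOn (ev f) (closedBall 0 1) := by
    have := (diffContOnCl_ev hf).continuousOn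
    rwa [closure_ball (0 : ℂ) one_ne_zero] at this
  exact (continuous_norm.continuousOn.pow _).mul (hcont.norm.pow _)

lemma integrable_gf (hφ : DifferentiableOn ℂ φ (ball 0 1))
    (hmap : MapsTo φ (ball 0 1) (ball 0 1)) {f : H2} (hf : Summable (fun n => ‖f n‖)) (n : ℕ) :
    Integrable (gf f n) (nu φ) := by
  have h1 : IntegrableOn (gf f n) (closedBall 0 1) (nu φ) :=
    (continuousOn_gf hf n).integrableOn_compact (isCompact_closedBall 0 1)
  unfold IntegrableOn at h1
  rwa [Measure.restrict_eq_self_of_ae_mem (ae_nu_norm_le hφ hmap)] at h1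

lemma norm_comp_sq_nu (hφ : DifferentiableOn ℂ φ (ball 0 1))
    (hmap : MapsTo φ (ball 0 1) (ball 0 1)) {C : OpH2} (hC : IsCompOp φ C)
    {f : H2} (hf : Summable (fun n => ‖f n‖)) (n : ℕ) :
    ‖C ((Mz ^ n) f)‖ ^ 2 = ∫ w, gf f n w ∂(nu φ) := by
  rw [norm_comp_sq hφ hmap hC hf n, intervalIntegral.integral_of_le zero_le_one]
  have h1 : AEStronglyMeasurable (gf f n) (Measure.map (bdry φ) (volume.restrict (Set.Ioc 0 1))) :=
    (integrable_gf hφ hmap hf n).aestronglyMeasurable
  unfold nu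
  rw [integral_map (aemeasurable_bdry hφ hmap).restrict h1]
  rfl

/-- The compressed operators. -/
lemma compress_eq (C : OpH2) (n : ℕ) :
    compress (gram C) n = ContinuousLinearMap.adjoint (C * Mz ^ n) * (C * Mz ^ n) := by
  unfold compress gram
  simp only [← ContinuousLinearMap.star_eq_adjoint, star_mul, star_pow, mul_assoc]

/-- Quadratic form of `A*A`. -/
lemma re_inner_adj (A : OpH2) (f : H2) :
    (inner ℂ ((ContinuousLinearMap.adjoint A * A) f) f : ℂ).re = ‖A f‖ ^ 2 := by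
  have := ContinuousLinearMap.apply_norm_sq_eq_inner_adjoint_left A f
  rw [this]
  rfl

/-- Difference of the quadratic forms, bounded by the norm. -/
lemma sub_le_norm (A B : OpH2) (f : H2) :
    ‖A f‖ ^ 2 - ‖B f‖ ^ 2 ≤
      ‖ContinuousLinearMap.adjoint A * A - ContinuousLinearMap.adjoint B * B‖ * ‖f‖ ^ 2 := by
  rw [← re_inner_adj A f, ← re_inner_adj B f, ← Complex.sub_re, ← inner_sub_left]
  have h1 : (ContinuousLinearMap.adjoint A * A) f - (ContinuousLinearMap.adjoint B * B) f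
    = (ContinuousLinearMap.adjoint A * A - ContinuousLinearMap.adjoint B * B) f := rfl
  rw [h1]
  refine (Complex.re_le_norm _).trans ?_
  refine (norm_inner_le_norm _ _).trans ?_
  have h2 := ContinuousLinearMap.le_opNorm
    (ContinuousLinearMap.adjoint A * A - ContinuousLinearMap.adjoint B * B) f
  nlinarith [norm_nonneg f]

/-- Norm of a positive difference, from the quadratic forms. -/
lemma norm_sub_le_of_forms {A B : OpH2} {ε : ℝ} (hε : 0 ≤ ε)
    (h1 : ∀ f, ‖B f‖ ^ 2 ≤ ‖A f‖ ^ 2) (h2 : ∀ f, ‖A f‖ ^ 2 - ‖B f‖ ^ 2 ≤ ε * ‖f‖ ^ 2) :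
    ‖ContinuousLinearMap.adjoint A * A - ContinuousLinearMap.adjoint B * B‖ ≤ ε := by
  set D := ContinuousLinearMap.adjoint A * A - ContinuousLinearMap.adjoint B * B with hD
  have hsA : IsSelfAdjoint (ContinuousLinearMap.adjoint A * A) := by
    rw [← ContinuousLinearMap.star_eq_adjoint]
    exact IsSelfAdjoint.star_mul_self A
  have hsB : IsSelfAdjoint (ContinuousLinearMap.adjoint B * B) := by
    rw [← ContinuousLinearMap.star_eq_adjoint]
    exact IsSelfAdjoint.star_mul_self B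
  have hsD : IsSelfAdjoint D := hsA.sub hsB
  have hform : ∀ f, (inner ℂ (D f) f : ℂ).re = ‖A f‖ ^ 2 - ‖B f‖ ^ 2 := by
    intro f
    rw [← re_inner_adj A f, ← re_inner_adj B f, ← Complex.sub_re, ← inner_sub_left]
    rfl
  have hD0 : 0 ≤ D := by
    rw [ContinuousLinearMap.nonneg_iff_isPositive, ContinuousLinearMap.isPositive_def']
    refine ⟨hsD, fun f => ?_⟩
    have : D.reApplyInnerSelf f = (inner ℂ (D f) f : ℂ).re := rfl
    rw [this, hform]
    linarith [h1 f]
  rw [CStarAlgebra.norm_le_iff_le_algebraMap D hε hD0, ContinuousLinearMap.le_def,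
    ContinuousLinearMap.isPositive_def']
  refine ⟨?_, fun f => ?_⟩
  · apply IsSelfAdjoint.sub _ hsD
    exact IsSelfAdjoint.algebraMap _ (IsSelfAdjoint.all ε)
  · change 0 ≤ (inner ℂ ((algebraMap ℝ (OpH2) ε) f - D f) f : ℂ).re
    rw [inner_sub_left, Complex.sub_re, hform]
    have h3 : (algebraMap ℝ (OpH2) ε) f = (ε : ℂ) • f := by
      rw [Algebra.algebraMap_eq_smul_one]
      rfl
    rw [h3, inner_smul_left, Complex.conj_ofReal, inner_self_eq_norm_sq_to_K]
    have h4 : ((ε : ℂ) * ((‖f‖ : ℝ) : ℂ) ^ 2).re = ε * ‖f‖ ^ 2 := by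
      rw [← Complex.ofReal_pow, ← Complex.ofReal_mul, Complex.ofReal_re]
    have h5 := h2 f
    have h6 : (((ε : ℂ)) * ((RCLike.ofReal ‖f‖ : ℂ)) ^ 2).re = ε * ‖f‖ ^ 2 := h4
    rw [h6]
    linarith

end Pool.Agent.CompToeplitz
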